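import Pool.Agent.Work.MP_c72427_an.U.P

set_option autoImplicit false

/-!
# MP_c72427_an, module FactB

Facts on the group `G_β`.

PROOF. `subB_exh`: for `g` take `n` larger than the support of `g.left` and than all letters of `g.right` plus 2: by
`FreeGroup.induction_on` (or closure induction): for every `f : FreeGroup ℕ` there is an `n` with `piB f i = i` for all `i ≥ n`
(for `of k`: `piB (of k) = letterPerm k` fixes all `i ≥ k`; products: maximum; inverses).
`aB_comm`: `piB (of k) = 1` for `k < 2`, so `phiB (of k) = 1`. `wB_comm`: `g ∈ SubB n`: `phiB g.right` fixes `single n 1` because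
`piB g.right n = n` (`Finsupp.domCongr` / `phiB_apply`: `(phiB g x) i = x ((piB g)⁻¹ i)`), and the left parts commute.
`conj_wB`: `piB (of (n+2)) = swap n (n+1)` maps `single n 1` to `single (n+1) 1`. `conj_mem`: the right component of
`aB k * a * (aB k)⁻¹` is `of k * 1 * (of k)⁻¹ = 1`. Instances: `GB` is countable (it is equivalent to a product, `SemidirectProduct`
has an equivalence with the product, `FreeGroup ℕ` is countable) and infinite (`wB` is injective).
-/

namespace MPc72427

open Filter Topology
open scoped InnerProductSpace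

private theorem fB_lamB_iff (g : GB) : g ∈ LamB ↔ g.right = 1 := Iff.rfl

private theorem fB_subB_iff (n : ℕ) (g : GB) : g ∈ SubB n ↔
    (∀ i, n ≤ i → Multiplicative.toAdd g.left i = 0) ∧ ∀ i, n ≤ i → piB g.right i = i := Iff.rfl

private theorem fB_letter (k i : ℕ) (h : k ≤ i) : letterPerm k i = i := by
  match k, h with
  | 0, _ => rfl
  | 1, _ => rfl
  | (n + 2), h =>
    change Equiv.swap n (n + 1) i = i
    exact Equiv.swap_apply_of_ne_of_ne (by omega) (by omega)

private theorem fB_piB_of (k : ℕ) : piB (FreeGroup.of k) = letterPerm k := by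
  rw [piB, FreeGroup.lift_apply_of]

private theorem fB_piB_exh (f : FreeGroup ℕ) : ∃ n, ∀ i, n ≤ i → piB f i = i := by
  induction f using FreeGroup.induction_on with
  | C1 => exact ⟨0, fun i _ => by rw [map_one]; rfl⟩
  | of k => exact ⟨k, fun i hi => by
      change piB (FreeGroup.of k) i = i
      rw [fB_piB_of, fB_letter k i hi]⟩
  | inv_of k _ => exact ⟨k, fun i hi => by
      change piB (FreeGroup.of k)⁻¹ i = i
      rw [map_inv, Equiv.Perm.inv_eq_iff_eq, fB_piB_of, fB_letter k i hi]⟩
  | mul x y hx hy =>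
    obtain ⟨m, hm⟩ := hx
    obtain ⟨n, hn⟩ := hy
    refine ⟨max m n, fun i hi => ?_⟩
    rw [map_mul, Equiv.Perm.mul_apply, hn i (le_trans (le_max_right _ _) hi),
      hm i (le_trans (le_max_left _ _) hi)]

theorem subB_mono : Monotone SubB := by
  intro m n hmn g hg
  exact ⟨fun i hi => hg.1 i (hmn.trans hi), fun i hi => hg.2 i (hmn.trans hi)⟩

theorem subB_exh (g : GB) : ∃ n, g ∈ SubB n := by
  obtain ⟨m, hm⟩ := fB_piB_exh g.right
  have hfin := (Multiplicative.toAdd g.left).support.finite_toSet
  obtain ⟨N, hN⟩ := hfin.bddAbove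
  refine ⟨max m (N + 1), fun i hi => ?_, fun i hi => hm i (le_trans (le_max_left _ _) hi)⟩
  by_contra h
  have h1 : i ≤ N := hN (Finset.mem_coe.2 (Finsupp.mem_support_iff.2 h))
  have h2 : N + 1 ≤ i := le_trans (le_max_right _ _) hi
  omega

theorem lamB_comm : ∀ a ∈ LamB, ∀ b ∈ LamB, a * b = b * a := by
  intro a ha b hb
  rw [fB_lamB_iff] at ha hb
  refine SemidirectProduct.ext ?_ ?_
  · rw [SemidirectProduct.mul_left, SemidirectProduct.mul_left, ha, hb, map_one]
    change a.left * b.left = b.left * a.left
    exact mul_comm _ _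
  · rw [SemidirectProduct.mul_right, SemidirectProduct.mul_right, ha, hb]

theorem aB_comm {k : ℕ} (hk : k < 2) : ∀ a ∈ LamB, aB k * a = a * aB k := by
  intro a ha
  rw [fB_lamB_iff] at ha
  have h1 : piB (FreeGroup.of k) = 1 := by
    rw [fB_piB_of]
    interval_cases k <;> rfl
  have h2 : phiB (FreeGroup.of k) = 1 := by
    rw [phiB, MonoidHom.comp_apply, h1, map_one]
  have hr : (aB k).right = FreeGroup.of k := rfl
  have hl : (aB k).left = 1 := rfl
  refine SemidirectProduct.ext ?_ ?_
  · rw [SemidirectProduct.mul_left, SemidirectProduct.mul_left, ha, hr, hl, h2, map_one, mul_one,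
      one_mul]
    rfl
  · rw [SemidirectProduct.mul_right, SemidirectProduct.mul_right, ha, mul_one, one_mul]

theorem wB_mem (n : ℕ) : wB n ∈ LamB := by
  rw [fB_lamB_iff]
  rfl

theorem wB_injective : Function.Injective wB := by
  intro m n h
  have h1 := congrArg (fun g : GB => Multiplicative.toAdd g.left) h
  have h2 : (Finsupp.single m (1 : ℤ) : ℕ →₀ ℤ) = Finsupp.single n (1 : ℤ) := h1
  exact Finsupp.single_left_injective one_ne_zero h2

theorem wB_ne_one (n : ℕ) : wB n ≠ 1 := by
  intro h
  have h1 := congrArg (fun g : GB => Multiplicative.toAdd g.left) h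
  have h2 : (Finsupp.single n (1 : ℤ) : ℕ →₀ ℤ) = 0 := h1
  have h3 := DFunLike.congr_fun h2 n
  simp at h3

theorem wB_comm (n : ℕ) : ∀ g ∈ SubB n, wB n * g = g * wB n := by
  intro g hg
  rw [fB_subB_iff] at hg
  have hr : (wB n).right = 1 := rfl
  have hl : (wB n).left = Multiplicative.ofAdd (Finsupp.single n (1 : ℤ)) := rfl
  have hphi : phiB g.right (wB n).left = (wB n).left := by
    apply Multiplicative.toAdd.injective
    ext i
    rw [phiB_apply, hl, toAdd_ofAdd, Finsupp.single_apply, Finsupp.single_apply]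
    have hiff : (n = (piB g.right)⁻¹ i) ↔ (n = i) := by
      rw [eq_comm, Equiv.Perm.inv_eq_iff_eq, hg.2 n le_rfl, eq_comm]
    simp only [hiff]
  refine SemidirectProduct.ext ?_ ?_
  · rw [SemidirectProduct.mul_left, SemidirectProduct.mul_left, hphi, hr, map_one]
    change (wB n).left * g.left = g.left * (wB n).left
    exact mul_comm _ _
  · rw [SemidirectProduct.mul_right, SemidirectProduct.mul_right, hr, mul_one, one_mul]

theorem conj_wB (n : ℕ) : aB (n + 2) * wB n * (aB (n + 2))⁻¹ = wB (n + 1) := by
  rw [mul_inv_eq_iff_eq_mul]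
  have hr : (aB (n + 2)).right = FreeGroup.of (n + 2) := rfl
  have hl : (aB (n + 2)).left = 1 := rfl
  have wr : ∀ m, (wB m).right = 1 := fun _ => rfl
  have wl : ∀ m, (wB m).left = Multiplicative.ofAdd (Finsupp.single m (1 : ℤ)) := fun _ => rfl
  have hphi : phiB (FreeGroup.of (n + 2)) (wB n).left = (wB (n + 1)).left := by
    apply Multiplicative.toAdd.injective
    ext i
    rw [phiB_apply, wl, wl, toAdd_ofAdd, toAdd_ofAdd, Finsupp.single_apply, Finsupp.single_apply,
      fB_piB_of]
    have hiff : (n = (letterPerm (n + 2))⁻¹ i) ↔ (n + 1 = i) := by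
      rw [eq_comm, Equiv.Perm.inv_eq_iff_eq]
      change i = Equiv.swap n (n + 1) n ↔ _
      rw [Equiv.swap_apply_left, eq_comm]
    simp only [hiff]
  refine SemidirectProduct.ext ?_ ?_
  · rw [SemidirectProduct.mul_left, SemidirectProduct.mul_left, hr, hl, hphi, wr, map_one, one_mul]
    change _ = (wB (n + 1)).left * 1
    rw [mul_one]
  · rw [SemidirectProduct.mul_right, SemidirectProduct.mul_right, wr, wr, mul_one, one_mul]

theorem conj_mem (k : ℕ) : ∀ a ∈ LamB, aB k * a * (aB k)⁻¹ ∈ LamB := by
  intro a ha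
  rw [fB_lamB_iff] at ha ⊢
  rw [SemidirectProduct.mul_right, SemidirectProduct.mul_right, ha, mul_one,
    SemidirectProduct.inv_right, mul_inv_cancel]

theorem countable_GB : Countable GB := by
  have h1 : Countable (FreeGroup ℕ) := inferInstance
  have h2 : Countable (Multiplicative (ℕ →₀ ℤ)) := inferInstanceAs (Countable (ℕ →₀ ℤ))
  have h : Function.Injective (fun g : GB => (g.left, g.right)) := by
    intro a b hab
    simp only [Prod.mk.injEq] at hab
    exact SemidirectProduct.ext hab.1 hab.2
  exact h.countable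

theorem infinite_GB : Infinite GB := Infinite.of_injective wB wB_injective

end MPc72427
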