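import Pool.Agent.Work.MP_c72427_an.U.P

set_option autoImplicit false

/-!
# MP_c72427_an, module Mul

The Fourier coefficients of a product.

PROOF. `vec (x * y) g = x (vec y) g = ⟪e g, x (vec y)⟫ = ⟪star x (e g), vec y⟫` (`inner_e_left`, adjoint), and
`lp.hasSum_inner (star x (e g)) (vec y)` has the terms `star (star x (e g) h) * vec y h`; by `entry` (for `star x`, which is in the
algebra) and `star_apply_one`, `star x (e g) h = star x (e 1) (h g⁻¹) = star (x (e 1) (g h⁻¹)) = star (vec x (g * h⁻¹))`.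
Second form: the bijection `h ↦ h⁻¹ * g` of `G`.
-/

namespace MPc72427

open Filter Topology
open scoped InnerProductSpace

variable {G : Type} [Group G]

theorem hasSum_vec_mul (x y : (grpTr G).El) (g : G) :
    HasSum (fun h : G => vec x (g * h⁻¹) * vec y h) (vec (x * y) g) := by
  have h1 := lp.hasSum_inner (𝕜 := ℂ) ((((star x : (grpTr G).El) : L2 G →L[ℂ] L2 G)) (e g)) (vec y)
  have h2 : ⟪(((star x : (grpTr G).El) : L2 G →L[ℂ] L2 G)) (e g), vec y⟫_ℂ = vec (x * y) g := by
    rw [vec_mul, ← inner_e_left]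
    exact ContinuousLinearMap.adjoint_inner_left _ _ _
  have h3 : (fun h : G => vec x (g * h⁻¹) * vec y h) =
      fun h => ⟪(((star x : (grpTr G).El) : L2 G →L[ℂ] L2 G)) (e g) h, vec y h⟫_ℂ := by
    funext h
    symm
    rw [entry (star x).2]
    have h3 := star_apply_one x.2 (h * g⁻¹)
    change ⟪(star (x : L2 G →L[ℂ] L2 G)) (e 1) (h * g⁻¹), vec y h⟫_ℂ = _
    rw [h3, mul_inv_rev, inv_inv]
    change vec y h * star (star (vec x (g * h⁻¹))) = _
    rw [star_star, mul_comm]
  rw [h3, ← h2]
  exact h1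

theorem hasSum_vec_mul' (x y : (grpTr G).El) (g : G) :
    HasSum (fun h : G => vec x h * vec y (h⁻¹ * g)) (vec (x * y) g) := by
  have h1 := hasSum_vec_mul x y g
  rw [← ((Equiv.inv G).trans (Equiv.mulRight g)).hasSum_iff] at h1
  have h3 : (fun h : G => vec x h * vec y (h⁻¹ * g)) =
      (fun h : G => vec x (g * h⁻¹) * vec y h) ∘ ((Equiv.inv G).trans (Equiv.mulRight g)) := by
    funext h
    simp
  rw [h3]
  exact h1

end MPc72427
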