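import Pool.Agent.Work.MP_c72427_an.U.P

set_option autoImplicit false

/-!
# MP_c72427_an, module Exp

The conditional expectation onto the algebra of a subgroup.

PROOF. Let `cs g = {k * g | k ∈ K}` be the right coset of `g`. Define `(T f) g = x (rst (cs g) f) g`. This is linear in `f`.
`∑_g ‖(T f) g‖² = ∑_c ∑_{g ∈ c} ‖x (rst c f) g‖² ≤ ∑_c ‖x (rst c f)‖² ≤ ‖x‖² ∑_c ‖rst c f‖² = ‖x‖² ‖f‖²`, where `c` runs over
the right cosets (e.g. `Quotient (QuotientGroup.rightRel K)`, sums over `G` as sums over the sigma type of the fibres of the quotient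
map, or use `ENNReal` / `tsum` of nonnegative functions). So `T` is a bounded operator with `‖T‖ ≤ ‖x‖`
(`LinearMap.mkContinuous`, `L2.memℓp`).
`T` is in the algebra: `rst (cs g) (rhoOp h f) = rhoOp h (rst (cs (g * h)) f)` (`rhoOp_apply`: `(rhoOp h f) x = f (x * h)`), and
`cs g * h = cs (g * h)`; so `(T (rhoOp h f)) g = (x (rhoOp h (rst (cs (g*h)) f))) g = (x (rst (cs (g*h)) f)) (g * h)
= (rhoOp h (T f)) g` (`mem_grpVN`). Finally `rst (cs g) (e 1) = e 1` if `1 ∈ cs g`, that is `g ∈ K`, and `0` otherwise, so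
`T (e 1) = rst K (x (e 1))`.
-/

namespace MPc72427

open Filter Topology
open scoped InnerProductSpace

variable {G : Type} [Group G]

private theorem exp_tsum_fib {X C : Type} (q : X → C) (F : X → ENNReal) :
    ∑' g, F g = ∑' c, ∑' g, (q ⁻¹' {c}).indicator F g := by
  rw [ENNReal.tsum_comm]
  congr 1
  ext g
  rw [tsum_eq_single (q g)]
  · rw [Set.indicator_of_mem (by simp)]
  · intro c hc
    rw [Set.indicator_of_notMem]
    intro h
    exact hc (by simpa using h.symm)

private theorem exp_norm {X : Type} (f : L2 X) :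
    ENNReal.ofReal (‖f‖ ^ 2) = ∑' x, ENNReal.ofReal (‖f x‖ ^ 2) := by
  rw [L2.norm_sq, ENNReal.ofReal_tsum_of_nonneg (fun x => by positivity) (L2.summable_sq f)]

private theorem exp_bound {X C : Type} (q : X → C) (x : L2 X →L[ℂ] L2 X) (f : L2 X) :
    ∑' g, ENNReal.ofReal (‖x (rst (q ⁻¹' {q g}) f) g‖ ^ 2) ≤
      ENNReal.ofReal (‖x‖ ^ 2 * ‖f‖ ^ 2) := by
  rw [exp_tsum_fib q]
  calc ∑' c, ∑' g, (q ⁻¹' {c}).indicator
        (fun g => ENNReal.ofReal (‖x (rst (q ⁻¹' {q g}) f) g‖ ^ 2)) g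
      ≤ ∑' c, ∑' g, ENNReal.ofReal (‖x (rst (q ⁻¹' {c}) f) g‖ ^ 2) := by
        refine ENNReal.tsum_le_tsum fun c => ENNReal.tsum_le_tsum fun g => ?_
        by_cases hg : g ∈ q ⁻¹' {c}
        · rw [Set.indicator_of_mem hg]
          have : q g = c := hg
          rw [this]
        · rw [Set.indicator_of_notMem hg]
          exact zero_le
    _ = ∑' c, ENNReal.ofReal (‖x (rst (q ⁻¹' {c}) f)‖ ^ 2) := by
        congr 1
        ext c
        rw [exp_norm]
    _ ≤ ∑' c, ENNReal.ofReal (‖x‖ ^ 2) * ENNReal.ofReal (‖rst (q ⁻¹' {c}) f‖ ^ 2) := by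
        refine ENNReal.tsum_le_tsum fun c => ?_
        rw [← ENNReal.ofReal_mul (by positivity), ← mul_pow]
        exact ENNReal.ofReal_le_ofReal (pow_le_pow_left₀ (norm_nonneg _) (x.le_opNorm _) 2)
    _ = ENNReal.ofReal (‖x‖ ^ 2) * ∑' c, ENNReal.ofReal (‖rst (q ⁻¹' {c}) f‖ ^ 2) :=
        ENNReal.tsum_mul_left
    _ = ENNReal.ofReal (‖x‖ ^ 2) * ENNReal.ofReal (‖f‖ ^ 2) := by
        congr 1
        rw [exp_norm f, exp_tsum_fib q]
        congr 1
        ext c
        rw [exp_norm]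
        congr 1
        ext g
        by_cases hg : g ∈ q ⁻¹' {c}
        · rw [Set.indicator_of_mem hg, rst_apply_of_mem hg]
        · rw [Set.indicator_of_notMem hg, rst_apply_of_notMem hg]
          simp
    _ = ENNReal.ofReal (‖x‖ ^ 2 * ‖f‖ ^ 2) := by
        rw [← ENNReal.ofReal_mul (by positivity)]

private theorem exp_summable {X C : Type} (q : X → C) (x : L2 X →L[ℂ] L2 X) (f : L2 X) :
    Summable fun g => ‖x (rst (q ⁻¹' {q g}) f) g‖ ^ 2 := by
  have h := ENNReal.summable_toReal (ne_top_of_le_ne_top ENNReal.ofReal_ne_top (exp_bound q x f))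
  refine h.congr fun g => ?_
  rw [ENNReal.toReal_ofReal (by positivity)]

/-- The operator `T`. -/
private noncomputable def expOp {X C : Type} (q : X → C) (x : L2 X →L[ℂ] L2 X) : L2 X →L[ℂ] L2 X :=
  LinearMap.mkContinuous
    { toFun := fun f => ⟨fun g => x (rst (q ⁻¹' {q g}) f) g, L2.memℓp (exp_summable q x f)⟩
      map_add' := fun f g => by
        ext z
        change x (rst (q ⁻¹' {q z}) (f + g)) z =
          x (rst (q ⁻¹' {q z}) f) z + x (rst (q ⁻¹' {q z}) g) z
        rw [map_add, map_add]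
        rfl
      map_smul' := fun c f => by
        ext z
        change x (rst (q ⁻¹' {q z}) (c • f)) z = c • x (rst (q ⁻¹' {q z}) f) z
        rw [map_smul, map_smul]
        rfl } ‖x‖ (by
    intro f
    refine (sq_le_sq₀ (norm_nonneg _) (by positivity)).1 ?_
    rw [mul_pow]
    refine (ENNReal.ofReal_le_ofReal_iff (by positivity)).1 ?_
    rw [exp_norm]
    exact exp_bound q x f)

private theorem expOp_apply {X C : Type} (q : X → C) (x : L2 X →L[ℂ] L2 X) (f : L2 X) (g : X) :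
    expOp q x f g = x (rst (q ⁻¹' {q g}) f) g := rfl

private theorem norm_expOp_le {X C : Type} (q : X → C) (x : L2 X →L[ℂ] L2 X) :
    ‖expOp q x‖ ≤ ‖x‖ := LinearMap.mkContinuous_norm_le _ (norm_nonneg _) _

private theorem expOp_mem (K : Subgroup G) {x : L2 G →L[ℂ] L2 G}
    (hx : x ∈ (grpVN G).toStarSubalgebra) :
    expOp (fun g : G => (Quotient.mk (QuotientGroup.rightRel K) g)) x ∈
      (grpVN G).toStarSubalgebra := by
  refine mem_grpVN.2 fun h => ?_
  ext f : 1
  ext y
  rw [mul_app, mul_app, rhoOp_apply, expOp_apply, expOp_apply]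
  set q : G → Quotient (QuotientGroup.rightRel K) := fun g => Quotient.mk _ g with hq
  have h1 : rst (q ⁻¹' {q y}) (rhoOp h f) = rhoOp h (rst (q ⁻¹' {q (y * h)}) f) := by
    have hs : (Equiv.mulRight h⁻¹ : Equiv.Perm G) ⁻¹' (q ⁻¹' {q y}) = q ⁻¹' {q (y * h)} := by
      ext z
      simp only [Set.mem_preimage, Set.mem_singleton_iff, Equiv.coe_mulRight, hq]
      rw [Quotient.eq, Quotient.eq, QuotientGroup.rightRel_apply, QuotientGroup.rightRel_apply]
      have : y * (z * h⁻¹)⁻¹ = y * h * z⁻¹ := by group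
      rw [this]
    rw [rhoOp, rst_perm, hs]
  rw [h1]
  have h2 := congrArg (fun T => T (rst (q ⁻¹' {q (y * h)}) f)) (mem_grpVN.1 hx h)
  simp only [mul_app] at h2
  rw [← h2, rhoOp_apply]

theorem exists_condExp (K : Subgroup G) (x : (grpTr G).El) :
    ∃ y : (grpTr G).El, vec y = rst (K : Set G) (vec x) ∧ nop y ≤ nop x := by
  refine ⟨⟨expOp (fun g : G => (Quotient.mk (QuotientGroup.rightRel K) g))
    (x : L2 G →L[ℂ] L2 G), expOp_mem K x.2⟩, ?_, norm_expOp_le _ _⟩
  ext g
  change expOp (fun g : G => (Quotient.mk (QuotientGroup.rightRel K) g))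
    (x : L2 G →L[ℂ] L2 G) (e 1) g = rst (K : Set G) (vec x) g
  rw [expOp_apply]
  have key : (1 : G) ∈ (fun g : G => (Quotient.mk (QuotientGroup.rightRel K) g)) ⁻¹'
      {(Quotient.mk (QuotientGroup.rightRel K) g)} ↔ g ∈ K := by
    simp only [Set.mem_preimage, Set.mem_singleton_iff]
    rw [Quotient.eq, QuotientGroup.rightRel_apply, inv_one, mul_one]
  by_cases hg : g ∈ K
  · rw [rst_e_of_mem (key.2 hg), rst_apply_of_mem (by exact hg)]
    rfl
  · rw [rst_e_of_notMem (fun h => hg (key.1 h)), rst_apply_of_notMem (by exact hg), map_zero]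
    rfl

end MPc72427
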