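import Pool.Agent.Work.MP_c72427_an.U.P
import Pool.Agent.Work.MP_c72427_an.U.Exp

set_option autoImplicit false

/-!
# MP_c72427_an, module Sup

Elements supported on a subgroup.

PROOF. `rst_rho`: pointwise, `x * g ∈ C ↔ x ∈ C`. `rst_comm`: both sides are continuous linear in `f`, so by `ext_e` (for the operators
`rst C ∘ x` and `x ∘ rst C`) it is enough to take `f = e h`. By `entry` the coordinate `g` of `x (e h)` is `vec x (g * h⁻¹)`, which is
zero unless `g * h⁻¹ ∈ K ≤ C` (`supp_iff`). If `h ∈ C` then `x (e h)` vanishes outside `C`, if `h ∉ C` it vanishes on `C`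
(`rst_e_of_mem`, `rst_e_of_notMem`).
`supp_mul`: `rst K (x (vec y)) = x (rst K (vec y))` by `rst_comm` with `C = K`. `supp_star`: `star_apply_one` (or `vec (star x) g =
star (vec x g⁻¹)`). `supp_sub`: linearity. `exists_exp`: `exists_condExp` restated: `sub_rst`, `rst_rst_self`.
-/

namespace MPc72427

open Filter Topology
open scoped InnerProductSpace

variable {G : Type} [Group G]

theorem rst_rho {C : Subgroup G} {g : G} (hg : g ∈ C) (f : L2 G) :
    rst (C : Set G) (rhoOp g f) = rhoOp g (rst (C : Set G) f) := by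
  ext x
  rw [rhoOp_apply]
  by_cases hx : x ∈ (C : Set G)
  · have hx' : x * g ∈ (C : Set G) := C.mul_mem hx hg
    rw [rst_apply_of_mem hx, rst_apply_of_mem hx', rhoOp_apply]
  · have hx' : x * g ∉ (C : Set G) := fun h => hx ((C.mul_mem_cancel_right hg).1 h)
    rw [rst_apply_of_notMem hx, rst_apply_of_notMem hx']

theorem rst_comm {K C : Subgroup G} (h : K ≤ C) {x : (grpTr G).El} (hx : Supp (K : Set G) x)
    (f : L2 G) : rst (C : Set G) ((x : L2 G →L[ℂ] L2 G) f) =
      (x : L2 G →L[ℂ] L2 G) (rst (C : Set G) f) := by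
  have key : (rst (C : Set G)) * (x : L2 G →L[ℂ] L2 G) =
      (x : L2 G →L[ℂ] L2 G) * (rst (C : Set G)) := by
    refine ext_e fun h' => ?_
    rw [mul_app, mul_app]
    have hzero : ∀ g : G, g * h'⁻¹ ∉ (K : Set G) → (x : L2 G →L[ℂ] L2 G) (e h') g = 0 := by
      intro g hg
      rw [entry x.2]
      exact (supp_iff.1 hx) _ hg
    by_cases hh : h' ∈ (C : Set G)
    · rw [rst_e_of_mem hh]
      ext g
      by_cases hg : g ∈ (C : Set G)
      · rw [rst_apply_of_mem hg]
      · rw [rst_apply_of_notMem hg, hzero g]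
        intro hk
        apply hg
        have : g * h'⁻¹ * h' ∈ C := C.mul_mem (h hk) hh
        simpa using this
    · rw [rst_e_of_notMem hh, map_zero]
      ext g
      by_cases hg : g ∈ (C : Set G)
      · rw [rst_apply_of_mem hg, hzero g]
        · rfl
        · intro hk
          apply hh
          have h1 : g * h'⁻¹ ∈ C := h hk
          have h2 : (g * h'⁻¹)⁻¹ * g ∈ C := C.mul_mem (C.inv_mem h1) hg
          simpa using h2
      · rw [rst_apply_of_notMem hg]
        rfl
  have := congrArg (fun T : L2 G →L[ℂ] L2 G => T f) key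
  simpa only [mul_app] using this

theorem supp_mul {K : Subgroup G} {x y : (grpTr G).El} (hx : Supp (K : Set G) x)
    (hy : Supp (K : Set G) y) : Supp (K : Set G) (x * y) := by
  unfold Supp at hy ⊢
  rw [vec_mul, rst_comm le_rfl hx, hy]

theorem supp_star {K : Subgroup G} {x : (grpTr G).El} (hx : Supp (K : Set G) x) :
    Supp (K : Set G) (star x) := by
  rw [supp_iff]
  intro g hg
  have h1 : vec (star x) g = star (vec x g⁻¹) := star_apply_one x.2 g
  rw [h1, (supp_iff.1 hx) g⁻¹ (fun h => hg (by simpa using h)), star_zero]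

theorem supp_sub {K : Subgroup G} {x y : (grpTr G).El} (hx : Supp (K : Set G) x)
    (hy : Supp (K : Set G) y) : Supp (K : Set G) (x - y) := by
  unfold Supp at hx hy ⊢
  rw [vec_sub, map_sub, hx, hy]

/-- Conditional expectation: every `x` is `y + (x - y)` with `y` supported on `K`, `‖y‖ ≤ ‖x‖` and
`‖x - y‖₂ = ‖rst Kᶜ (vec x)‖`. -/
theorem exists_exp (K : Subgroup G) (x : (grpTr G).El) :
    ∃ y : (grpTr G).El, Supp (K : Set G) y ∧ nop y ≤ nop x ∧
      vec y = rst (K : Set G) (vec x) ∧ n2 (x - y) = ‖rst (K : Set G)ᶜ (vec x)‖ := by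
  obtain ⟨y, hy, hn⟩ := exists_condExp K x
  refine ⟨y, ?_, hn, hy, ?_⟩
  · unfold Supp
    rw [hy, rst_rst_self]
  · rw [n2, norm2_eq, vec_sub, hy, sub_rst]

end MPc72427
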