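import Pool.Agent.Work.MP_c72427_an.U.P
import Pool.Agent.Work.MP_c72427_an.U.Mul
import Pool.Agent.Work.MP_c72427_an.U.Sup
import Pool.Agent.Work.MP_c72427_an.U.FactB

set_option autoImplicit false

/-!
# MP_c72427_an, module BNorm

Conjugation by the letter `n + 2` does not change the norm of the commutator of an element `d` of the algebra of `⊕ ℤ` with an element
`p` supported on the coordinates `< n`.

PROOF. `a = aB (n+2)`, `d' = lam a * d * star (lam a)`, `φ = phiB (of (n+2))` (exchanges the coordinates `n`, `n+1`), `T = perm τ` with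
`τ : GB ≃ GB`, `τ (μ, γ) = (φ μ, γ)`. Claim: `vec (d' * p - p * d') = T (vec (d * p - p * d))`; then the norms are equal (`norm_perm`,
`norm2_eq`). Coordinates: `vec d' g = vec d (a⁻¹ * g * a)` (as in `CommSup`), so `d'` is supported on `LamB` and
`vec d' (inl ν) = vec d (inl (φ⁻¹ ν))`. By `hasSum_vec_mul'` `vec (d' * p) (μ, γ) = ∑_ν vec d' (inl ν) * vec p (ν⁻¹ μ, γ)` (only
`h = inl ν` contribute) and by `hasSum_vec_mul` `vec (p * d') (μ, γ) = ∑_ν vec p (μ * (phiB γ ν)⁻¹, γ) * vec d' (inl ν)`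
(`(μ, γ) * (inl ν)⁻¹ = (μ * (phiB γ ν)⁻¹, γ)`). The function `μ ↦ vec p (μ, γ)` is invariant under `φ`: for `(μ, γ)` in `SubB n`
`φ μ = μ`, and `μ` satisfies the condition of `SubB n` iff `φ μ` does. Substitute `ν = φ ν'` in both sums:
`∑_ν' vec d (inl ν') * vec p (φ (ν'⁻¹ * φ⁻¹ μ), γ) = vec (d * p) (φ⁻¹ μ, γ)`. For the second sum we may assume that `γ` fixes all
`i ≥ n` (otherwise `vec p (·, γ) = 0` and both sides are zero); then `phiB γ` commutes with `φ` (disjoint permutations), so
`μ * (phiB γ (φ ν'))⁻¹ = φ (φ⁻¹ μ * (phiB γ ν')⁻¹)` and the sum is `vec (p * d) (φ⁻¹ μ, γ)`.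
(Alternative with operators: `T` intertwines the left action of `d` and `d'` on all of `ℓ²`, fixes `vec p`, etc.)
-/

namespace MPc72427

open Filter Topology
open scoped InnerProductSpace

private theorem piB_letter (n : ℕ) : piB (FreeGroup.of (n + 2)) = Equiv.swap n (n + 1) := by
  rw [piB, FreeGroup.lift_apply_of]
  rfl

/-- The automorphism of the sequences given by the letter `n + 2`. -/
private noncomputable def ph (n : ℕ) : MulAut (Multiplicative (ℕ →₀ ℤ)) :=
  phiB (FreeGroup.of (n + 2))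

private theorem ph_apply (n : ℕ) (x : Multiplicative (ℕ →₀ ℤ)) (i : ℕ) :
    Multiplicative.toAdd (ph n x) i = Multiplicative.toAdd x (Equiv.swap n (n + 1) i) := by
  rw [ph, phiB_apply, piB_letter, Equiv.swap_inv]

private theorem swap_ge {n i : ℕ} (hi : n ≤ i) : n ≤ Equiv.swap n (n + 1) i := by
  rw [Equiv.swap_apply_def]
  split_ifs <;> omega

private theorem swap_lt {n i : ℕ} (hi : i < n) : Equiv.swap n (n + 1) i = i :=
  Equiv.swap_apply_of_ne_of_ne (by omega) (by omega)

private theorem ph_eq_self {n : ℕ} {x : Multiplicative (ℕ →₀ ℤ)}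
    (hx : ∀ i, n ≤ i → Multiplicative.toAdd x i = 0) : ph n x = x := by
  apply Multiplicative.toAdd.injective
  ext i
  rw [ph_apply]
  by_cases hi : n ≤ i
  · rw [hx i hi, hx _ (swap_ge hi)]
  · rw [swap_lt (by omega)]

/-- The bijection `(μ, γ) ↦ (φ μ, γ)`. -/
private noncomputable def ta (n : ℕ) : Equiv.Perm GB where
  toFun g := ⟨ph n g.left, g.right⟩
  invFun g := ⟨(ph n).symm g.left, g.right⟩
  left_inv g := SemidirectProduct.ext (by simp) rfl
  right_inv g := SemidirectProduct.ext (by simp) rfl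

private theorem ta_mem {n : ℕ} {g : GB} : ta n g ∈ SubB n ↔ g ∈ SubB n := by
  change ((∀ i, n ≤ i → Multiplicative.toAdd (ph n g.left) i = 0) ∧ ∀ i, n ≤ i → piB g.right i = i) ↔
    ((∀ i, n ≤ i → Multiplicative.toAdd g.left i = 0) ∧ ∀ i, n ≤ i → piB g.right i = i)
  refine and_congr_left fun _ => ⟨fun h i hi => ?_, fun h i hi => ?_⟩
  · have := h _ (swap_ge hi)
    rwa [ph_apply, Equiv.swap_apply_self] at this
  · rw [ph_apply]
    exact h _ (swap_ge hi)

private theorem vec_ta {n : ℕ} {p : (grpTr GB).El} (hp : Supp (SubB n : Set GB) p) (g : GB) :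
    vec p (ta n g) = vec p g := by
  rw [supp_iff] at hp
  by_cases hg : g ∈ SubB n
  · have : ta n g = g := SemidirectProduct.ext (ph_eq_self hg.1) rfl
    rw [this]
  · rw [hp g hg, hp _ (fun h => hg (ta_mem.1 h))]

private theorem comm_ph {n : ℕ} {γ : FreeGroup ℕ} (h : ∀ i, n ≤ i → piB γ i = i)
    (x : Multiplicative (ℕ →₀ ℤ)) : phiB γ (ph n x) = ph n (phiB γ x) := by
  apply Multiplicative.toAdd.injective
  ext i
  rw [phiB_apply, ph_apply, ph_apply, phiB_apply]
  congr 1
  have h' : ∀ i, n ≤ i → (piB γ)⁻¹ i = i := fun i hi => by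
    rw [Equiv.Perm.inv_eq_iff_eq, h i hi]
  by_cases hi : n ≤ i
  · rw [h' i hi, h' _ (swap_ge hi)]
  · have h1 : (piB γ)⁻¹ i < n := by
      by_contra hc
      have h2 := h _ (not_lt.1 hc)
      have h3 : piB γ ((piB γ)⁻¹ i) = i := (piB γ).apply_symm_apply i
      omega
    rw [swap_lt h1, swap_lt (by omega)]

private theorem conj_inl (n : ℕ) (ν : Multiplicative (ℕ →₀ ℤ)) :
    aB (n + 2) * SemidirectProduct.inl ν * (aB (n + 2))⁻¹ = (SemidirectProduct.inl (ph n ν) : GB) := by
  refine SemidirectProduct.ext ?_ ?_ <;> simp [aB, ph]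

private theorem lemA (n : ℕ) (g : GB) (ν : Multiplicative (ℕ →₀ ℤ)) :
    (SemidirectProduct.inl (ph n ν) : GB)⁻¹ * g =
      ta n ((SemidirectProduct.inl ν : GB)⁻¹ * (ta n).symm g) := by
  refine SemidirectProduct.ext ?_ ?_
  · have h : (ta n ((SemidirectProduct.inl ν : GB)⁻¹ * (ta n).symm g)).left =
        ph n (ν⁻¹ * (ph n).symm g.left) := by
      simp [ta]
    rw [h, map_mul, MulEquiv.apply_symm_apply, map_inv]
    simp
  · simp [ta]

private theorem lemB (n : ℕ) (g : GB) (ν : Multiplicative (ℕ →₀ ℤ))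
    (hc : ∀ x, phiB g.right (ph n x) = ph n (phiB g.right x)) :
    g * (SemidirectProduct.inl (ph n ν) : GB)⁻¹ =
      ta n ((ta n).symm g * (SemidirectProduct.inl ν : GB)⁻¹) := by
  refine SemidirectProduct.ext ?_ ?_
  · have h : (ta n ((ta n).symm g * (SemidirectProduct.inl ν : GB)⁻¹)).left =
        ph n ((ph n).symm g.left * phiB g.right ν⁻¹) := by
      simp [ta]
    rw [h, map_mul, MulEquiv.apply_symm_apply, ← hc, map_inv (ph n)]
    simp
  · simp [ta]

private theorem vec_conj (a h : GB) (d : (grpTr GB).El) :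
    vec (lam a * d * star (lam a)) h = vec d (a⁻¹ * h * a) := by
  rw [star_lam, vec_mul_lam, rhoOp_apply, vec_lam_mul, lamOp_apply, inv_inv, ← mul_assoc]

private theorem termA (n : ℕ) (d p : (grpTr GB).El) (hd : Supp (LamB : Set GB) d)
    (hp : Supp (SubB n : Set GB) p) (g h : GB) :
    vec (lam (aB (n + 2)) * d * star (lam (aB (n + 2)))) (aB (n + 2) * h * (aB (n + 2))⁻¹) *
      vec p ((aB (n + 2) * h * (aB (n + 2))⁻¹)⁻¹ * g) =
      vec d h * vec p (h⁻¹ * (ta n).symm g) := by
  have e0 : (aB (n + 2))⁻¹ * (aB (n + 2) * h * (aB (n + 2))⁻¹) * aB (n + 2) = h := by group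
  rw [vec_conj, e0]
  by_cases hh : h ∈ LamB
  · obtain ⟨ν, rfl⟩ : ∃ ν, h = SemidirectProduct.inl ν := ⟨h.left, SemidirectProduct.ext rfl hh⟩
    rw [conj_inl, lemA, vec_ta hp]
  · rw [supp_iff.1 hd h hh, zero_mul, zero_mul]

private theorem termB (n : ℕ) (d p : (grpTr GB).El) (hd : Supp (LamB : Set GB) d)
    (hp : Supp (SubB n : Set GB) p) (g h : GB) :
    vec p (g * (aB (n + 2) * h * (aB (n + 2))⁻¹)⁻¹) *
      vec (lam (aB (n + 2)) * d * star (lam (aB (n + 2)))) (aB (n + 2) * h * (aB (n + 2))⁻¹) =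
      vec p ((ta n).symm g * h⁻¹) * vec d h := by
  have e0 : (aB (n + 2))⁻¹ * (aB (n + 2) * h * (aB (n + 2))⁻¹) * aB (n + 2) = h := by group
  rw [vec_conj, e0]
  by_cases hh : h ∈ LamB
  · obtain ⟨ν, rfl⟩ : ∃ ν, h = SemidirectProduct.inl ν := ⟨h.left, SemidirectProduct.ext rfl hh⟩
    rw [conj_inl]
    by_cases hg : ∀ i, n ≤ i → piB g.right i = i
    · rw [lemB n g ν (fun x => comm_ph hg x), vec_ta hp]
    · rw [supp_iff.1 hp, supp_iff.1 hp]
      · intro hc
        apply hg
        have h3 := hc.2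
        have h4 : ((ta n).symm g * (SemidirectProduct.inl ν : GB)⁻¹).right = g.right := by
          simp [ta]
        rwa [h4] at h3
      · intro hc
        apply hg
        have h3 := hc.2
        have h4 : (g * (SemidirectProduct.inl (ph n ν) : GB)⁻¹).right = g.right := by
          simp
        rwa [h4] at h3
  · rw [supp_iff.1 hd h hh, mul_zero, mul_zero]

theorem n2_conj_comm (n : ℕ) (d p : (grpTr GB).El) (hd : Supp (LamB : Set GB) d)
    (hp : Supp (SubB n : Set GB) p) :
    n2 (lam (aB (n + 2)) * d * star (lam (aB (n + 2))) * p -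
      p * (lam (aB (n + 2)) * d * star (lam (aB (n + 2))))) = n2 (d * p - p * d) := by
  have key : vec (lam (aB (n + 2)) * d * star (lam (aB (n + 2))) * p -
      p * (lam (aB (n + 2)) * d * star (lam (aB (n + 2))))) = perm (ta n) (vec (d * p - p * d)) := by
    ext g
    rw [perm_apply, vec_sub, vec_sub]
    change vec (lam (aB (n + 2)) * d * star (lam (aB (n + 2))) * p) g -
      vec (p * (lam (aB (n + 2)) * d * star (lam (aB (n + 2))))) g =
      vec (d * p) ((ta n).symm g) - vec (p * d) ((ta n).symm g)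
    have h1 := hasSum_vec_mul' (lam (aB (n + 2)) * d * star (lam (aB (n + 2)))) p g
    have h2 := hasSum_vec_mul' d p ((ta n).symm g)
    have h3 := hasSum_vec_mul p (lam (aB (n + 2)) * d * star (lam (aB (n + 2)))) g
    have h4 := hasSum_vec_mul p d ((ta n).symm g)
    rw [← (MulAut.conj (aB (n + 2))).toEquiv.hasSum_iff] at h1 h3
    have h5 : (fun h : GB => vec d h * vec p (h⁻¹ * (ta n).symm g)) =
        (fun h : GB => vec (lam (aB (n + 2)) * d * star (lam (aB (n + 2)))) h *
          vec p (h⁻¹ * g)) ∘ (MulAut.conj (aB (n + 2))).toEquiv := by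
      funext h
      exact (termA n d p hd hp g h).symm
    have h6 : (fun h : GB => vec p ((ta n).symm g * h⁻¹) * vec d h) =
        (fun h : GB => vec p (g * h⁻¹) *
          vec (lam (aB (n + 2)) * d * star (lam (aB (n + 2)))) h) ∘
            (MulAut.conj (aB (n + 2))).toEquiv := by
      funext h
      exact (termB n d p hd hp g h).symm
    rw [h5] at h2
    rw [h6] at h4
    rw [h1.unique h2, h3.unique h4]
  rw [n2, n2, norm2_eq, norm2_eq, key, norm_perm]

end MPc72427
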