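import Pool.Agent.Work.MP_c72427_an.U.P
import Pool.Agent.Work.MP_c72427_an.U.Mul
import Pool.Agent.Work.MP_c72427_an.U.Sup

set_option autoImplicit false

/-!
# MP_c72427_an, module CommSup

Elements supported on commuting subgroups commute.

PROOF. `vec_lam_mul_star`: `vec (lam c * x) h = vec x (c⁻¹ * h)` (`lamOp_apply`) and `vec (x * lam c) h = vec x (h * c⁻¹)`
(`vec_mul_lam`, `rhoOp_apply`). `commute_lam`: by `vec_injective` compare the coordinates: `vec x (c⁻¹ * h) = vec x (h * c⁻¹)`. If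
`c⁻¹ * h ∈ K` then it commutes with `c`, so `h * c⁻¹ = c * (c⁻¹ * h) * c⁻¹ = c⁻¹ * h`; symmetric if `h * c⁻¹ ∈ K`; if neither is in `K`
both sides are zero (`supp_iff`).
`commute_supp`: coordinates `g`: by `hasSum_vec_mul` for `x * y`: the terms `vec x (g * h⁻¹) * vec y h`; by `hasSum_vec_mul'` for
`y * x`: the terms `vec y h * vec x (h⁻¹ * g)`. Term by term equal: if `h ∉ C` then `vec y h = 0`; if `h ∈ C` then
`vec x (g * h⁻¹) = vec x (h⁻¹ * g)` as above (with `c = h`). `HasSum.unique`.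
-/

namespace MPc72427

open Filter Topology
open scoped InnerProductSpace

variable {G : Type} [Group G]

theorem vec_lam_mul_apply (x : (grpTr G).El) (c h : G) : vec (lam c * x) h = vec x (c⁻¹ * h) := by
  rw [vec_lam_mul, lamOp_apply]

theorem vec_mul_lam_apply (x : (grpTr G).El) (c h : G) : vec (x * lam c) h = vec x (h * c⁻¹) := by
  rw [vec_mul_lam, rhoOp_apply]

private theorem coef_comm {K : Subgroup G} {x : (grpTr G).El} (hx : Supp (K : Set G) x) {c : G}
    (hc : ∀ k ∈ K, k * c = c * k) (h : G) : vec x (c⁻¹ * h) = vec x (h * c⁻¹) := by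
  rw [supp_iff] at hx
  by_cases h1 : c⁻¹ * h ∈ K
  · have h2 := hc _ h1
    have h4 : c⁻¹ * h = h * c⁻¹ := by
      calc c⁻¹ * h = (c⁻¹ * h) * c * c⁻¹ := by group
        _ = c * (c⁻¹ * h) * c⁻¹ := by rw [h2]
        _ = h * c⁻¹ := by group
    rw [h4]
  · by_cases h3 : h * c⁻¹ ∈ K
    · have h2 := hc _ h3
      have h4 : c⁻¹ * h = h * c⁻¹ := by
        calc c⁻¹ * h = c⁻¹ * ((h * c⁻¹) * c) := by group
          _ = c⁻¹ * (c * (h * c⁻¹)) := by rw [h2]
          _ = h * c⁻¹ := by group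
      rw [h4]
    · rw [hx _ h1, hx _ h3]

theorem commute_lam {K : Subgroup G} {x : (grpTr G).El} (hx : Supp (K : Set G) x) {c : G}
    (hc : ∀ k ∈ K, k * c = c * k) : lam c * x = x * lam c := by
  refine vec_injective ?_
  ext h
  rw [vec_lam_mul_apply, vec_mul_lam_apply]
  exact coef_comm hx hc h

theorem commute_supp {K C : Subgroup G} (h : ∀ k ∈ K, ∀ c ∈ C, k * c = c * k)
    {x y : (grpTr G).El} (hx : Supp (K : Set G) x) (hy : Supp (C : Set G) y) : x * y = y * x := by
  refine vec_injective ?_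
  ext g
  have h1 := hasSum_vec_mul x y g
  have h2 := hasSum_vec_mul' y x g
  have h3 : (fun h : G => vec x (g * h⁻¹) * vec y h) = fun h : G => vec y h * vec x (h⁻¹ * g) := by
    funext c
    by_cases hc : c ∈ C
    · rw [coef_comm hx (fun k hk => h k hk c hc) g, mul_comm]
    · rw [(supp_iff.1 hy) c hc, mul_zero, zero_mul]
  rw [h3] at h1
  exact h1.unique h2

end MPc72427
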