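import Pool.Agent.Work.MP_c72427_an.U.P
import Pool.Agent.Work.MP_c72427_an.U.CommSup

set_option autoImplicit false

/-!
# MP_c72427_an, module Est

Commutator estimates for commuting subgroups.

PROOF. `est_SC`: `z₁`, `w₁` from `exists_exp` for `(C, z)` and `(S, w)`. `z₁ w₁ = w₁ z₁` (`commute_supp`). So
`z w - w z = ((z - z₁) w - w (z - z₁)) + (z₁ (w - w₁) - (w - w₁) z₁)`, and `norm2_mul_le`, `norm2_mul_le'`, `norm2_add_le`,
`norm2_sub_le`: `≤ 2 ‖w‖ ‖z - z₁‖₂ + 2 ‖z₁‖ ‖w - w₁‖₂`, `‖z₁‖ ≤ ‖z‖`.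
`est_lam`: `v₁` from `exists_exp` for `C, v`; `lam s * v₁ = v₁ * lam s` by `commute_lam`; `nop (lam s) ≤ 1` (`opNorm_lam_le`).
-/

namespace MPc72427

open Filter Topology
open scoped InnerProductSpace

variable {G : Type} [Group G]

/-- The commutator is bounded by the operator norm of one factor and the 2-norm of the other. -/
theorem n2_comm_le (a b : (grpTr G).El) : n2 (a * b - b * a) ≤ 2 * nop b * n2 a := by
  have h1 := (grpTr G).norm2_sub_le (a * b) (b * a)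
  have h2 := (grpTr G).norm2_mul_le' a b
  have h3 := (grpTr G).norm2_mul_le b a
  have e1 : n2 (a * b - b * a) = (grpTr G).norm2 (a * b - b * a) := rfl
  have e2 : n2 a = (grpTr G).norm2 a := rfl
  have e3 : nop b = (grpTr G).opNorm b := rfl
  rw [e1, e2, e3]
  linarith

theorem est_SC {S C : Subgroup G} (h : ∀ s ∈ S, ∀ c ∈ C, s * c = c * s) (z w : (grpTr G).El) :
    n2 (z * w - w * z) ≤ 2 * nop w * ‖rst (C : Set G)ᶜ (vec z)‖ +
      2 * nop z * ‖rst (S : Set G)ᶜ (vec w)‖ := by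
  obtain ⟨z₁, hz1, hz2, -, hz4⟩ := exists_exp C z
  obtain ⟨w₁, hw1, -, -, hw4⟩ := exists_exp S w
  have hc : w₁ * z₁ = z₁ * w₁ := commute_supp h hw1 hz1
  have hdec : z * w - w * z = ((z - z₁) * w - w * (z - z₁)) -
      ((w - w₁) * z₁ - z₁ * (w - w₁)) := by
    have : ((z - z₁) * w - w * (z - z₁)) - ((w - w₁) * z₁ - z₁ * (w - w₁)) =
        z * w - w * z + (w₁ * z₁ - z₁ * w₁) := by noncomm_ring
    rw [this, hc, sub_self, add_zero]
  have h1 : n2 (z * w - w * z) ≤ n2 ((z - z₁) * w - w * (z - z₁)) +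
      n2 ((w - w₁) * z₁ - z₁ * (w - w₁)) := by
    rw [hdec]
    exact (grpTr G).norm2_sub_le _ _
  have h2 := n2_comm_le (z - z₁) w
  have h3 := n2_comm_le (w - w₁) z₁
  rw [hz4] at h2
  rw [hw4] at h3
  have h4 : 2 * nop z₁ * ‖rst (S : Set G)ᶜ (vec w)‖ ≤ 2 * nop z * ‖rst (S : Set G)ᶜ (vec w)‖ :=
    mul_le_mul_of_nonneg_right (by linarith) (norm_nonneg _)
  linarith

theorem est_lam {C : Subgroup G} {s : G} (h : ∀ c ∈ C, s * c = c * s) (v : (grpTr G).El) :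
    n2 (lam s * v - v * lam s) ≤ 2 * ‖rst (C : Set G)ᶜ (vec v)‖ := by
  obtain ⟨v₁, hv1, -, -, hv4⟩ := exists_exp C v
  have hc : lam s * v₁ = v₁ * lam s := commute_lam hv1 (fun k hk => (h k hk).symm)
  have hdec : lam s * v - v * lam s = -((v - v₁) * lam s - lam s * (v - v₁)) := by
    have : -((v - v₁) * lam s - lam s * (v - v₁)) =
        lam s * v - v * lam s - (lam s * v₁ - v₁ * lam s) := by noncomm_ring
    rw [this, hc, sub_self, sub_zero]
  have h1 : n2 (lam s * v - v * lam s) = n2 ((v - v₁) * lam s - lam s * (v - v₁)) := by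
    rw [hdec]
    exact (grpTr G).norm2_neg _
  have h2 := n2_comm_le (v - v₁) (lam s)
  rw [hv4] at h2
  have h3 : nop (lam s) ≤ 1 := opNorm_lam_le s
  have h4 : 2 * nop (lam s) * ‖rst (C : Set G)ᶜ (vec v)‖ ≤ 2 * ‖rst (C : Set G)ᶜ (vec v)‖ := by
    have := mul_le_mul_of_nonneg_right h3 (norm_nonneg (rst (C : Set G)ᶜ (vec v)))
    linarith
  rw [h1]
  linarith

end MPc72427
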