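import Pool.Agent.Work.MP_c72427_an.U.P
import Pool.Agent.Work.MP_c72427_an.U.Est

set_option autoImplicit false

/-!
# MP_c72427_an, module CSC

Central sequences commute if there is a spectral gap over a commutative subgroup.

PROOF. `x n`, `y n` central bounded by `C`. By `hgap` and centrality (with `a = lam t₁`, `lam t₂`; `norm2_neg` to reverse the commutator)
`‖rst Sᶜ (vec (x n))‖ → 0` and `‖rst Sᶜ (vec (y n))‖ → 0`. `est_SC` with both subgroups equal to `S` (`hS`).
-/

namespace MPc72427

open Filter Topology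
open scoped InnerProductSpace

variable {G : Type} [Group G]

theorem csc_of (S : Subgroup G) (hS : ∀ a ∈ S, ∀ b ∈ S, a * b = b * a) (t₁ t₂ : G)
    (hgap : ∀ x : (grpTr G).El, ‖rst (S : Set G)ᶜ (vec x)‖ ≤
      10 * max (n2 (lam t₁ * x - x * lam t₁)) (n2 (lam t₂ * x - x * lam t₂))) :
    (grpTr G).CentralSequencesCommute := by
  rintro x y ⟨C, hC⟩ hx hy
  have hC0 : 0 ≤ C := ((grpTr G).opNorm_nonneg (x 0)).trans (hC 0).1
  have hneg : ∀ a b : (grpTr G).El, n2 (a - b) = n2 (b - a) := by
    intro a b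
    have h := (grpTr G).norm2_neg (b - a)
    rw [neg_sub] at h
    exact h
  have key : ∀ z : ℕ → (grpTr G).El,
      (∀ a : (grpTr G).El, Tendsto (fun n => (grpTr G).norm2 (z n * a - a * z n)) atTop (𝓝 0)) →
      Tendsto (fun n => ‖rst (S : Set G)ᶜ (vec (z n))‖) atTop (𝓝 0) := by
    intro z hz
    have h1 := hz (lam t₁)
    have h2 := hz (lam t₂)
    have h3 : Tendsto (fun n => 10 * max ((grpTr G).norm2 (z n * lam t₁ - lam t₁ * z n))
        ((grpTr G).norm2 (z n * lam t₂ - lam t₂ * z n))) atTop (𝓝 0) := by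
      simpa using (h1.max h2).const_mul 10
    refine squeeze_zero (fun n => norm_nonneg _) (fun n => ?_) h3
    have h4 := hgap (z n)
    rwa [hneg (lam t₁ * z n), hneg (lam t₂ * z n)] at h4
  have hx' := key x hx
  have hy' := key y hy
  have h5 : Tendsto (fun n => 2 * C * ‖rst (S : Set G)ᶜ (vec (x n))‖ +
      2 * C * ‖rst (S : Set G)ᶜ (vec (y n))‖) atTop (𝓝 0) := by
    simpa using (hx'.const_mul (2 * C)).add (hy'.const_mul (2 * C))
  refine squeeze_zero (fun n => (grpTr G).norm2_nonneg _) (fun n => ?_) h5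
  refine (est_SC (S := S) (C := S) hS (x n) (y n)).trans (add_le_add ?_ ?_)
  · exact mul_le_mul_of_nonneg_right (mul_le_mul_of_nonneg_left (hC n).2 (by norm_num))
      (norm_nonneg _)
  · exact mul_le_mul_of_nonneg_right (mul_le_mul_of_nonneg_left (hC n).1 (by norm_num))
      (norm_nonneg _)

end MPc72427
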