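import Pool.Agent.Work.MP_c72427_an.U.P

set_option autoImplicit false

/-!
# MP_c72427_an, module ComL

The commutator with an element of the group.

PROOF. `norm2_eq`: the left side is `‖lamOp t ξ - rhoOp t⁻¹ ξ‖` with `ξ = vec x` (`vec_lam_mul`, `vec_mul_lam`). Apply the isometry
`rhoOp t` (`norm_perm`; `rhoOp t (rhoOp t⁻¹ ξ) = ξ`): it is `‖rhoOp t (lamOp t ξ) - ξ‖`, and
`rhoOp t (lamOp t ξ) = perm (MulAut.conj t).toEquiv ξ` (coordinate `g`: `ξ (t⁻¹ * (g * t))` both sides). `norm_sub_rev`.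
-/

namespace MPc72427

open Filter Topology
open scoped InnerProductSpace

variable {G : Type} [Group G]

theorem n2_comm_lam (t : G) (x : (grpTr G).El) :
    n2 (lam t * x - x * lam t) = ‖vec x - perm (MulAut.conj t).toEquiv (vec x)‖ := by
  have h1 : n2 (lam t * x - x * lam t) = ‖lamOp t (vec x) - rhoOp t⁻¹ (vec x)‖ := by
    change (grpTr G).norm2 _ = _
    rw [norm2_eq, vec_sub, vec_lam_mul, vec_mul_lam]
  have h2 : rhoOp t (rhoOp t⁻¹ (vec x)) = vec x := by
    rw [← mul_app, ← rhoOp_mul, mul_inv_cancel, rhoOp_one]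
    rfl
  have h3 : rhoOp t (lamOp t (vec x)) = perm (MulAut.conj t).toEquiv (vec x) := by
    ext g
    rw [rhoOp_apply, lamOp_apply, perm_apply]
    change vec x (t⁻¹ * (g * t)) = vec x ((MulAut.conj t).symm g)
    rw [MulAut.conj_symm_apply, mul_assoc]
  have h4 : ‖rhoOp t (lamOp t (vec x) - rhoOp t⁻¹ (vec x))‖ =
      ‖lamOp t (vec x) - rhoOp t⁻¹ (vec x)‖ := norm_perm _ _
  rw [h1, ← h4, map_sub, h2, h3, norm_sub_rev]

end MPc72427
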