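import Pool.Agent.Work.MP_c72427_an.U.P

set_option autoImplicit false

/-!
# MP_c72427_an, module Gap

The `14 ε` lemma of Murray and von Neumann, for two permutations of a set.

PROOF. `a = ‖rst F ξ‖`, `s = ‖rst Y ξ‖`, `ε = max ...`, `ξ₁ = perm σ₁ ξ`, `ξ₂ = perm σ₂ ξ`.
(1) `norm_rst_perm`: `‖rst F ξ₁‖ = ‖rst (σ₁ ⁻¹' F) ξ‖`, so `‖rst (σ₁ ⁻¹' F) ξ‖ ≤ a + ε` (`rst F` is linear of norm `≤ 1`).
By `h1` `Y ⊆ F ∪ σ₁ ⁻¹' F`, so `s² ≤ a² + (a + ε)²` (`norm_rst_sq`, indicators, or: `rst Y ξ` splits into the part in `F`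
and the part in `Y \ F ⊆ σ₁ ⁻¹' F`, `norm_sq_eq` for `rst Y ξ` and the set `F`, `norm_rst_mono`).
(2) With `F₂ = σ₂ '' F = σ₂.symm ⁻¹' F`: `‖rst F₂ ξ₂‖ = a`, so `‖rst F₂ ξ‖ ≥ a - ε`. With `F₃ = σ₂ ⁻¹' F`:
`‖rst F ξ₂‖ = ‖rst F₃ ξ‖`, so `‖rst F₃ ξ‖ ≥ a - ε`. `F, F₂, F₃` are disjoint subsets of `Y` (`h2`, `h3`, `h4`), so
`s² ≥ a² + 2 (a - ε)²` if `a ≥ ε` (sum of three indicators `≤` indicator of `Y`, or `norm_sq_eq` twice).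
(3) If `a ≤ 6 ε` then `s² ≤ 36 ε² + 49 ε² ≤ 100 ε²`. If `a > 6 ε` then `2 (a - ε)² ≤ (a + ε)²` is impossible
(`2 (a-ε)² - (a+ε)² = a² - 6aε + ε² > 0`).
-/

namespace MPc72427

open Filter Topology
open scoped InnerProductSpace

/-- The square of the norm of the restriction to a subset of a union. -/
private theorem gap_union {X : Type} {S A B : Set X} (h : ∀ x ∈ S, x ∈ A ∨ x ∈ B) (f : L2 X) :
    ‖rst S f‖ ^ 2 ≤ ‖rst A f‖ ^ 2 + ‖rst B f‖ ^ 2 := by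
  have hs := L2.summable_sq f
  rw [norm_rst_sq, norm_rst_sq, norm_rst_sq,
    ← Summable.tsum_add (hs.indicator A) (hs.indicator B)]
  refine Summable.tsum_le_tsum (fun x => ?_) (hs.indicator S)
    ((hs.indicator A).add (hs.indicator B))
  have h0 : (0 : ℝ) ≤ ‖f x‖ ^ 2 := by positivity
  have hA : (0 : ℝ) ≤ A.indicator (fun x => ‖f x‖ ^ 2) x := Set.indicator_apply_nonneg fun _ => h0
  have hB : (0 : ℝ) ≤ B.indicator (fun x => ‖f x‖ ^ 2) x := Set.indicator_apply_nonneg fun _ => h0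
  by_cases hx : x ∈ S
  · rw [Set.indicator_of_mem hx]
    rcases h x hx with h1 | h1
    · rw [Set.indicator_of_mem h1]
      linarith
    · rw [Set.indicator_of_mem h1]
      linarith
  · rw [Set.indicator_of_notMem hx]
    linarith

/-- Three disjoint subsets. -/
private theorem gap_three {X : Type} {Y A B C : Set X} (hA : A ⊆ Y) (hB : B ⊆ Y) (hC : C ⊆ Y)
    (hAB : ∀ x ∈ A, x ∉ B) (hAC : ∀ x ∈ A, x ∉ C) (hBC : ∀ x ∈ B, x ∉ C) (f : L2 X) :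
    ‖rst A f‖ ^ 2 + ‖rst B f‖ ^ 2 + ‖rst C f‖ ^ 2 ≤ ‖rst Y f‖ ^ 2 := by
  have hs := L2.summable_sq f
  rw [norm_rst_sq, norm_rst_sq, norm_rst_sq, norm_rst_sq,
    ← Summable.tsum_add (hs.indicator A) (hs.indicator B),
    ← Summable.tsum_add ((hs.indicator A).add (hs.indicator B)) (hs.indicator C)]
  refine Summable.tsum_le_tsum (fun x => ?_)
    (((hs.indicator A).add (hs.indicator B)).add (hs.indicator C)) (hs.indicator Y)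
  have h0 : (0 : ℝ) ≤ ‖f x‖ ^ 2 := by positivity
  have hY : (0 : ℝ) ≤ Y.indicator (fun x => ‖f x‖ ^ 2) x := Set.indicator_apply_nonneg fun _ => h0
  by_cases h1 : x ∈ A
  · rw [Set.indicator_of_mem h1, Set.indicator_of_notMem (hAB x h1),
      Set.indicator_of_notMem (hAC x h1), Set.indicator_of_mem (hA h1)]
    linarith
  · by_cases h2 : x ∈ B
    · rw [Set.indicator_of_notMem h1, Set.indicator_of_mem h2,
        Set.indicator_of_notMem (hBC x h2), Set.indicator_of_mem (hB h2)]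
      linarith
    · by_cases h3 : x ∈ C
      · rw [Set.indicator_of_notMem h1, Set.indicator_of_notMem h2,
          Set.indicator_of_mem h3, Set.indicator_of_mem (hC h3)]
        linarith
      · rw [Set.indicator_of_notMem h1, Set.indicator_of_notMem h2,
          Set.indicator_of_notMem h3]
        linarith

private theorem gap_diff {X : Type} (S : Set X) (f g : L2 X) :
    ‖rst S g‖ ≤ ‖rst S f‖ + ‖f - g‖ := by
  have h1 : rst S g = rst S f - rst S (f - g) := by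
    rw [← map_sub, sub_sub_cancel]
  rw [h1]
  refine (norm_sub_le _ _).trans ?_
  have h2 := norm_rst_le S (f - g)
  linarith

theorem gap {X : Type} (σ₁ σ₂ : Equiv.Perm X) (F Y : Set X) (hFY : F ⊆ Y)
    (h1 : ∀ x ∈ Y, x ∉ F → σ₁ x ∈ F)
    (h2 : ∀ x ∈ F, σ₂ x ∈ Y ∧ σ₂ x ∉ F)
    (h3 : ∀ x ∈ F, σ₂.symm x ∈ Y ∧ σ₂.symm x ∉ F)
    (h4 : ∀ x ∈ F, ∀ y ∈ F, σ₂ x ≠ σ₂.symm y) (ξ : L2 X) :
    ‖rst Y ξ‖ ≤ 10 * max ‖ξ - perm σ₁ ξ‖ ‖ξ - perm σ₂ ξ‖ := by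
  obtain ⟨ε, hε⟩ : ∃ ε, ε = max ‖ξ - perm σ₁ ξ‖ ‖ξ - perm σ₂ ξ‖ := ⟨_, rfl⟩
  rw [← hε]
  have e1 : ‖ξ - perm σ₁ ξ‖ ≤ ε := hε ▸ le_max_left _ _
  have e2 : ‖ξ - perm σ₂ ξ‖ ≤ ε := hε ▸ le_max_right _ _
  have e0 : 0 ≤ ε := (norm_nonneg _).trans e1
  have a1 : ‖rst (σ₁ ⁻¹' F) ξ‖ ≤ ‖rst F ξ‖ + ε := by
    rw [← norm_rst_perm]
    exact (gap_diff F ξ (perm σ₁ ξ)).trans (by linarith)
  have a2 : ‖rst F ξ‖ - ε ≤ ‖rst (σ₂.symm ⁻¹' F) ξ‖ := by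
    have h5 : ‖rst (σ₂.symm ⁻¹' F) (perm σ₂ ξ)‖ = ‖rst F ξ‖ := by
      rw [norm_rst_perm]
      congr 2
      ext x
      simp
    have h6 := gap_diff (σ₂.symm ⁻¹' F) ξ (perm σ₂ ξ)
    linarith
  have a3 : ‖rst F ξ‖ - ε ≤ ‖rst (σ₂ ⁻¹' F) ξ‖ := by
    rw [← norm_rst_perm]
    have h6 := gap_diff F (perm σ₂ ξ) ξ
    rw [norm_sub_rev] at h6
    linarith
  have b1 : ‖rst Y ξ‖ ^ 2 ≤ ‖rst F ξ‖ ^ 2 + ‖rst (σ₁ ⁻¹' F) ξ‖ ^ 2 := by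
    refine gap_union (fun x hx => ?_) ξ
    by_cases hF : x ∈ F
    · exact Or.inl hF
    · exact Or.inr (h1 x hx hF)
  have b2 : ‖rst F ξ‖ ^ 2 + ‖rst (σ₂.symm ⁻¹' F) ξ‖ ^ 2 + ‖rst (σ₂ ⁻¹' F) ξ‖ ^ 2 ≤
      ‖rst Y ξ‖ ^ 2 := by
    refine gap_three hFY (fun x hx => ?_) (fun x hx => ?_) (fun x hx hx' => ?_)
      (fun x hx hx' => ?_) (fun x hx hx' => ?_) ξ
    · have := (h2 _ hx).1
      rwa [Equiv.apply_symm_apply] at this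
    · have := (h3 _ hx).1
      rwa [Equiv.symm_apply_apply] at this
    · have := (h2 _ hx').2
      rw [Equiv.apply_symm_apply] at this
      exact this hx
    · have := (h3 _ hx').2
      rw [Equiv.symm_apply_apply] at this
      exact this hx
    · refine h4 _ hx _ hx' ?_
      rw [Equiv.apply_symm_apply, Equiv.symm_apply_apply]
  have n0 := norm_nonneg (rst F ξ)
  have n1 := norm_nonneg (rst (σ₁ ⁻¹' F) ξ)
  have n2 := norm_nonneg (rst Y ξ)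
  have c1 : ‖rst (σ₁ ⁻¹' F) ξ‖ ^ 2 ≤ (‖rst F ξ‖ + ε) ^ 2 := pow_le_pow_left₀ n1 a1 2
  have c0 : ‖rst F ξ‖ ≤ 6 * ε := by
    by_contra hcon
    push Not at hcon
    have d0 : 0 ≤ ‖rst F ξ‖ - ε := by linarith
    have d1 : (‖rst F ξ‖ - ε) ^ 2 ≤ ‖rst (σ₂.symm ⁻¹' F) ξ‖ ^ 2 := pow_le_pow_left₀ d0 a2 2
    have d2 : (‖rst F ξ‖ - ε) ^ 2 ≤ ‖rst (σ₂ ⁻¹' F) ξ‖ ^ 2 := pow_le_pow_left₀ d0 a3 2
    rcases eq_or_lt_of_le e0 with h | h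
    · rw [← h] at hcon d1 d2 c1
      nlinarith
    · nlinarith
  have c2 : ‖rst Y ξ‖ ^ 2 ≤ (10 * ε) ^ 2 := by nlinarith
  exact (sq_le_sq₀ n2 (by positivity)).1 c2

end MPc72427
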