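import Pool.Agent.Work.MP_c72427_an.U.P

set_option autoImplicit false

/-!
# MP_c72427_an, module StartW

Multiplying a reduced word by a letter on both sides.

PROOF. `l = f.toWord`, a reduced list. By `h` the head of `l` is not `(w.1, !w.2)`, so `w :: l` is reduced. `mk [w] * f * mk [v] =
mk (w :: l ++ [v])`. If `l = []` (that is `f = 1`): `v ≠ (w.1, !w.2)` so `[w, v]` is reduced. If `l ≠ []` and its last letter is not
`(v.1, !v.2)`, then `w :: l ++ [v]` is reduced; if it is, `l = l' ++ [(v.1, !v.2)]` and the product is `mk (w :: l')` with `w :: l'`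
reduced (a prefix of `w :: l`). In all cases the reduced word starts with `w`. (Useful: `FreeGroup.toWord_mk`, `FreeGroup.IsReduced`,
`FreeGroup.startsWith_mk_mul`; alternative without lists of three parts: `x = mk [w] * f` is in `startsWith w` by
`FreeGroup.startsWith_mk_mul`; then a lemma: if `x ∈ startsWith w` and `x ≠ mk [w]` or `v ≠ (w.1, !w.2)`, then `x * mk [v] ∈
startsWith w`.)
-/

namespace MPc72427

open Filter Topology
open scoped InnerProductSpace

theorem start_mul_mul {α : Type} [DecidableEq α] (w v : α × Bool) (f : FreeGroup α)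
    (h : f ∉ FreeGroup.startsWith (w.1, !w.2)) (h' : f ≠ 1 ∨ v ≠ (w.1, !w.2)) :
    FreeGroup.mk [w] * f * FreeGroup.mk [v] ∈ FreeGroup.startsWith w := by
  have hx : FreeGroup.mk [w] * f ∈ FreeGroup.startsWith w := FreeGroup.startsWith_mk_mul f h
  set x := FreeGroup.mk [w] * f with hxdef
  have hL : x.toWord[0]? = some w := hx
  have hred : FreeGroup.IsReduced x.toWord := FreeGroup.isReduced_toWord
  have hne : x.toWord ≠ [] := by
    intro h0
    rw [h0] at hL
    simp at hL
  have hxm : x = FreeGroup.mk x.toWord := FreeGroup.mk_toWord.symm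
  by_cases hlast : x.toWord.getLast hne = (v.1, !v.2)
  · have hsplit : x.toWord = x.toWord.dropLast ++ [(v.1, !v.2)] := by
      rw [← hlast]; exact (List.dropLast_append_getLast hne).symm
    have hprod : x * FreeGroup.mk [v] = FreeGroup.mk x.toWord.dropLast := by
      conv_lhs => rw [hxm, hsplit]
      rw [← FreeGroup.mul_mk, mul_assoc]
      have : FreeGroup.mk [(v.1, !v.2)] * FreeGroup.mk [v] = 1 := by
        have h2 : FreeGroup.mk [(v.1, !v.2)] = (FreeGroup.mk [v])⁻¹ := by
          rw [FreeGroup.inv_mk]; rfl
        rw [h2, inv_mul_cancel]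
      rw [this, mul_one]
    have hred2 : FreeGroup.IsReduced x.toWord.dropLast := by
      have h5 : FreeGroup.IsReduced (x.toWord.dropLast ++ [(v.1, !v.2)]) := by
        rw [← hsplit]
        exact hred
      exact List.IsChain.left_of_append h5
    show (FreeGroup.toWord (x * FreeGroup.mk [v]))[0]? = some w
    rw [hprod, FreeGroup.toWord_mk, hred2.reduce_eq]
    by_cases hd : x.toWord.dropLast = []
    · exfalso
      rw [hd, List.nil_append] at hsplit
      have hw : w = (v.1, !v.2) := by
        rw [hsplit] at hL
        simpa using hL.symm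
      have hxw : x = FreeGroup.mk [w] := by rw [hxm, hsplit, hw]
      have hf : f = 1 := by
        have : FreeGroup.mk [w] * f = FreeGroup.mk [w] * 1 := by rw [mul_one]; exact hxw
        exact mul_left_cancel this
      rcases h' with h1 | h1
      · exact h1 hf
      · apply h1
        rw [hw]
        simp
    · obtain ⟨a, t, hat⟩ := List.exists_cons_of_ne_nil hd
      rw [hsplit, hat] at hL
      rw [hat]
      simpa using hL
  · have hred3 : FreeGroup.IsReduced (x.toWord ++ [v]) := by
      rw [FreeGroup.IsReduced, List.isChain_append]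
      refine ⟨hred, List.isChain_singleton _, ?_⟩
      intro a ha b hb hab
      have hb' : b = v := by simpa using hb.symm
      have ha' : x.toWord.getLast hne = a := by
        rw [List.getLast?_eq_some_getLast hne] at ha
        simpa using ha
      subst hb'
      by_contra hcon
      apply hlast
      rw [ha']
      refine Prod.ext hab ?_
      show a.2 = !b.2
      cases h1 : a.2 <;> cases h2 : b.2 <;> first | rfl | (exfalso; apply hcon; rw [h1, h2])
    show (FreeGroup.toWord (x * FreeGroup.mk [v]))[0]? = some w
    have hprod : x * FreeGroup.mk [v] = FreeGroup.mk (x.toWord ++ [v]) := by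
      conv_lhs => rw [hxm]
      rw [FreeGroup.mul_mk]
    rw [hprod, FreeGroup.toWord_mk, hred3.reduce_eq]
    obtain ⟨a, t, hat⟩ := List.exists_cons_of_ne_nil hne
    rw [hat] at hL ⊢
    simpa using hL

end MPc72427
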