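import Pool.Agent.Work.MP_c72427_an.U.P
import Pool.Agent.Work.MP_c72427_an.U.Gap
import Pool.Agent.Work.MP_c72427_an.U.ComL
import Pool.Agent.Work.MP_c72427_an.U.StartW

set_option autoImplicit false

/-!
# MP_c72427_an, module GapB

Spectral gap for the first group.

PROOF. `n2_comm_lam` turns the right side into `max ‖ξ - perm σ₁ ξ‖ ‖ξ - perm σ₂ ξ‖`, `ξ = vec x`, `σ₁ = (MulAut.conj (aB 0)).toEquiv`,
`σ₂ = (MulAut.conj (aB 1)).toEquiv`. Apply `gap` with `Y = LamBᶜ = {g | g.right ≠ 1}` and
`F = {g | g.right ∈ startsWith (0, true) ∨ g.right ∈ startsWith (0, false)}`. `(aB k * g * (aB k)⁻¹).right = of k * g.right * (of k)⁻¹`,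
`of k = mk [(k, true)]`, `(of k)⁻¹ = mk [(k, false)]`. `h1`: `g.right ≠ 1`, `g ∉ F`: `start_mul_mul (0, true) (0, false)` gives
`(σ₁ g).right ∈ startsWith (0, true)`. `h2`: `g ∈ F`: `g.right ∉ startsWith (1, false)` (different letters,
`FreeGroup.startsWith.disjoint_iff_ne`), `g.right ≠ 1`, so `(σ₂ g).right ∈ startsWith (1, true)`, hence `≠ 1` and not in `F`.
`h3`: `σ₂.symm g = (aB 1)⁻¹ * g * aB 1`, `start_mul_mul (1, false) (1, true)`: it is in `startsWith (1, false)`. `h4`: disjointness of
`startsWith (1, true)` and `startsWith (1, false)`.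
-/

namespace MPc72427

open Filter Topology
open scoped InnerProductSpace

private theorem sw_ne {α : Type} [DecidableEq α] {w v : α × Bool} (hwv : w ≠ v) {f : FreeGroup α}
    (h : f ∈ FreeGroup.startsWith w) : f ∉ FreeGroup.startsWith v :=
  fun h' => Set.disjoint_left.1 (FreeGroup.startsWith.disjoint_iff_ne.2 hwv) h h'

private theorem cj (k : ℕ) (g : GB) : ((MulAut.conj (aB k)).toEquiv g).right =
    FreeGroup.mk [(k, true)] * g.right * FreeGroup.mk [(k, false)] := by
  change (aB k * g * (aB k)⁻¹).right = _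
  rw [SemidirectProduct.mul_right, SemidirectProduct.mul_right, SemidirectProduct.inv_right]
  rfl

private theorem cjs (k : ℕ) (g : GB) : ((MulAut.conj (aB k)).toEquiv.symm g).right =
    FreeGroup.mk [(k, false)] * g.right * FreeGroup.mk [(k, true)] := by
  change ((aB k)⁻¹ * g * aB k).right = _
  rw [SemidirectProduct.mul_right, SemidirectProduct.mul_right, SemidirectProduct.inv_right]
  rfl

theorem gapB (x : (grpTr GB).El) :
    ‖rst (LamB : Set GB)ᶜ (vec x)‖ ≤ 10 * max (n2 (lam (aB 0) * x - x * lam (aB 0)))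
      (n2 (lam (aB 1) * x - x * lam (aB 1))) := by
  rw [n2_comm_lam, n2_comm_lam]
  have key : ∀ g : GB, g ∈ {g : GB | g.right ∈ FreeGroup.startsWith (0, true) ∨
      g.right ∈ FreeGroup.startsWith (0, false)} → ∀ b : Bool,
      g.right ∉ FreeGroup.startsWith (1, b) := by
    rintro g (h | h) b
    · exact sw_ne (by simp) h
    · exact sw_ne (by simp) h
  have key2 : ∀ g : GB, ∀ b : Bool, g.right ∈ FreeGroup.startsWith (1, b) →
      g ∈ (LamB : Set GB)ᶜ ∧ g ∉ {g : GB | g.right ∈ FreeGroup.startsWith (0, true) ∨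
        g.right ∈ FreeGroup.startsWith (0, false)} := by
    intro g b h
    refine ⟨fun hg => FreeGroup.startsWith.ne_one _ h hg, fun hF => key g hF b h⟩
  have hne : ∀ g : GB, g ∈ {g : GB | g.right ∈ FreeGroup.startsWith (0, true) ∨
      g.right ∈ FreeGroup.startsWith (0, false)} → g.right ≠ 1 := by
    rintro g (h | h)
    · exact FreeGroup.startsWith.ne_one _ h
    · exact FreeGroup.startsWith.ne_one _ h
  have s2 : ∀ g : GB, g ∈ {g : GB | g.right ∈ FreeGroup.startsWith (0, true) ∨
      g.right ∈ FreeGroup.startsWith (0, false)} →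
      ((MulAut.conj (aB 1)).toEquiv g).right ∈ FreeGroup.startsWith (1, true) := by
    intro g hg
    rw [cj]
    exact start_mul_mul (1, true) (1, false) g.right (key g hg false) (Or.inl (hne g hg))
  have s3 : ∀ g : GB, g ∈ {g : GB | g.right ∈ FreeGroup.startsWith (0, true) ∨
      g.right ∈ FreeGroup.startsWith (0, false)} →
      ((MulAut.conj (aB 1)).toEquiv.symm g).right ∈ FreeGroup.startsWith (1, false) := by
    intro g hg
    rw [cjs]
    exact start_mul_mul (1, false) (1, true) g.right (key g hg true) (Or.inl (hne g hg))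
  refine gap (MulAut.conj (aB 0)).toEquiv (MulAut.conj (aB 1)).toEquiv
    {g : GB | g.right ∈ FreeGroup.startsWith (0, true) ∨
      g.right ∈ FreeGroup.startsWith (0, false)} (LamB : Set GB)ᶜ ?_ ?_ ?_ ?_ ?_ (vec x)
  · intro g h hg
    exact hne g h hg
  · intro g hg hF
    left
    rw [cj]
    exact start_mul_mul (0, true) (0, false) g.right (fun h => hF (Or.inr h)) (Or.inl hg)
  · intro g hg
    exact key2 _ true (s2 g hg)
  · intro g hg
    exact key2 _ false (s3 g hg)
  · intro g hg g' hg' h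
    have h1 := s2 g hg
    rw [h] at h1
    exact sw_ne (by simp) h1 (s3 g' hg')

end MPc72427
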