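import Pool.Agent.Work.MP_c72427_an.U.P
import Pool.Agent.Work.MP_c72427_an.U.GapB
import Pool.Agent.Work.MP_c72427_an.U.CommSup
import Pool.Agent.Work.MP_c72427_an.U.FactB

set_option autoImplicit false

/-!
# MP_c72427_an, module CenB

The centre of the first factor.

PROOF. By `gapB` (both commutators are zero) `vec z g = 0` for `g ∉ LamB`. For all `h, g`: `vec z (h * g * h⁻¹) = vec z g` (from
`lam h * z = z * lam h` and `vec_lam_mul_apply`, `vec_mul_lam_apply`). Claim: `vec z g = 0` for `g ≠ 1`. Let `g ∈ LamB`, `g ≠ 1`, so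
`g.left ≠ 1`; let `N` be the largest element of the support of `toAdd g.left`. Define `g_0 = g`,
`g_(k+1) = aB (N + k + 2) * g_k * (aB (N + k + 2))⁻¹`: the largest element of the support of `g_k` is `N + k` (the swap of `N + k` and
`N + k + 1` moves it), so the `g_k` are pairwise different, and `vec z (g_k) = vec z g`. Since `∑ ‖vec z g‖²` converges
(`L2.summable_sq`), `vec z g = 0`. So `vec z = vec z 1 • e 1 = vec (vec z 1 • 1)`, `vec_injective`.
-/

namespace MPc72427

open Filter Topology
open scoped InnerProductSpace

private theorem cenB_conj {z : (grpTr GB).El} (h : ∀ g : GB, lam g * z = z * lam g) (a g : GB) :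
    vec z (a * g * a⁻¹) = vec z g := by
  have h1 := vec_lam_mul_apply z a (a * g)
  have h2 := vec_mul_lam_apply z a (a * g)
  rw [h a, h2, inv_mul_cancel_left] at h1
  exact h1

private theorem cenB_step (x : GB) (m : ℕ) (hx : x.right = 1)
    (h1 : Multiplicative.toAdd x.left m ≠ 0)
    (h2 : ∀ i, m < i → Multiplicative.toAdd x.left i = 0) :
    (aB (m + 2) * x * (aB (m + 2))⁻¹).right = 1 ∧
      Multiplicative.toAdd (aB (m + 2) * x * (aB (m + 2))⁻¹).left (m + 1) ≠ 0 ∧
      ∀ i, m + 1 < i → Multiplicative.toAdd (aB (m + 2) * x * (aB (m + 2))⁻¹).left i = 0 := by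
  have hr : (aB (m + 2)).right = FreeGroup.of (m + 2) := rfl
  have hl : (aB (m + 2)).left = 1 := rfl
  have hli : ((aB (m + 2))⁻¹).left = 1 := by
    rw [SemidirectProduct.inv_left, hl, inv_one, map_one]
  have hleft : (aB (m + 2) * x * (aB (m + 2))⁻¹).left = phiB (FreeGroup.of (m + 2)) x.left := by
    rw [SemidirectProduct.mul_left, hli, map_one, mul_one, SemidirectProduct.mul_left, hl, one_mul,
      hr]
  have hpi : piB (FreeGroup.of (m + 2)) = Equiv.swap m (m + 1) := by
    rw [piB, FreeGroup.lift_apply_of]
    rfl
  have hval : ∀ i, Multiplicative.toAdd (aB (m + 2) * x * (aB (m + 2))⁻¹).left i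
      = Multiplicative.toAdd x.left (Equiv.swap m (m + 1) i) := by
    intro i
    rw [hleft, phiB_apply, hpi, Equiv.swap_inv]
  refine ⟨?_, ?_, ?_⟩
  · rw [SemidirectProduct.mul_right, SemidirectProduct.mul_right, SemidirectProduct.inv_right, hx,
      mul_one, mul_inv_cancel]
  · rw [hval, Equiv.swap_apply_right]
    exact h1
  · intro i hi
    rw [hval, Equiv.swap_apply_of_ne_of_ne (by omega) (by omega)]
    exact h2 i (by omega)

theorem center_beta (z : (grpTr GB).El) (h : ∀ g : GB, lam g * z = z * lam g) :
    ∃ c : ℂ, z = c • (1 : (grpTr GB).El) := by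
  classical
  have hout : ∀ g : GB, g ∉ LamB → vec z g = 0 := by
    intro g hg
    have h1 := gapB z
    rw [h (aB 0), h (aB 1), sub_self, sub_self] at h1
    have h0 : n2 (0 : (grpTr GB).El) = 0 := (grpTr GB).norm2_zero
    rw [h0, max_self, mul_zero] at h1
    have h2 : rst (LamB : Set GB)ᶜ (vec z) = 0 := norm_eq_zero.1 (le_antisymm h1 (norm_nonneg _))
    have h3 : g ∈ (LamB : Set GB)ᶜ := hg
    rw [← rst_apply_of_mem h3 (vec z), h2]
    rfl
  have hzero : ∀ g : GB, g ≠ 1 → vec z g = 0 := by
    intro g hg1
    by_cases hg : g ∈ LamB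
    · have hr : g.right = 1 := hg
      set x := Multiplicative.toAdd g.left with hx
      have hx0 : x ≠ 0 := by
        intro h0
        refine hg1 (SemidirectProduct.ext ?_ ?_)
        · exact h0
        · exact hr
      have hne : x.support.Nonempty := Finsupp.support_nonempty_iff.2 hx0
      set N := x.support.max' hne with hN
      have hstart : x N ≠ 0 := by
        have := x.support.max'_mem hne
        rwa [Finsupp.mem_support_iff] at this
      have hstart2 : ∀ i, N < i → x i = 0 := by
        intro i hi
        by_contra h0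
        have := x.support.le_max' i (Finsupp.mem_support_iff.2 h0)
        omega
      have hex : ∀ k : ℕ, ∃ y : GB, y.right = 1 ∧ Multiplicative.toAdd y.left (N + k) ≠ 0 ∧
          (∀ i, N + k < i → Multiplicative.toAdd y.left i = 0) ∧ vec z y = vec z g := by
        intro k
        induction k with
        | zero => exact ⟨g, hr, hstart, hstart2, rfl⟩
        | succ k ih =>
          obtain ⟨y, y1, y2, y3, y4⟩ := ih
          obtain ⟨a1, a2, a3⟩ := cenB_step y (N + k) y1 y2 y3
          exact ⟨_, a1, a2, a3, (cenB_conj h _ _).trans y4⟩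
      choose f f1 f2 f3 f4 using hex
      have hinj : Function.Injective f := by
        intro j k hjk
        by_contra hne
        rcases lt_or_gt_of_ne hne with hlt | hlt
        · have := f3 j (N + k) (by omega)
          rw [hjk] at this
          exact f2 k this
        · have := f3 k (N + j) (by omega)
          rw [← hjk] at this
          exact f2 j this
      have hs := (L2.summable_sq (vec z)).comp_injective hinj
      have hc : ((fun x => ‖vec z x‖ ^ 2) ∘ f) = fun _ : ℕ => ‖vec z g‖ ^ 2 := by
        ext k
        simp only [Function.comp, f4]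
      rw [hc] at hs
      have ht := hs.tendsto_atTop_zero
      have := tendsto_nhds_unique ht tendsto_const_nhds
      have h2 : ‖vec z g‖ ^ 2 = 0 := this.symm
      exact norm_eq_zero.1 (pow_eq_zero_iff (by norm_num) |>.1 h2)
    · exact hout g hg
  refine ⟨vec z 1, vec_injective ?_⟩
  have hv : vec (vec z 1 • (1 : (grpTr GB).El)) = vec z 1 • (e 1 : L2 GB) := rfl
  rw [hv]
  ext g
  rw [lp.coeFn_smul, Pi.smul_apply, e_apply]
  by_cases hg : g = 1
  · rw [hg]; simp
  · rw [if_neg hg, hzero g hg, smul_zero]

end MPc72427
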