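import Pool.Agent.Work.MP_c72427_an.U.P

set_option autoImplicit false

/-!
# MP_c72427_an, module FixF

The elements of the free group fixed by a shift of the coordinate `n + 1`.

PROOF. `σ = shiftC (single (n+1) m)`, `σ (j, x) = (j, x + tr j (single (n+1) m))`; `tr j (single (n+1) m) = 0` iff `j ≤ n`
(`tr_apply`, `m ≠ 0`), so `σ ω = ω` iff `ω.1 ≤ n`. `psiC _ f = FreeGroup.map σ f`. `σ` is injective, so the reduced word of
`map σ f` is the reduced word of `f` with `σ` applied to all letters (`FreeGroup.IsReduced` / `Chain'` is preserved by an injective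
map; `FreeGroup.map.mk`, `toWord_mk`). Equality `map σ f = f` gives that every letter `(ω, b)` of `f.toWord` has `σ ω = ω`, so
`ω.1 ≤ n`. Hence `f = mk f.toWord = ∏ (of ω)^{±1}` is in the closure.
-/

namespace MPc72427

open Filter Topology
open scoped InnerProductSpace

/-- The reduced word of the image under an injective map of the letters. -/
private theorem toWord_map {α β : Type} [DecidableEq α] [DecidableEq β] {σ : α → β}
    (hσ : Function.Injective σ) (f : FreeGroup α) :
    (FreeGroup.map σ f).toWord = f.toWord.map (fun x => (σ x.1, x.2)) := by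
  have h1 : FreeGroup.IsReduced (f.toWord.map (fun x => (σ x.1, x.2))) := by
    have h2 : FreeGroup.IsReduced f.toWord := FreeGroup.isReduced_toWord
    unfold FreeGroup.IsReduced at h2 ⊢
    rw [List.isChain_map]
    refine h2.imp fun a b hab h => hab (hσ h)
  conv_lhs => rw [← FreeGroup.mk_toWord (x := f), FreeGroup.map.mk, FreeGroup.toWord_mk]
  exact h1.reduce_eq

private theorem mk_mem {n : ℕ} (L : List (Om × Bool)) (hL : ∀ x ∈ L, x.1.1 ≤ n) :
    FreeGroup.mk L ∈ FreeC n := by
  induction L with
  | nil => exact one_mem _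
  | cons x L ih =>
    have h1 : FreeGroup.mk (x :: L) = FreeGroup.mk [x] * FreeGroup.mk L := by
      rw [FreeGroup.mul_mk]
      rfl
    rw [h1]
    refine mul_mem ?_ (ih fun y hy => hL y (List.mem_cons_of_mem _ hy))
    have h2 : FreeGroup.of x.1 ∈ FreeC n :=
      Subgroup.subset_closure ⟨x.1, hL x List.mem_cons_self, rfl⟩
    obtain ⟨ω, b⟩ := x
    cases b
    · have h3 : FreeGroup.mk [(ω, false)] = (FreeGroup.of ω)⁻¹ := rfl
      rw [h3]
      exact inv_mem h2
    · exact h2

theorem mem_FreeC_of_fixed (n : ℕ) (m : ℤ) (hm : m ≠ 0) (f : FreeGroup Om)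
    (h : psiC (Multiplicative.ofAdd (Finsupp.single (n + 1) m)) f = f) : f ∈ FreeC n := by
  classical
  have h1 : FreeGroup.map (shiftC (Finsupp.single (n + 1) m)) f = f := h
  have h2 := toWord_map (shiftC (Finsupp.single (n + 1) m)).injective f
  rw [h1] at h2
  rw [← FreeGroup.mk_toWord (x := f)]
  refine mk_mem _ fun x hx => ?_
  obtain ⟨i, hi, rfl⟩ := List.getElem_of_mem hx
  have h3 : f.toWord[i] = (shiftC (Finsupp.single (n + 1) m) (f.toWord[i]).1, (f.toWord[i]).2) := by
    have h4 := congrArg (fun L => L[i]?) h2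
    simp only [List.getElem?_map, List.getElem?_eq_getElem hi, Option.map_some,
      Option.some.injEq] at h4
    exact h4
  have h5 : (f.toWord[i]).1 = shiftC (Finsupp.single (n + 1) m) (f.toWord[i]).1 :=
    congrArg Prod.fst h3
  rw [shiftC_apply] at h5
  have h6 : tr (f.toWord[i]).1.1 (Finsupp.single (n + 1) m) = 0 := by
    have h7 := congrArg Prod.snd h5
    exact left_eq_add.1 h7
  by_contra hcon
  push Not at hcon
  have h8 := congrArg (fun u : ℕ →₀ ℤ => u (n + 1)) h6
  simp only [tr_apply, Finsupp.single_eq_same, Finsupp.coe_zero, Pi.zero_apply] at h8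
  rw [if_pos (by omega)] at h8
  exact hm h8

end MPc72427
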