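import Pool.Agent.Work.MP_c72427_an.U.P
import Pool.Agent.Work.MP_c72427_an.U.FixF

set_option autoImplicit false

/-!
# MP_c72427_an, module FactC

Facts on the group `G_γ`.

PROOF. `subC_exh`: every element of the free group is in some `FreeC n` (induction; `FreeC` is monotone). `subS_le`: `1 ∈ FreeC n`.
`subS_comm`: `s = (1, u)` with `tr n u = 0`, `c = (f, v)`, `f ∈ FreeC n`: `s * c = (psiC u f, u v)` and `psiC u f = f` because
`psiC u` fixes the letters of level `j ≤ n` (`tr j u = 0` as `tr n u = 0`), closure induction; `c * s = (f, v u)`.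
`wC_mem`: `tr n (single (n+1) 1) = 0`. `conj_notMem`: `g = (f, ζ)`, `w ^ m = (1, single (n+1) m)`,
`g * w^m * g⁻¹ = (f * psiC (single (n+1) m) f⁻¹, single (n+1) m)` (the right group is commutative); if it is in `SubS n` its left
component is `1`, so `psiC (..) f = f`, and `mem_FreeC_of_fixed` gives `g ∈ SubC n`. `subS_inter`: `tr n u = 0` for all `n` gives
`u = 0`. `tC_mem`: `of (n, x) ∈ FreeC n`. Instances as for `G_β` (`Om` is countable; `wC` is injective).
-/

namespace MPc72427

open Filter Topology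
open scoped InnerProductSpace

private theorem freeC_mono {m n : ℕ} (h : m ≤ n) : FreeC m ≤ FreeC n :=
  Subgroup.closure_mono (Set.image_mono fun _ hω => le_trans hω h)

private theorem exists_freeC (f : FreeGroup Om) : ∃ n, f ∈ FreeC n := by
  induction f using FreeGroup.induction_on with
  | C1 => exact ⟨0, one_mem _⟩
  | of ω => exact ⟨ω.1, Subgroup.subset_closure ⟨ω, le_refl ω.1, rfl⟩⟩
  | inv_of ω h =>
    obtain ⟨n, hn⟩ := h
    exact ⟨n, inv_mem hn⟩
  | mul a b ha hb =>
    obtain ⟨m, hm⟩ := ha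
    obtain ⟨n, hn⟩ := hb
    exact ⟨max m n, mul_mem (freeC_mono (le_max_left _ _) hm) (freeC_mono (le_max_right _ _) hn)⟩

private theorem tr_zero_of_le {m n : ℕ} (h : m ≤ n) {u : ℕ →₀ ℤ} (hu : tr n u = 0) :
    tr m u = 0 := by
  ext i
  rw [tr_apply]
  split_ifs with hi
  · have h1 := DFunLike.congr_fun hu i
    rw [tr_apply, if_pos (hi.trans h)] at h1
    rw [h1]
  · rfl

private theorem psiC_fix {n : ℕ} {u : Multiplicative (ℕ →₀ ℤ)}
    (hu : tr n (Multiplicative.toAdd u) = 0) {f : FreeGroup Om} (hf : f ∈ FreeC n) :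
    psiC u f = f := by
  have h : FreeC n ≤ (psiC u).toMonoidHom.eqLocus (MonoidHom.id _) := by
    rw [FreeC, Subgroup.closure_le]
    rintro _ ⟨ω, hω, rfl⟩
    change psiC u (FreeGroup.of ω) = FreeGroup.of ω
    rw [psiC_of, shiftC_apply, tr_zero_of_le hω hu, add_zero]
  exact h hf

theorem subC_mono : Monotone SubC := by
  intro m n h g hg
  exact freeC_mono h hg

theorem subC_exh (g : GC) : ∃ n, g ∈ SubC n := exists_freeC g.left

theorem subS_le (n : ℕ) : SubS n ≤ SubC n := by
  intro g hg
  change g.left ∈ FreeC n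
  rw [hg.1]
  exact one_mem _

theorem subS_comm (n : ℕ) : ∀ s ∈ SubS n, ∀ c ∈ SubC n, s * c = c * s := by
  intro s hs c hc
  have h1 : psiC s.right c.left = c.left := psiC_fix hs.2 hc
  refine SemidirectProduct.ext ?_ ?_
  · rw [SemidirectProduct.mul_left, SemidirectProduct.mul_left, h1, hs.1, map_one, one_mul, mul_one]
  · rw [SemidirectProduct.mul_right, SemidirectProduct.mul_right, mul_comm]

theorem subS_anti {m n : ℕ} (h : m ≤ n) : SubS n ≤ SubS m := by
  intro g hg
  exact ⟨hg.1, tr_zero_of_le h hg.2⟩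

theorem subS_inter {g : GC} (h : ∀ n, g ∈ SubS n) : g = 1 := by
  refine SemidirectProduct.ext (h 0).1 ?_
  rw [SemidirectProduct.one_right]
  refine Multiplicative.toAdd.injective ?_
  rw [toAdd_one]
  ext i
  have h1 := DFunLike.congr_fun (h i).2 i
  rw [tr_apply, if_pos le_rfl] at h1
  exact h1

theorem wC_mem (n : ℕ) : wC (n + 1) ∈ SubS n := by
  refine ⟨rfl, ?_⟩
  ext i
  rw [tr_apply]
  split_ifs with hi
  · change (Finsupp.single (n + 1) (1 : ℤ)) i = 0
    rw [Finsupp.single_apply, if_neg (by omega)]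
  · rfl

private theorem wC_injective : Function.Injective wC := by
  intro m n h
  have h1 := SemidirectProduct.inr_injective h
  have h2 := Multiplicative.ofAdd.injective h1
  exact Finsupp.single_left_injective one_ne_zero h2

theorem wC_ne_one (n : ℕ) : wC n ≠ 1 := by
  intro h
  have h1 : (Multiplicative.ofAdd (Finsupp.single n (1 : ℤ))) = 1 :=
    congrArg SemidirectProduct.right h
  have h2 : Finsupp.single n (1 : ℤ) = 0 := h1
  rw [Finsupp.single_eq_zero] at h2
  exact one_ne_zero h2

theorem conj_notMem (n : ℕ) : ∀ g ∉ SubC n, ∀ m : ℤ, m ≠ 0 → g * wC (n + 1) ^ m * g⁻¹ ∉ SubS n := by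
  intro g hg m hm h
  apply hg
  have e1 : wC (n + 1) ^ m =
      SemidirectProduct.inr (Multiplicative.ofAdd (Finsupp.single (n + 1) m)) := by
    rw [wC, ← map_zpow, ← ofAdd_zsmul, Finsupp.smul_single, smul_eq_mul, mul_one]
  have h1 : (g * wC (n + 1) ^ m * g⁻¹).left = 1 := h.1
  rw [e1, SemidirectProduct.mul_left, SemidirectProduct.mul_left, SemidirectProduct.mul_right,
    SemidirectProduct.left_inr, SemidirectProduct.right_inr, SemidirectProduct.inv_left,
    map_one, mul_one, ← MulAut.mul_apply, ← map_mul, mul_right_comm, mul_inv_cancel, one_mul,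
    map_inv, mul_inv_eq_one] at h1
  exact mem_FreeC_of_fixed n m hm g.left h1.symm

theorem tC_mem (n : ℕ) (x : ℕ →₀ ℤ) : tC n x ∈ SubC n :=
  Subgroup.subset_closure ⟨(n, x), le_refl n, rfl⟩

theorem countable_GC : Countable GC := by
  have : Countable (FreeGroup Om) := FreeGroup.toWord_injective.countable
  have : Countable (Multiplicative (ℕ →₀ ℤ)) := inferInstanceAs (Countable (ℕ →₀ ℤ))
  have h : Function.Injective (fun g : GC => (g.left, g.right)) := by
    intro a b hab
    exact SemidirectProduct.ext (congrArg Prod.fst hab) (congrArg Prod.snd hab)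
  exact h.countable

theorem infinite_GC : Infinite GC := Infinite.of_injective wC wC_injective

end MPc72427
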