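import Pool.Agent.Work.MP_c72427_an.U.P
import Pool.Agent.Work.MP_c72427_an.U.Gap
import Pool.Agent.Work.MP_c72427_an.U.ComL
import Pool.Agent.Work.MP_c72427_an.U.StartW

set_option autoImplicit false

/-!
# MP_c72427_an, module GapC

Spectral gap for the second group.

PROOF. As `GapB`. `ω₁ = (n, 0)`, `ω₂ = (n, single 0 1)`, `ω₁ ≠ ω₂`, `t_i = tC n .. = inl (of ω_i)`. `σ_i = (MulAut.conj t_i).toEquiv`,
`(t_i * g * t_i⁻¹).left = of ω_i * g.left * (of (ζ ω_i))⁻¹` with `ζ = shiftC (toAdd g.right)` (`psiC_of`), and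
`(t_i⁻¹ * g * t_i).left = (of ω_i)⁻¹ * g.left * of (ζ ω_i)`; the right components do not change. `Y = (SubS n)ᶜ`,
`F = {g | g.left ∈ startsWith (ω₁, true) ∨ g.left ∈ startsWith (ω₁, false)}`; `F ⊆ Y` as `g.left ≠ 1`.
`h1`: `g ∈ Y`, `g ∉ F`: `start_mul_mul (ω₁, true) (ζ ω₁, false) g.left`: `g.left ∉ startsWith (ω₁, false)`; if `g.left = 1` then
`tr n (toAdd g.right) ≠ 0` (as `g ∉ SubS n`), so `ζ ω₁ ≠ ω₁` and `(ζ ω₁, false) ≠ (ω₁, false)`. `h2`: `g ∈ F`: `g.left ≠ 1` and
`g.left ∉ startsWith (ω₂, false)`, so `(σ₂ g).left ∈ startsWith (ω₂, true)`, hence in `Y` (left component `≠ 1`) and not in `F`.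
`h3`: `start_mul_mul (ω₂, false) (ζ ω₂, true)`. `h4`: `startsWith (ω₂, true)` and `startsWith (ω₂, false)` are disjoint.
-/

namespace MPc72427

open Filter Topology
open scoped InnerProductSpace

private theorem sw_ne {α : Type} [DecidableEq α] {w v : α × Bool} (hwv : w ≠ v) {f : FreeGroup α}
    (h : f ∈ FreeGroup.startsWith w) : f ∉ FreeGroup.startsWith v :=
  fun h' => Set.disjoint_left.1 (FreeGroup.startsWith.disjoint_iff_ne.2 hwv) h h'

private theorem cj (n : ℕ) (u : ℕ →₀ ℤ) (g : GC) : ((MulAut.conj (tC n u)).toEquiv g).left =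
    FreeGroup.mk [((n, u), true)] * g.left *
      FreeGroup.mk [(shiftC (Multiplicative.toAdd g.right) (n, u), false)] := by
  change (tC n u * g * (tC n u)⁻¹).left = _
  rw [SemidirectProduct.mul_left, SemidirectProduct.mul_left, SemidirectProduct.inv_left,
    SemidirectProduct.mul_right]
  have h1 : (tC n u).right = 1 := rfl
  have h2 : (tC n u).left = FreeGroup.of (n, u) := rfl
  rw [h1, h2, map_one, one_mul, inv_one, map_one, MulAut.one_apply, MulAut.one_apply, map_inv,
    psiC_of]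
  rfl

private theorem cjs (n : ℕ) (u : ℕ →₀ ℤ) (g : GC) : ((MulAut.conj (tC n u)).toEquiv.symm g).left =
    FreeGroup.mk [((n, u), false)] * g.left *
      FreeGroup.mk [(shiftC (Multiplicative.toAdd g.right) (n, u), true)] := by
  change ((tC n u)⁻¹ * g * tC n u).left = _
  rw [SemidirectProduct.mul_left, SemidirectProduct.mul_left, SemidirectProduct.inv_left,
    SemidirectProduct.mul_right, SemidirectProduct.inv_right]
  have h1 : (tC n u).right = 1 := rfl
  have h2 : (tC n u).left = FreeGroup.of (n, u) := rfl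
  rw [h1, h2, inv_one, map_one, MulAut.one_apply, MulAut.one_apply, one_mul, psiC_of]
  rfl

theorem gapC (n : ℕ) (x : (grpTr GC).El) :
    ‖rst (SubS n : Set GC)ᶜ (vec x)‖ ≤ 10 * max (n2 (lam (tC n 0) * x - x * lam (tC n 0)))
      (n2 (lam (tC n (Finsupp.single 0 1)) * x - x * lam (tC n (Finsupp.single 0 1)))) := by
  classical
  rw [n2_comm_lam, n2_comm_lam]
  obtain ⟨u0, hu0⟩ : ∃ u0 : ℕ →₀ ℤ, u0 = 0 := ⟨_, rfl⟩
  obtain ⟨u1, hu1⟩ : ∃ u1 : ℕ →₀ ℤ, u1 = Finsupp.single 0 1 := ⟨_, rfl⟩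
  have hne01 : u0 ≠ u1 := by
    rw [hu0, hu1]
    intro h
    have h1 := DFunLike.congr_fun h 0
    simp at h1
  rw [← hu0, ← hu1]
  obtain ⟨F, hF⟩ : ∃ F : Set GC, F = {g : GC | g.left ∈ FreeGroup.startsWith ((n, u0), true) ∨
      g.left ∈ FreeGroup.startsWith ((n, u0), false)} := ⟨_, rfl⟩
  have hFm : ∀ g : GC, g ∈ F ↔ (g.left ∈ FreeGroup.startsWith ((n, u0), true) ∨
      g.left ∈ FreeGroup.startsWith ((n, u0), false)) := by
    intro g
    rw [hF]
    rfl
  have key : ∀ g : GC, g ∈ F → ∀ b : Bool, g.left ∉ FreeGroup.startsWith ((n, u1), b) := by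
    intro g hg b
    rcases (hFm g).1 hg with h | h
    · exact sw_ne (by
        intro h2
        exact hne01 (congrArg (fun w : Om × Bool => w.1.2) h2)) h
    · exact sw_ne (by
        intro h2
        exact hne01 (congrArg (fun w : Om × Bool => w.1.2) h2)) h
  have hne : ∀ g : GC, g ∈ F → g.left ≠ 1 := by
    intro g hg
    rcases (hFm g).1 hg with h | h
    · exact FreeGroup.startsWith.ne_one _ h
    · exact FreeGroup.startsWith.ne_one _ h
  have key2 : ∀ g : GC, ∀ b : Bool, g.left ∈ FreeGroup.startsWith ((n, u1), b) →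
      g ∈ (SubS n : Set GC)ᶜ ∧ g ∉ F := by
    intro g b h
    refine ⟨fun hg => FreeGroup.startsWith.ne_one _ h hg.1, fun hF => key g hF b h⟩
  have s2 : ∀ g : GC, g ∈ F → ((MulAut.conj (tC n u1)).toEquiv g).left ∈
      FreeGroup.startsWith ((n, u1), true) := by
    intro g hg
    rw [cj]
    exact start_mul_mul ((n, u1), true) _ g.left (key g hg false) (Or.inl (hne g hg))
  have s3 : ∀ g : GC, g ∈ F → ((MulAut.conj (tC n u1)).toEquiv.symm g).left ∈
      FreeGroup.startsWith ((n, u1), false) := by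
    intro g hg
    rw [cjs]
    exact start_mul_mul ((n, u1), false) _ g.left (key g hg true) (Or.inl (hne g hg))
  refine gap (MulAut.conj (tC n u0)).toEquiv (MulAut.conj (tC n u1)).toEquiv F
    (SubS n : Set GC)ᶜ ?_ ?_ ?_ ?_ ?_ (vec x)
  · intro g h hg
    exact hne g h hg.1
  · intro g hg hgF
    rw [hFm]
    left
    rw [cj]
    refine start_mul_mul ((n, u0), true) _ g.left (fun h => hgF ((hFm g).2 (Or.inr h))) ?_
    by_cases hl : g.left = 1
    · right
      intro h
      have h1 := congrArg (fun w : Om × Bool => w.1.2) h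
      simp only [shiftC_apply] at h1
      exact hg ⟨hl, left_eq_add.1 h1.symm⟩
    · exact Or.inl hl
  · intro g hg
    exact key2 _ true (s2 g hg)
  · intro g hg
    exact key2 _ false (s3 g hg)
  · intro g hg g' hg' h
    have h1 := s2 g hg
    rw [h] at h1
    exact sw_ne (by simp) h1 (s3 g' hg')

end MPc72427
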