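import Pool.Agent.Work.MP_c72427_an.U.P
import Pool.Agent.Work.MP_c72427_an.U.GapC
import Pool.Agent.Work.MP_c72427_an.U.FactC

set_option autoImplicit false

/-!
# MP_c72427_an, module CenC

The centre of the second factor.

PROOF. By `gapC n` (both commutators are zero) `rst (SubS n)ᶜ (vec z) = 0` for all `n`, so `vec z g = 0` unless `g ∈ SubS n` for all `n`,
that is `g = 1` (`subS_inter`). So `vec z = vec z 1 • e 1 = vec (vec z 1 • 1)`, `vec_injective`.
-/

namespace MPc72427

open Filter Topology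
open scoped InnerProductSpace

theorem center_gamma (z : (grpTr GC).El) (h : ∀ g : GC, lam g * z = z * lam g) :
    ∃ c : ℂ, z = c • (1 : (grpTr GC).El) := by
  classical
  have hout : ∀ (n : ℕ) (g : GC), g ∉ SubS n → vec z g = 0 := by
    intro n g hg
    have h1 := gapC n z
    rw [h (tC n 0), h (tC n (Finsupp.single 0 1)), sub_self, sub_self] at h1
    have h0 : n2 (0 : (grpTr GC).El) = 0 := (grpTr GC).norm2_zero
    rw [h0, max_self, mul_zero] at h1
    have h2 : rst (SubS n : Set GC)ᶜ (vec z) = 0 := norm_eq_zero.1 (le_antisymm h1 (norm_nonneg _))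
    have h3 : g ∈ (SubS n : Set GC)ᶜ := hg
    rw [← rst_apply_of_mem h3 (vec z), h2]
    rfl
  have hzero : ∀ g : GC, g ≠ 1 → vec z g = 0 := by
    intro g hg1
    have h1 : ∃ n, g ∉ SubS n := by
      by_contra hcon
      push Not at hcon
      exact hg1 (subS_inter hcon)
    obtain ⟨n, hn⟩ := h1
    exact hout n g hn
  refine ⟨vec z 1, vec_injective ?_⟩
  have hv : vec (vec z 1 • (1 : (grpTr GC).El)) = vec z 1 • (e 1 : L2 GC) := rfl
  rw [hv]
  ext g
  rw [lp.coeFn_smul, Pi.smul_apply, e_apply]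
  by_cases hg : g = 1
  · rw [hg]; simp
  · rw [if_neg hg, hzero g hg, smul_zero]

end MPc72427
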