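import Pool.Agent.Work.MP_c72427_an.U.P

set_option autoImplicit false

/-!
# MP_c72427_an, module Const

Along an ultrafilter which is not countably incomplete every bounded family in the algebra of a countable group is almost everywhere
constant.

PROOF. `inter_mem`: let `A k ∈ U` for all `k : ℕ` and suppose `⋂ A k ∉ U`. Define `f i` = the least `k` with `i ∉ A 0 ∩ ... ∩ A k` if
there is one, and `0` otherwise. For every `N` the set `{i | N < f i}` contains `(A 0 ∩ ... ∩ A N) \ ⋂ A k`, which is in `U`; so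
`f → ∞` along `U`, against `hU`. `eventually_eq_const`: let `f : I → ℂ` be bounded; along the ultrafilter `f` converges to some `c`
(compactness of closed balls). The sets `{i | ‖f i - c‖ < 1 / (k+1)}` are in `U`, so is their intersection `{i | f i = c}`.
`eventually_const`: `|vec (x i) g| ≤ ‖vec (x i)‖ ≤ nop (x i)` is bounded, so for each `g` there is a `c g` with `vec (x i) g = c g` for
`U`-almost all `i`; `G` is countable so almost all `i` satisfy this for all `g` simultaneously (`Set.countable` intersection, enumerate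
`G` or use `Encodable`). Fix one such `i₀` (an ultrafilter is not trivial) and put `y = x i₀`: for almost all `i`
`vec (x i) = c = vec y`, so `x i = y` (`vec_injective`).
-/

namespace MPc72427

open Filter Topology
open scoped InnerProductSpace

universe v

theorem inter_mem {I : Type v} {U : Ultrafilter I} (hU : ¬ CtblyIncomplete U) (A : ℕ → Set I)
    (hA : ∀ k, A k ∈ U) : (⋂ k, A k) ∈ U := by
  classical
  by_contra hn
  have hn' : (⋂ k, A k)ᶜ ∈ U := Ultrafilter.compl_mem_iff_notMem.2 hn
  apply hU
  refine ⟨fun i => if h : ∃ k, i ∉ A k then Nat.find h else 0, ?_⟩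
  rw [Filter.tendsto_atTop]
  intro N
  have h1 : (⋂ k ∈ Finset.range N, A k) ∈ (U : Filter I) :=
    (Filter.biInter_finset_mem _).2 fun k _ => hA k
  filter_upwards [h1, hn'] with i hi hi'
  have h : ∃ k, i ∉ A k := by simpa using hi'
  rw [dif_pos h, Nat.le_find_iff]
  intro m hm
  simp only [Finset.mem_range, Set.mem_iInter] at hi
  simpa using hi m hm

theorem eventually_eq_const {I : Type v} {U : Ultrafilter I} (hU : ¬ CtblyIncomplete U) (f : I → ℂ)
    (C : ℝ) (hf : ∀ i, ‖f i‖ ≤ C) : ∃ c : ℂ, ∀ᶠ i in (U : Filter I), f i = c := by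
  obtain ⟨c, -, hc⟩ := (isCompact_closedBall (0 : ℂ) C).ultrafilter_le_nhds (U.map f) (by
    rw [Filter.le_principal_iff]
    exact Filter.Eventually.of_forall (f := (U : Filter I)) fun i => by
      simpa using hf i)
  have hc' : Tendsto f (U : Filter I) (𝓝 c) := hc
  refine ⟨c, ?_⟩
  have h1 := inter_mem hU (fun k : ℕ => {i | ‖f i - c‖ < 1 / ((k : ℝ) + 1)}) (fun k => by
    have h2 := (Metric.tendsto_nhds.1 hc') (1 / ((k : ℝ) + 1)) (by positivity)
    filter_upwards [h2] with i hi
    simpa [dist_eq_norm] using hi)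
  filter_upwards [h1] with i hi
  simp only [Set.mem_iInter, Set.mem_setOf_eq] at hi
  have h3 : ‖f i - c‖ ≤ 0 := by
    refine ge_of_tendsto' (tendsto_one_div_add_atTop_nhds_zero_nat (𝕜 := ℝ)) fun k => (hi k).le
  exact sub_eq_zero.1 (norm_le_zero_iff.1 h3)

theorem eventually_const {G : Type} [Group G] [Countable G] {I : Type v} {U : Ultrafilter I}
    (hU : ¬ CtblyIncomplete U) (x : (grpTr G).bdd I) :
    ∃ y : (grpTr G).El, ∀ᶠ i in (U : Filter I), x.1 i = y := by
  obtain ⟨C, hC⟩ := x.2
  have hb : ∀ g : G, ∀ i, ‖vec (x.1 i) g‖ ≤ C := by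
    intro g i
    refine (lp.norm_apply_le_norm (by norm_num) (vec (x.1 i)) g).trans ?_
    refine le_trans ?_ (hC i)
    have h := ((x.1 i : (grpTr G).El) : L2 G →L[ℂ] L2 G).le_opNorm (e 1)
    rw [norm_e, mul_one] at h
    exact h
  choose c hc using fun g : G => eventually_eq_const hU (fun i => vec (x.1 i) g) C (hb g)
  obtain ⟨φ, hφ⟩ := exists_surjective_nat G
  have h1 := inter_mem hU (fun k : ℕ => {i | vec (x.1 i) (φ k) = c (φ k)}) (fun k => hc (φ k))
  obtain ⟨i₀, hi₀⟩ := U.nonempty_of_mem h1
  refine ⟨x.1 i₀, ?_⟩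
  filter_upwards [h1] with i hi
  refine vec_injective ?_
  ext g
  obtain ⟨k, rfl⟩ := hφ g
  simp only [Set.mem_iInter, Set.mem_setOf_eq] at hi hi₀
  rw [hi k, hi₀ k]

end MPc72427
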