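import Pool.Agent.Work.MP_c72427_an.U.P
import Pool.Agent.Work.MP_c72427_an.U.Const

set_option autoImplicit false

/-!
# MP_c72427_an, module ConstIso

Along an ultrafilter which is not countably incomplete the ultrapower is the algebra itself.

PROOF. `Ψ y = cls (constant y)`. It is a star algebra homomorphism; injective: `n2 (y - y')` is a constant which tends to zero, so it
is zero, `norm2_eq_zero`; surjective by `eventually_const` (`cls_eq_cls`, the difference is eventually zero). The last statement: if
`Ψ y = cls x` then by `eventually_const` `x i = y'` for almost all `i`, `cls x = cls (constant y')`, `y = y'` by injectivity, and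
`trace (x i) = trace y` for almost all `i`.
-/

namespace MPc72427

open Filter Topology
open scoped InnerProductSpace

universe v

/-- The constant family. -/
private def cst {G : Type} [Group G] (I : Type v) (y : (grpTr G).El) : (grpTr G).bdd I :=
  ⟨fun _ => y, (grpTr G).opNorm y, fun _ => le_rfl⟩

private noncomputable def cstHom {G : Type} [Group G] {I : Type v} (U : Ultrafilter I) :
    (grpTr G).El →⋆ₐ[ℂ] (grpTr G).Ult U where
  toFun y := (grpTr G).cls U (cst I y)
  map_one' := rfl
  map_mul' _ _ := rfl
  map_zero' := rfl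
  map_add' _ _ := rfl
  commutes' _ := rfl
  map_star' _ := rfl

private theorem cstHom_apply {G : Type} [Group G] {I : Type v} (U : Ultrafilter I)
    (y : (grpTr G).El) : cstHom U y = (grpTr G).cls U (cst I y) := rfl

private theorem cstHom_injective {G : Type} [Group G] {I : Type v} (U : Ultrafilter I) :
    Function.Injective (cstHom (G := G) U) := by
  intro y y' h
  rw [cstHom_apply, cstHom_apply, (grpTr G).cls_eq_cls U] at h
  have h1 : Tendsto (fun _ : I => (grpTr G).norm2 (y - y')) U (𝓝 0) := h
  have h2 := tendsto_nhds_unique h1 tendsto_const_nhds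
  exact sub_eq_zero.1 ((grpTr G).norm2_eq_zero h2.symm)

private theorem cls_eq_cst {G : Type} [Group G] {I : Type v} {U : Ultrafilter I}
    (x : (grpTr G).bdd I) (y : (grpTr G).El) (h : ∀ᶠ i in (U : Filter I), x.1 i = y) :
    cstHom U y = (grpTr G).cls U x := by
  rw [cstHom_apply, (grpTr G).cls_eq_cls U]
  refine Tendsto.congr' ?_ tendsto_const_nhds
  filter_upwards [h] with i hi
  change 0 = (grpTr G).norm2 (y - x.1 i)
  rw [hi, sub_self, (grpTr G).norm2_zero]

theorem exists_constIso {G : Type} [Group G] [Countable G] {I : Type v} {U : Ultrafilter I}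
    (hU : ¬ CtblyIncomplete U) :
    ∃ Ψ : (grpTr G).El ≃⋆ₐ[ℂ] (grpTr G).Ult U, ∀ (y : (grpTr G).El) (x : (grpTr G).bdd I),
      Ψ y = (grpTr G).cls U x →
        Tendsto (fun i => (grpTr G).trace (x.1 i)) U (𝓝 ((grpTr G).trace y)) := by
  have hs : Function.Surjective (cstHom (G := G) U) := by
    intro z
    obtain ⟨x, rfl⟩ := (grpTr G).cls_surjective U z
    obtain ⟨y, hy⟩ := eventually_const hU x
    exact ⟨y, cls_eq_cst x y hy⟩
  refine ⟨StarAlgEquiv.ofBijective (cstHom U) ⟨cstHom_injective U, hs⟩, fun y x h => ?_⟩
  have h' : cstHom U y = (grpTr G).cls U x := h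
  obtain ⟨y', hy'⟩ := eventually_const hU x
  rw [← cls_eq_cst x y' hy'] at h'
  obtain rfl := cstHom_injective U h'
  refine Tendsto.congr' ?_ tendsto_const_nhds
  filter_upwards [hy'] with i hi
  rw [hi]

end MPc72427
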