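import Pool.Agent.Work.MP_c72427_an.U.P

set_option autoImplicit false

/-!
# MP_c72427_an, module Dens

A set which generates the algebra as a von Neumann algebra generates a 2-norm dense subalgebra.

PROOF. Let `V` be the closure of the subspace `{y (e 1) | y ∈ Algebra.adjoin ℂ T}` of `ℓ²(G)` and `P` the orthogonal projection onto
`V` as an operator on `ℓ²(G)`. For `a ∈ T` `a V ⊆ V` and `star a V ⊆ V` (`star a ∈ T`), so `a` commutes with `P`
(e.g. `ContinuousLinearMap`/`Submodule` invariance of `V` and of its orthogonal complement). So `P` is in the centralizer of `T`, and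
`x`, which is in the double centralizer by `hgen`, commutes with `P`. `e 1 ∈ V` (`1 ∈ adjoin`), so `x (e 1) = x (P (e 1)) =
P (x (e 1)) ∈ V`. Hence there is a `y` in the adjoin with `‖x (e 1) - y (e 1)‖ < ε`, that is `n2 (x - y) < ε` (`norm2_eq`, `vec_sub`).
-/

namespace MPc72427

open Filter Topology
open scoped InnerProductSpace

variable {G : Type} [Group G]

theorem dense_adjoin (T : Set (grpTr G).El) (hT : ∀ a ∈ T, star a ∈ T)
    (hgen : Set.centralizer (Set.centralizer
      ((fun a : (grpTr G).El => (a : L2 G →L[ℂ] L2 G)) '' T)) =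
        ((grpTr G).toStarSubalgebra : Set (L2 G →L[ℂ] L2 G)))
    (x : (grpTr G).El) {ε : ℝ} (hε : 0 < ε) : ∃ y ∈ Algebra.adjoin ℂ T, n2 (x - y) < ε := by
  classical
  set A : Subalgebra ℂ (grpTr G).El := Algebra.adjoin ℂ T with hA
  let vecL : (grpTr G).El →ₗ[ℂ] L2 G :=
    { toFun := vec
      map_add' := vec_add
      map_smul' := vec_smul }
  let V0 : Submodule ℂ (L2 G) := (Subalgebra.toSubmodule A).map vecL
  let V : Submodule ℂ (L2 G) := V0.topologicalClosure
  have hVc : IsClosed (V : Set (L2 G)) := V0.isClosed_topologicalClosure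
  have : CompleteSpace V := hVc.completeSpace_coe
  let P : L2 G →L[ℂ] L2 G := V.starProjection
  have inv : ∀ a ∈ T, ∀ v ∈ V, (a : L2 G →L[ℂ] L2 G) v ∈ V := by
    intro a ha v hv
    have hcl : IsClosed ((a : L2 G →L[ℂ] L2 G) ⁻¹' (V : Set (L2 G))) :=
      hVc.preimage (ContinuousLinearMap.continuous _)
    have hsub : (V0 : Set (L2 G)) ⊆ (a : L2 G →L[ℂ] L2 G) ⁻¹' (V : Set (L2 G)) := by
      rintro _ ⟨y, hy, rfl⟩
      exact V0.le_topologicalClosure ⟨a * y, A.mul_mem (Algebra.subset_adjoin ha) hy, rfl⟩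
    exact closure_minimal hsub hcl hv
  have comm : ∀ a ∈ T, (a : L2 G →L[ℂ] L2 G) * P = P * (a : L2 G →L[ℂ] L2 G) := by
    intro a ha
    refine ContinuousLinearMap.ext fun f => ?_
    change (a : L2 G →L[ℂ] L2 G) (P f) = P ((a : L2 G →L[ℂ] L2 G) f)
    symm
    refine (Submodule.eq_starProjection_of_mem_orthogonal
      (inv a ha _ (Submodule.starProjection_apply_mem V f)) ?_)
    rw [← map_sub]
    intro v hv
    rw [← ContinuousLinearMap.adjoint_inner_left]
    exact (Submodule.sub_starProjection_mem_orthogonal f) _ (inv (star a) (hT a ha) v hv)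
  have hPc : P ∈ Set.centralizer ((fun a : (grpTr G).El => (a : L2 G →L[ℂ] L2 G)) '' T) := by
    rintro _ ⟨a, ha, rfl⟩
    exact comm a ha
  have hx : (x : L2 G →L[ℂ] L2 G) ∈ Set.centralizer (Set.centralizer
      ((fun a : (grpTr G).El => (a : L2 G →L[ℂ] L2 G)) '' T)) := by
    rw [hgen]
    exact x.2
  have hxP : P * (x : L2 G →L[ℂ] L2 G) = (x : L2 G →L[ℂ] L2 G) * P := hx P hPc
  have h1 : (e 1 : L2 G) ∈ V := V0.le_topologicalClosure ⟨1, A.one_mem, vec_one⟩
  have hP1 : P (e 1) = e 1 := Submodule.starProjection_eq_self_iff.2 h1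
  have h2 : vec x ∈ V := by
    have h3 : P ((x : L2 G →L[ℂ] L2 G) (e 1)) = (x : L2 G →L[ℂ] L2 G) (P (e 1)) :=
      congrArg (fun S : L2 G →L[ℂ] L2 G => S (e 1)) hxP
    rw [hP1] at h3
    exact Submodule.starProjection_eq_self_iff.1 h3
  have h4 : vec x ∈ closure (V0 : Set (L2 G)) := h2
  obtain ⟨w, ⟨y, hy, rfl⟩, hw⟩ := Metric.mem_closure_iff.1 h4 ε hε
  refine ⟨y, hy, ?_⟩
  change (grpTr G).norm2 (x - y) < ε
  rw [norm2_eq, vec_sub, ← dist_eq_norm]
  exact hw

end MPc72427
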