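import Pool.Agent.Work.MP_c72427_an.U.P
import Pool.Agent.Work.MP_c72427_an.U.BNorm
import Pool.Agent.Work.MP_c72427_an.U.CommSup

set_option autoImplicit false

/-!
# MP_c72427_an, module EstB

Estimates for the conjugation by a letter.

PROOF. `est_conj`: `z = lam (aB (n+2))`, `d`, `p` from `exists_exp` for `(LamB, x)` and `(SubB n, s)`, `cx = ‖rst LamBᶜ (vec x)‖ =
n2 (x - d)`, `q = n2 (s - p)`. Write `[a, b] = a * b - b * a`, `x' = z x z*`, `d' = z d z*`.
`n2 [x', s] ≤ n2 [d', s] + 2 ‖s‖ cx` (`n2 (x' - d') ≤ cx` as `nop z ≤ 1`); `n2 [d', s] ≤ n2 [d', p] + 2 ‖x‖ q` (`nop d' ≤ nop d ≤ nop x`);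
`n2 [d', p] = n2 [d, p]` (`n2_conj_comm`); `n2 [d, p] ≤ n2 [d, s] + 2 ‖x‖ q`; `n2 [d, s] ≤ n2 [x, s] + 2 ‖s‖ cx`.
Tools: `norm2_mul_le`, `norm2_mul_le'`, `norm2_add_le`, `norm2_sub_le`, `opNorm_lam_le`, `opNorm_star`, `opNorm_mul_le`.
`est_conj_lam`: `d` from `exists_exp` for `LamB, x`; `d' = z d z*` is supported on `LamB` (its coordinate at `g` is
`vec d (a⁻¹ * g * a)`, and `conj_mem`: `a⁻¹ g a ∈ LamB → g ∈ LamB`), so it commutes with `lam (aB j)` (`commute_lam`, `aB_comm`);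
`n2 [x', lam (aB j)] ≤ 2 n2 (x' - d') ≤ 2 n2 (x - d)`.
-/

namespace MPc72427

open Filter Topology
open scoped InnerProductSpace

private theorem n2_comm_sub (a b : (grpTr GB).El) : n2 (a - b) = n2 (b - a) := by
  have h := (grpTr GB).norm2_neg (b - a)
  rw [neg_sub] at h
  exact h

private theorem comm_left (a b s : (grpTr GB).El) :
    n2 (a * s - s * a) ≤ n2 (b * s - s * b) + 2 * nop s * n2 (a - b) := by
  have e : a * s - s * a = (b * s - s * b) + ((a - b) * s - s * (a - b)) := by noncomm_ring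
  rw [e]
  have h1 := (grpTr GB).norm2_add_le (b * s - s * b) ((a - b) * s - s * (a - b))
  have h2 := (grpTr GB).norm2_sub_le ((a - b) * s) (s * (a - b))
  have h3 := (grpTr GB).norm2_mul_le' (a - b) s
  have h4 := (grpTr GB).norm2_mul_le s (a - b)
  change n2 _ ≤ n2 _ + n2 _ at h1
  change n2 _ ≤ n2 _ + n2 _ at h2
  change n2 _ ≤ n2 _ * nop _ at h3
  change n2 _ ≤ nop _ * n2 _ at h4
  linarith

private theorem comm_right (a s p : (grpTr GB).El) :
    n2 (a * s - s * a) ≤ n2 (a * p - p * a) + 2 * nop a * n2 (s - p) := by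
  have h := comm_left s p a
  rwa [n2_comm_sub (s * a), n2_comm_sub (p * a)] at h

private theorem n2_conj_le (g : GB) (y : (grpTr GB).El) : n2 (lam g * y * star (lam g)) ≤ n2 y := by
  have h1 : nop (lam g) ≤ 1 := opNorm_lam_le g
  have h2 : nop (star (lam g)) ≤ 1 := ((grpTr GB).opNorm_star _).trans_le h1
  have h3 := (grpTr GB).norm2_mul_le' (lam g * y) (star (lam g))
  have h4 := (grpTr GB).norm2_mul_le (lam g) y
  have h5 : 0 ≤ n2 y := (grpTr GB).norm2_nonneg y
  have h6 : 0 ≤ n2 (lam g * y) := (grpTr GB).norm2_nonneg _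
  change n2 _ ≤ n2 _ * nop _ at h3
  change n2 _ ≤ nop _ * n2 _ at h4
  calc n2 (lam g * y * star (lam g)) ≤ n2 (lam g * y) * nop (star (lam g)) := h3
    _ ≤ n2 (lam g * y) * 1 := mul_le_mul_of_nonneg_left h2 h6
    _ = n2 (lam g * y) := mul_one _
    _ ≤ nop (lam g) * n2 y := h4
    _ ≤ 1 * n2 y := mul_le_mul_of_nonneg_right h1 h5
    _ = n2 y := one_mul _

private theorem nop_conj_le (g : GB) (y : (grpTr GB).El) :
    nop (lam g * y * star (lam g)) ≤ nop y := by
  have h1 : nop (lam g) ≤ 1 := opNorm_lam_le g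
  have h2 : nop (star (lam g)) ≤ 1 := ((grpTr GB).opNorm_star _).trans_le h1
  have h3 := (grpTr GB).opNorm_mul_le (lam g * y) (star (lam g))
  have h4 := (grpTr GB).opNorm_mul_le (lam g) y
  have h5 : 0 ≤ nop y := (grpTr GB).opNorm_nonneg y
  have h6 : 0 ≤ nop (lam g * y) := (grpTr GB).opNorm_nonneg _
  change nop _ ≤ nop _ * nop _ at h3
  change nop _ ≤ nop _ * nop _ at h4
  calc nop (lam g * y * star (lam g)) ≤ nop (lam g * y) * nop (star (lam g)) := h3
    _ ≤ nop (lam g * y) * 1 := mul_le_mul_of_nonneg_left h2 h6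
    _ = nop (lam g * y) := mul_one _
    _ ≤ nop (lam g) * nop y := h4
    _ ≤ 1 * nop y := mul_le_mul_of_nonneg_right h1 h5
    _ = nop y := one_mul _

private theorem conj_sub (g : GB) (x d : (grpTr GB).El) :
    lam g * x * star (lam g) - lam g * d * star (lam g) = lam g * (x - d) * star (lam g) := by
  noncomm_ring

theorem est_conj (n : ℕ) (x s : (grpTr GB).El) :
    n2 (lam (aB (n + 2)) * x * star (lam (aB (n + 2))) * s -
      s * (lam (aB (n + 2)) * x * star (lam (aB (n + 2))))) ≤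
    n2 (x * s - s * x) + 4 * nop s * ‖rst (LamB : Set GB)ᶜ (vec x)‖ +
      4 * nop x * ‖rst (SubB n : Set GB)ᶜ (vec s)‖ := by
  obtain ⟨d, hd1, hd2, -, hd4⟩ := exists_exp LamB x
  obtain ⟨p, hp1, -, -, hp4⟩ := exists_exp (SubB n) s
  have hs : 0 ≤ nop s := (grpTr GB).opNorm_nonneg s
  have hq : 0 ≤ n2 (s - p) := (grpTr GB).norm2_nonneg _
  have hc : 0 ≤ n2 (x - d) := (grpTr GB).norm2_nonneg _
  rw [← hd4, ← hp4]
  have h1 := comm_left (lam (aB (n + 2)) * x * star (lam (aB (n + 2))))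
    (lam (aB (n + 2)) * d * star (lam (aB (n + 2)))) s
  rw [conj_sub] at h1
  have h1' := mul_le_mul_of_nonneg_left (n2_conj_le (aB (n + 2)) (x - d))
    (mul_nonneg zero_le_two hs)
  have h2 := comm_right (lam (aB (n + 2)) * d * star (lam (aB (n + 2)))) s p
  have h2' := mul_le_mul_of_nonneg_right ((nop_conj_le (aB (n + 2)) d).trans hd2) hq
  have h3 := n2_conj_comm n d p hd1 hp1
  have h4 := comm_right d p s
  rw [n2_comm_sub p s] at h4
  have h4' := mul_le_mul_of_nonneg_right hd2 hq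
  have h5 := comm_left d x s
  rw [n2_comm_sub d x] at h5
  linarith

theorem est_conj_lam (k : ℕ) {j : ℕ} (hj : j < 2) (x : (grpTr GB).El) :
    n2 (lam (aB j) * (lam (aB k) * x * star (lam (aB k))) -
      lam (aB k) * x * star (lam (aB k)) * lam (aB j)) ≤
    2 * ‖rst (LamB : Set GB)ᶜ (vec x)‖ := by
  obtain ⟨d, hd1, -, -, hd4⟩ := exists_exp LamB x
  rw [← hd4]
  have hd' : Supp (LamB : Set GB) (lam (aB k) * d * star (lam (aB k))) := by
    rw [supp_iff]
    intro g hg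
    rw [star_lam, vec_mul_lam_apply, inv_inv, vec_lam_mul_apply]
    refine supp_iff.1 hd1 _ fun h => hg ?_
    have h1 := conj_mem k _ h
    have h2 : aB k * ((aB k)⁻¹ * (g * aB k)) * (aB k)⁻¹ = g := by group
    rwa [h2] at h1
  have hcom : lam (aB j) * (lam (aB k) * d * star (lam (aB k))) =
      lam (aB k) * d * star (lam (aB k)) * lam (aB j) :=
    commute_lam hd' fun a ha => (aB_comm hj a ha).symm
  have h0 : n2 (lam (aB j) * (lam (aB k) * d * star (lam (aB k))) -
      lam (aB k) * d * star (lam (aB k)) * lam (aB j)) = 0 := by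
    rw [hcom, sub_self]
    exact (grpTr GB).norm2_zero
  have h1 := comm_right (lam (aB j)) (lam (aB k) * x * star (lam (aB k)))
    (lam (aB k) * d * star (lam (aB k)))
  rw [conj_sub, h0, zero_add] at h1
  have h2 : nop (lam (aB j)) ≤ 1 := opNorm_lam_le _
  have h3 := n2_conj_le (aB k) (x - d)
  have h4 : 0 ≤ n2 (lam (aB k) * (x - d) * star (lam (aB k))) := (grpTr GB).norm2_nonneg _
  have h5 := mul_le_mul_of_nonneg_right h2 h4
  linarith

end MPc72427
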