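import Pool.Agent.Work.MP_c72427_an.U.P

set_option autoImplicit false

/-!
# MP_c72427_an, module FinExh

Approximation by finitely supported vectors, and exhaustion.

PROOF. `exists_finset`: `lp.hasSum_single` gives a finite `T` with `‖∑_{T} single x (f x) - f‖ < δ`, and this difference is
`- rst Tᶜ f`; or directly from `L2.summable_sq` and `norm_rst_sq`. `tendsto_exhaust`: given `δ`, take `T` and `n` with
`T ⊆ B n` (finitely many points, `hmono`); for `m ≥ n` `(B m)ᶜ ⊆ Tᶜ` and `norm_rst_mono`.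
-/

namespace MPc72427

open Filter Topology
open scoped InnerProductSpace

theorem exists_finset {X : Type} (f : L2 X) {δ : ℝ} (hδ : 0 < δ) :
    ∃ T : Finset X, ‖rst ((T : Set X))ᶜ f‖ < δ := by
  have h := tendsto_tsum_compl_atTop_zero (fun x => ‖f x‖ ^ 2)
  have hδ2 : (0 : ℝ) < δ ^ 2 := by positivity
  obtain ⟨T, hT⟩ := (h.eventually (gt_mem_nhds hδ2)).exists
  refine ⟨T, ?_⟩
  refine (sq_lt_sq₀ (norm_nonneg _) hδ.le).1 ?_
  rw [norm_rst_sq]
  have h2 := tsum_subtype ((T : Set X))ᶜ (fun x => ‖f x‖ ^ 2)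
  rw [← h2]
  exact hT

theorem tendsto_exhaust {X : Type} (B : ℕ → Set X) (hmono : Monotone B) (hU : ∀ x, ∃ n, x ∈ B n)
    (f : L2 X) : Tendsto (fun n => ‖rst (B n)ᶜ f‖) atTop (𝓝 0) := by
  classical
  rw [Metric.tendsto_atTop]
  intro δ hδ
  obtain ⟨T, hT⟩ := exists_finset f hδ
  choose N hN using hU
  refine ⟨T.sup N, fun m hm => ?_⟩
  rw [Real.dist_eq, sub_zero, abs_of_nonneg (norm_nonneg _)]
  refine lt_of_le_of_lt (norm_rst_mono ?_ f) hT
  rw [Set.compl_subset_compl]
  intro x hx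
  have hx' : x ∈ T := hx
  exact hmono (le_trans (Finset.le_sup hx') hm) (hN x)

end MPc72427
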