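import Pool.Agent.Work.MP_c72427_an.U.P
import Pool.Agent.Work.MP_c72427_an.U.Est
import Pool.Agent.Work.MP_c72427_an.U.FinExh

set_option autoImplicit false

/-!
# MP_c72427_an, module GamG

Property Gamma for the algebra of a group exhausted by subgroups with commuting elements.

PROOF. Given the finite set `F` and `ε`, by `tendsto_exhaust` (finitely many `x`, `Filter.eventually_all_finite`) there is an `n` with
`‖rst (B n)ᶜ (vec x)‖ < ε / 2` for all `x ∈ F`. The unitary `lam (w n)`: `star_lam_mul_lam`, `lam_mul_star_lam`, trace `vec (lam (w n)) 1 =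
e (w n) 1 = 0` (`trace_eq`, `vec_lam`, `e_apply`, `hw1`), and `est_lam`.
-/

namespace MPc72427

open Filter Topology
open scoped InnerProductSpace

variable {G : Type} [Group G]

theorem hasGamma_of (B : ℕ → Subgroup G) (hmono : Monotone B) (hexh : ∀ g, ∃ n, g ∈ B n)
    (w : ℕ → G) (hw1 : ∀ n, w n ≠ 1) (hw : ∀ n, ∀ g ∈ B n, w n * g = g * w n) :
    (grpTr G).HasGamma := by
  intro F hF ε hε
  have h1 : ∀ᶠ n in atTop, ∀ x ∈ F, ‖rst ((B n : Set G))ᶜ (vec x)‖ < ε / 2 := by
    refine (Filter.eventually_all_finite hF).2 fun x _ => ?_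
    have h2 := tendsto_exhaust (fun n => (B n : Set G)) (fun a b hab => hmono hab) hexh (vec x)
    exact h2.eventually_lt_const (by linarith)
  obtain ⟨n, hn⟩ := h1.exists
  refine ⟨lam (w n), star_lam_mul_lam _, lam_mul_star_lam _, ?_, fun x hx => ?_⟩
  · rw [trace_eq, vec_lam, e_apply, if_neg]
    exact fun h => hw1 n h.symm
  · have h3 := est_lam (C := B n) (s := w n) (hw n) x
    have h4 := hn x hx
    exact lt_of_le_of_lt h3 (by linarith)

end MPc72427
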