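import Pool.Agent.Work.MP_c72427_an.U.P

set_option autoImplicit false

/-!
# MP_c72427_an, module InfDim

The algebra of an infinite group is infinite dimensional.

PROOF. The elements `lam g` are linearly independent: the linear map `x ↦ vec x` sends them to the orthonormal (linearly independent)
vectors `e g` (`e_apply`). An infinite linearly independent family does not exist in a finite dimensional space.
-/

namespace MPc72427

open Filter Topology
open scoped InnerProductSpace

variable {G : Type} [Group G]

private noncomputable def vecL : (grpTr G).El →ₗ[ℂ] L2 G where
  toFun x := vec x
  map_add' := vec_add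
  map_smul' := vec_smul

private theorem orthonormal_e : Orthonormal ℂ (fun g : G => (e g : L2 G)) := by
  classical
  rw [orthonormal_iff_ite]
  intro g h
  rw [inner_e_left, e_apply]

theorem not_finiteDimensional [Infinite G] : ¬ FiniteDimensional ℂ (grpTr G).El := by
  intro hfd
  have h1 : LinearIndependent ℂ (fun g : G => lam g) := by
    refine LinearIndependent.of_comp (vecL (G := G)) ?_
    have h2 : (vecL (G := G) ∘ fun g : G => lam g) = fun g : G => (e g : L2 G) := by
      funext g
      exact vec_lam g
    rw [h2]
    exact orthonormal_e.linearIndependent
  exact not_finite_iff_infinite.2 ‹Infinite G› h1.finite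

end MPc72427
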