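import Pool.Agent.Work.MP_c72427_an.U.P
import Pool.Agent.Work.MP_c72427_an.U.Dens

set_option autoImplicit false

/-!
# MP_c72427_an, module McD

If the central sequences commute then the factor is not McDuff.

PROOF. Let `A, u, v` be as in `IsMcDuff` and `T = A ∪ range u ∪ range v` (stable under `star`). By `dense_adjoin` (the set in `IsMcDuff`
is the image of `T`) `Algebra.adjoin ℂ T` is dense. Claim: `n2 (u n * x - x * u n) → 0` for every `x`, and the same for `v`. For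
`x ∈ Algebra.adjoin ℂ T`: even `u n * x = x * u n` for all large `n` (`Algebra.adjoin_induction`: for `a ∈ A` all `n`; for `u m`, `v m`
all `n ≠ m`; sums, products, scalars: the larger bound). General `x`: approximate, `n2 (u n * r - r * u n) ≤ 2 nop (u n) n2 r` and
`nop (u n) ≤ 1` since `star (u n) * u n = 1` (C*-identity: `nop (u n)² = nop (star (u n) * u n) = nop 1 ≤ 1`). So `u`, `v` are bounded
central sequences, and by hypothesis `n2 (u n * v n - v n * u n) → 0`. But `u n * v n - v n * u n = 2 • (u n * v n)` and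
`u n * v n` is unitary, so `n2 = 2` (`n2 (a)² = ‖a (e 1)‖²`, `n2 (w) = 1` for a unitary `w`: `trace (star w * w) = trace 1 = 1`).
Contradiction.
-/

namespace MPc72427

open Filter Topology
open scoped InnerProductSpace

variable {G : Type} [Group G]

private theorem nop_le_one {w : (grpTr G).El} (h : star w * w = 1) : nop w ≤ 1 := by
  have h1 : (star (w : L2 G →L[ℂ] L2 G)) * (w : L2 G →L[ℂ] L2 G) = 1 := congrArg Subtype.val h
  have h2 : ‖(w : L2 G →L[ℂ] L2 G)‖ * ‖(w : L2 G →L[ℂ] L2 G)‖ ≤ 1 := by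
    rw [← CStarRing.norm_star_mul_self, h1]
    exact ContinuousLinearMap.norm_id_le
  have h3 : 0 ≤ ‖(w : L2 G →L[ℂ] L2 G)‖ := norm_nonneg _
  show ‖(w : L2 G →L[ℂ] L2 G)‖ ≤ 1
  nlinarith

private theorem n2_unitary {w : (grpTr G).El} (h : star w * w = 1) : n2 w = 1 := by
  show Real.sqrt ((grpTr G).trace (star w * w)).re = 1
  rw [h, (grpTr G).trace_one]
  simp

private theorem eventually_comm {T : Set (grpTr G).El} {w : ℕ → (grpTr G).El}
    (hT : ∀ a ∈ T, ∃ N, ∀ n ≥ N, a * w n = w n * a) {y : (grpTr G).El}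
    (hy : y ∈ Algebra.adjoin ℂ T) : ∃ N, ∀ n ≥ N, y * w n = w n * y := by
  induction hy using Algebra.adjoin_induction with
  | mem a ha => exact hT a ha
  | algebraMap c => exact ⟨0, fun n _ => Algebra.commutes c (w n)⟩
  | add a b _ _ ha hb =>
    obtain ⟨N, hN⟩ := ha
    obtain ⟨N', hN'⟩ := hb
    refine ⟨max N N', fun n hn => ?_⟩
    rw [add_mul, mul_add, hN n (le_trans (le_max_left _ _) hn),
      hN' n (le_trans (le_max_right _ _) hn)]
  | mul a b _ _ ha hb =>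
    obtain ⟨N, hN⟩ := ha
    obtain ⟨N', hN'⟩ := hb
    refine ⟨max N N', fun n hn => ?_⟩
    rw [mul_assoc, hN' n (le_trans (le_max_right _ _) hn), ← mul_assoc,
      hN n (le_trans (le_max_left _ _) hn), mul_assoc]

private theorem central {T : Set (grpTr G).El} {w : ℕ → (grpTr G).El}
    (hT : ∀ a ∈ T, ∃ N, ∀ n ≥ N, a * w n = w n * a) (hw : ∀ n, nop (w n) ≤ 1)
    (hd : ∀ (x : (grpTr G).El) (ε : ℝ), 0 < ε → ∃ y ∈ Algebra.adjoin ℂ T, n2 (x - y) < ε)
    (a : (grpTr G).El) : Tendsto (fun n => n2 (w n * a - a * w n)) atTop (𝓝 0) := by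
  rw [Metric.tendsto_atTop]
  intro ε hε
  obtain ⟨y, hy, hay⟩ := hd a (ε / 2) (by linarith)
  obtain ⟨N, hN⟩ := eventually_comm hT hy
  refine ⟨N, fun n hn => ?_⟩
  have h0 : 0 ≤ n2 (w n * a - a * w n) := (grpTr G).norm2_nonneg _
  rw [Real.dist_eq, sub_zero, abs_of_nonneg h0]
  have e : w n * a - a * w n = w n * (a - y) - (a - y) * w n := by
    have h1 := hN n hn
    rw [mul_sub, sub_mul, h1]
    abel
  rw [e]
  have h2 : n2 (w n * (a - y) - (a - y) * w n) ≤ n2 (w n * (a - y)) + n2 ((a - y) * w n) :=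
    (grpTr G).norm2_sub_le _ _
  have h3 : n2 (w n * (a - y)) ≤ nop (w n) * n2 (a - y) := (grpTr G).norm2_mul_le _ _
  have h4 : n2 ((a - y) * w n) ≤ n2 (a - y) * nop (w n) := (grpTr G).norm2_mul_le' _ _
  have h5 : 0 ≤ n2 (a - y) := (grpTr G).norm2_nonneg _
  have h6 := mul_le_mul_of_nonneg_right (hw n) h5
  have h7 := mul_le_mul_of_nonneg_left (hw n) h5
  linarith

theorem not_mcDuff_of_csc (h : (grpTr G).CentralSequencesCommute) : ¬ (grpTr G).IsMcDuff := by
  rintro ⟨A, u, v, -, huv, hmn, hA, hgen⟩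
  let T : Set (grpTr G).El := {a | a ∈ A ∨ (∃ n, a = u n) ∨ ∃ n, a = v n}
  have himg : ((fun a : (grpTr G).El => (a : L2 G →L[ℂ] L2 G)) '' T) = {y : L2 G →L[ℂ] L2 G |
      (∃ a ∈ A, y = (a : (grpTr G).El)) ∨ (∃ n, y = (u n : (grpTr G).El)) ∨
        (∃ n, y = (v n : (grpTr G).El))} := by
    ext y
    constructor
    · rintro ⟨a, ha | ⟨n, rfl⟩ | ⟨n, rfl⟩, rfl⟩
      · exact Or.inl ⟨a, ha, rfl⟩
      · exact Or.inr (Or.inl ⟨n, rfl⟩)
      · exact Or.inr (Or.inr ⟨n, rfl⟩)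
    · rintro (⟨a, ha, rfl⟩ | ⟨n, rfl⟩ | ⟨n, rfl⟩)
      · exact ⟨a, Or.inl ha, rfl⟩
      · exact ⟨u n, Or.inr (Or.inl ⟨n, rfl⟩), rfl⟩
      · exact ⟨v n, Or.inr (Or.inr ⟨n, rfl⟩), rfl⟩
  have hT : ∀ a ∈ T, star a ∈ T := by
    rintro a (ha | ⟨n, rfl⟩ | ⟨n, rfl⟩)
    · exact Or.inl (star_mem ha)
    · exact Or.inr (Or.inl ⟨n, (huv n).1⟩)
    · exact Or.inr (Or.inr ⟨n, (huv n).2.2.1⟩)
  have hd : ∀ (x : (grpTr G).El) (ε : ℝ), 0 < ε →
      ∃ y ∈ Algebra.adjoin ℂ T, n2 (x - y) < ε := fun x ε hε =>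
    dense_adjoin T hT (by rw [himg]; exact hgen) x hε
  have hTu : ∀ a ∈ T, ∃ N, ∀ n ≥ N, a * u n = u n * a := by
    rintro a (ha | ⟨m, rfl⟩ | ⟨m, rfl⟩)
    · exact ⟨0, fun n _ => (hA a ha n).1⟩
    · refine ⟨m + 1, fun n hn => (hmn m n (by omega)).1⟩
    · refine ⟨m + 1, fun n hn => ((hmn n m (by omega)).2.1).symm⟩
  have hTv : ∀ a ∈ T, ∃ N, ∀ n ≥ N, a * v n = v n * a := by
    rintro a (ha | ⟨m, rfl⟩ | ⟨m, rfl⟩)
    · exact ⟨0, fun n _ => (hA a ha n).2⟩
    · refine ⟨m + 1, fun n hn => (hmn m n (by omega)).2.1⟩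
    · refine ⟨m + 1, fun n hn => (hmn m n (by omega)).2.2⟩
  have hu1 : ∀ n, star (u n) * u n = 1 := fun n => by
    rw [(huv n).1, (huv n).2.1]
  have hv1 : ∀ n, star (v n) * v n = 1 := fun n => by
    rw [(huv n).2.2.1, (huv n).2.2.2.1]
  have hlim := h u v ⟨1, fun n => ⟨nop_le_one (hu1 n), nop_le_one (hv1 n)⟩⟩
    (central hTu (fun n => nop_le_one (hu1 n)) hd) (central hTv (fun n => nop_le_one (hv1 n)) hd)
  have h2 : ∀ n, (grpTr G).norm2 (u n * v n - v n * u n) = 2 := by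
    intro n
    have e : u n * v n - v n * u n = (2 : ℂ) • (u n * v n) := by
      have h3 := (huv n).2.2.2.2
      have h4 : v n * u n = -(u n * v n) := by rw [h3, neg_neg]
      rw [h4, two_smul]
      abel
    have hw : star (u n * v n) * (u n * v n) = 1 := by
      rw [star_mul, (huv n).1, (huv n).2.2.1, mul_assoc, ← mul_assoc (u n) (u n), (huv n).2.1,
        one_mul, (huv n).2.2.2.1]
    rw [e, (grpTr G).norm2_smul]
    have h5 : (grpTr G).norm2 (u n * v n) = 1 := n2_unitary hw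
    rw [h5]
    simp
  have h6 : Tendsto (fun _ : ℕ => (2 : ℝ)) atTop (𝓝 0) := by
    refine hlim.congr fun n => ?_
    exact h2 n
  have h7 := tendsto_nhds_unique h6 tendsto_const_nhds
  norm_num at h7

end MPc72427
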