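import Pool.Agent.Work.MP_c72427_an.U.P
import Pool.Agent.Work.MP_c72427_an.U.FinExh
import Pool.Agent.Work.MP_c72427_an.U.Sup

set_option autoImplicit false

/-!
# MP_c72427_an, module Mix

The mixing lemma.

PROOF. `ρ_j = rhoOp (w ^ j)⁻¹`, an isometry, `K' = max K 0`. Choose `η > 0` with `2 K' ‖ξ‖ η + K' η² ≤ δ`, hmm: choose a finite set `T`
with `‖rst Tᶜ ξ‖ < η` (`exists_finset`) and put `ξ' = rst T ξ`, so `‖ξ - ξ'‖ < η`, `‖ξ'‖ ≤ ‖ξ‖` (`sub_rst`, `norm_rst_le`). Then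
`|⟪ρ_j ξ, α ξ⟫ - ⟪ρ_j ξ', α ξ'⟫| ≤ 2 K' ‖ξ‖ ‖ξ - ξ'‖ ≤ δ` if `η` is small. Claim: for `j` large `⟪ρ_j ξ', α ξ'⟫ = 0` for all `α`
supported on `S`. `ξ' = ∑_{g ∈ T, g ∉ C} ξ g • e g` (for `g ∈ C` `ξ g = 0` by `hξ`), so the inner product is a finite sum of the
terms `star (ξ g) * ξ h * ⟪ρ_j (e g), α (e h)⟫`, and `ρ_j (e g) = e (g * w ^ j)` (`rhoOp_e`),
`⟪e (g * w ^ j), α (e h)⟫ = α (e h) (g * w ^ j) = vec α (g * w ^ j * h⁻¹)` (`inner_e_left`, `entry`), which is zero unless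
`g * w ^ j * h⁻¹ ∈ S` (`supp_iff`). For fixed `g, h ∉ C` there is at most one `j`: if `g w^j h⁻¹ ∈ S` and `g w^k h⁻¹ ∈ S`, `j ≠ k`,
then `(g w^j h⁻¹) (g w^k h⁻¹)⁻¹ = g w^(j-k) g⁻¹ ∈ S`, against `hw` (with `m = j - k` in `ℤ`). So for the finitely many pairs `g, h ∈ T`
there is a `j₀` such that no `j ≥ j₀` occurs.
-/

namespace MPc72427

open Filter Topology
open scoped InnerProductSpace

variable {G : Type} [Group G]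

private theorem norm_app_le (α : (grpTr G).El) (f : L2 G) {K : ℝ} (hK : nop α ≤ K) :
    ‖(α : L2 G →L[ℂ] L2 G) f‖ ≤ K * ‖f‖ :=
  ((α : L2 G →L[ℂ] L2 G).le_opNorm f).trans (mul_le_mul_of_nonneg_right hK (norm_nonneg _))

private theorem rst_finset {X : Type} (T : Finset X) (ξ : L2 X) :
    rst (T : Set X) ξ = ∑ g ∈ T, ξ g • (e g : L2 X) := by
  classical
  ext x
  have h1 : ((∑ g ∈ T, ξ g • (e g : L2 X) : L2 X)) x = ∑ g ∈ T, ξ g * (e g : L2 X) x := by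
    rw [← inner_e_left, inner_sum]
    refine Finset.sum_congr rfl fun g _ => ?_
    rw [inner_smul_right, inner_e_left]
  rw [h1]
  by_cases hx : x ∈ T
  · rw [rst_apply_of_mem (by simpa using hx), Finset.sum_eq_single x]
    · rw [e_apply, if_pos rfl, mul_one]
    · intro g _ hg
      rw [e_apply, if_neg (fun h => hg h.symm), mul_zero]
    · intro h
      exact absurd hx h
  · rw [rst_apply_of_notMem (by simpa using hx)]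
    refine (Finset.sum_eq_zero fun g hg => ?_).symm
    rw [e_apply, if_neg (by rintro rfl; exact hx hg), mul_zero]

private theorem entry_zero {S : Subgroup G} {α : (grpTr G).El} (hα : Supp (S : Set G) α)
    {g h w : G} (hn : g * w * h⁻¹ ∉ S) :
    ⟪rhoOp w⁻¹ (e g : L2 G), (α : L2 G →L[ℂ] L2 G) (e h)⟫_ℂ = 0 := by
  rw [rhoOp_e, inv_inv, inner_e_left, entry α.2]
  exact (supp_iff.1 hα) _ hn

private theorem exists_index (S C : Subgroup G) (w : G)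
    (hw : ∀ g ∉ C, ∀ m : ℤ, m ≠ 0 → g * w ^ m * g⁻¹ ∉ S) (g h : G) (hg : g ∉ C) :
    ∃ j₀ : ℕ, ∀ j : ℕ, j₀ ≤ j → g * w ^ j * h⁻¹ ∉ S := by
  by_cases hex : ∃ j : ℕ, g * w ^ j * h⁻¹ ∈ S
  · obtain ⟨k, hk⟩ := hex
    refine ⟨k + 1, fun j hj hm => ?_⟩
    refine hw g hg ((j : ℤ) - (k : ℤ)) (by omega) ?_
    have h1 := S.mul_mem hm (S.inv_mem hk)
    have h2 : g * w ^ j * h⁻¹ * (g * w ^ k * h⁻¹)⁻¹ = g * w ^ ((j : ℤ) - (k : ℤ)) * g⁻¹ := by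
      rw [zpow_sub, zpow_natCast, zpow_natCast]
      group
    rwa [h2] at h1
  · exact ⟨0, fun j _ hm => hex ⟨j, hm⟩⟩

theorem mixing (S C : Subgroup G) (w : G)
    (hw : ∀ g ∉ C, ∀ m : ℤ, m ≠ 0 → g * w ^ m * g⁻¹ ∉ S) (ξ : L2 G) (hξ : rst (C : Set G) ξ = 0)
    (K : ℝ) {δ : ℝ} (hδ : 0 < δ) :
    ∃ j₀ : ℕ, ∀ j : ℕ, j₀ ≤ j → ∀ α : (grpTr G).El, Supp (S : Set G) α → nop α ≤ K →
      ‖⟪rhoOp (w ^ j)⁻¹ ξ, (α : L2 G →L[ℂ] L2 G) ξ⟫_ℂ‖ ≤ δ := by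
  classical
  -- the approximation
  set K' : ℝ := max K 0 with hK'
  have hK0 : 0 ≤ K' := le_max_right _ _
  have hD : 0 < 2 * K' * ‖ξ‖ + 1 := by positivity
  obtain ⟨T, hT⟩ := exists_finset ξ (δ := δ / (2 * K' * ‖ξ‖ + 1)) (by positivity)
  set ξ' : L2 G := rst (T : Set G) ξ with hξ'
  have hdiff : ‖ξ - ξ'‖ < δ / (2 * K' * ‖ξ‖ + 1) := by
    rw [hξ', sub_rst]
    exact hT
  have hle : ‖ξ'‖ ≤ ‖ξ‖ := norm_rst_le _ _
  -- the exceptional indices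
  have hpairs : ∀ p : G × G, ∃ j₀ : ℕ, p.1 ∉ C → ∀ j : ℕ, j₀ ≤ j → p.1 * w ^ j * p.2⁻¹ ∉ S := by
    intro p
    by_cases hp : p.1 ∈ C
    · exact ⟨0, fun h => absurd hp h⟩
    · obtain ⟨j₀, h⟩ := exists_index S C w hw p.1 p.2 hp
      exact ⟨j₀, fun _ => h⟩
  choose J hJ using hpairs
  refine ⟨(T ×ˢ T).sup J, fun j hj α hα hn => ?_⟩
  have hαK : nop α ≤ K' := hn.trans (le_max_left _ _)
  have hzero : ⟪rhoOp (w ^ j)⁻¹ ξ', (α : L2 G →L[ℂ] L2 G) ξ'⟫_ℂ = 0 := by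
    rw [hξ', rst_finset, map_sum, map_sum, sum_inner]
    refine Finset.sum_eq_zero fun g hg => ?_
    rw [inner_sum]
    refine Finset.sum_eq_zero fun h hh => ?_
    rw [map_smul, map_smul, inner_smul_left, inner_smul_right]
    by_cases hgC : g ∈ C
    · have h0 : ξ g = 0 := by
        have h1 : rst (C : Set G) ξ g = 0 := by
          rw [hξ]
          rfl
        rwa [rst_apply_of_mem hgC] at h1
      rw [h0, map_zero, zero_mul]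
    · have h2 : J (g, h) ≤ j :=
        (Finset.le_sup (f := J) (Finset.mem_product.2 ⟨hg, hh⟩ : (g, h) ∈ T ×ˢ T)).trans hj
      rw [entry_zero hα (hJ (g, h) hgC j h2), mul_zero, mul_zero]
  have hrho : ∀ f : L2 G, ‖rhoOp (w ^ j)⁻¹ f‖ = ‖f‖ := fun f => norm_perm _ f
  have heq : ⟪rhoOp (w ^ j)⁻¹ ξ, (α : L2 G →L[ℂ] L2 G) ξ⟫_ℂ =
      ⟪rhoOp (w ^ j)⁻¹ (ξ - ξ'), (α : L2 G →L[ℂ] L2 G) ξ⟫_ℂ +
      ⟪rhoOp (w ^ j)⁻¹ ξ', (α : L2 G →L[ℂ] L2 G) (ξ - ξ')⟫_ℂ := by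
    rw [map_sub, map_sub, inner_sub_left, inner_sub_right, hzero]
    ring
  have hb1 : ‖⟪rhoOp (w ^ j)⁻¹ (ξ - ξ'), (α : L2 G →L[ℂ] L2 G) ξ⟫_ℂ‖ ≤ ‖ξ - ξ'‖ * (K' * ‖ξ‖) := by
    refine (norm_inner_le_norm _ _).trans ?_
    rw [hrho]
    exact mul_le_mul_of_nonneg_left (norm_app_le α ξ hαK) (norm_nonneg _)
  have hb2 : ‖⟪rhoOp (w ^ j)⁻¹ ξ', (α : L2 G →L[ℂ] L2 G) (ξ - ξ')⟫_ℂ‖ ≤
      ‖ξ‖ * (K' * ‖ξ - ξ'‖) := by
    refine (norm_inner_le_norm _ _).trans ?_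
    rw [hrho]
    exact mul_le_mul hle (norm_app_le α _ hαK) (norm_nonneg _) (norm_nonneg _)
  rw [heq]
  refine (norm_add_le _ _).trans ((add_le_add hb1 hb2).trans ?_)
  have h3 : ‖ξ - ξ'‖ * (K' * ‖ξ‖) + ‖ξ‖ * (K' * ‖ξ - ξ'‖) = ‖ξ - ξ'‖ * (2 * K' * ‖ξ‖) := by ring
  rw [h3]
  calc ‖ξ - ξ'‖ * (2 * K' * ‖ξ‖) ≤ (δ / (2 * K' * ‖ξ‖ + 1)) * (2 * K' * ‖ξ‖ + 1) :=
        mul_le_mul hdiff.le (by linarith) (by positivity) (by positivity)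
    _ = δ := by field_simp

end MPc72427
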