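import Pool.Agent.Work.MP_c72427_an.U.P
import Pool.Agent.Work.MP_c72427_an.U.Mix
import Pool.Agent.Work.MP_c72427_an.U.Sup

set_option autoImplicit false

/-!
# MP_c72427_an, module NormE

The key estimate: an element which conjugates the powers of `w` into the algebra of `S` is close to the algebra of `C`.

PROOF. `ξ = vec z`, `ξ₂ = rst Cᶜ ξ`. `mixing` for `ξ₂` (`rst C ξ₂ = 0` by `rst_rst_compl`) with `δ` gives `j₀`. Let `j ≥ j₀`,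
`ρ = rhoOp (w^j)⁻¹`. `vec (α * z - z * lam (w^j)) = α ξ - ρ ξ` (`vec_mul`, `vec_mul_lam`). `rst C` commutes with `α` (`rst_comm`, `hSC`)
and with `ρ` (`rst_rho`, `w^j ∈ S ≤ C`), so `rst Cᶜ = 1 - rst C` also does, and `α ξ₂ - ρ ξ₂ = rst Cᶜ (α ξ - ρ ξ)` has norm
`≤ n2 (α * z - z * lam (w^j)) =: ε` (`norm_rst_le`, `norm2_eq`). `‖ξ₂‖² = ‖ρ ξ₂‖² = ⟪ρ ξ₂, ρ ξ₂⟫ = ⟪ρ ξ₂, α ξ₂⟫ - ⟪ρ ξ₂, α ξ₂ - ρ ξ₂⟫`,
so `‖ξ₂‖² ≤ δ + ‖ξ₂‖ ε ≤ δ + ‖ξ‖ ε` (`norm_perm` for the isometry `ρ`, Cauchy-Schwarz `norm_inner_le_norm`).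
-/

namespace MPc72427

open Filter Topology
open scoped InnerProductSpace

variable {G : Type} [Group G]

theorem norm_rst_compl_sq_le (S C : Subgroup G) (hSC : S ≤ C) (w : G) (hwS : w ∈ S)
    (hw : ∀ g ∉ C, ∀ m : ℤ, m ≠ 0 → g * w ^ m * g⁻¹ ∉ S) (z : (grpTr G).El)
    (K : ℝ) {δ : ℝ} (hδ : 0 < δ) :
    ∃ j₀ : ℕ, ∀ j : ℕ, j₀ ≤ j → ∀ α : (grpTr G).El, Supp (S : Set G) α → nop α ≤ K →
      ‖rst (C : Set G)ᶜ (vec z)‖ ^ 2 ≤ δ + ‖vec z‖ * n2 (α * z - z * lam (w ^ j)) := by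
  have h0 : rst (C : Set G) (rst (C : Set G)ᶜ (vec z)) = 0 := rst_rst_compl _ _
  obtain ⟨j₀, hj₀⟩ := mixing S C w hw (rst (C : Set G)ᶜ (vec z)) h0 K hδ
  refine ⟨j₀, fun j hj α hα hK => ?_⟩
  have h1 := hj₀ j hj α hα hK
  have hwC : (w ^ j)⁻¹ ∈ C := C.inv_mem (C.pow_mem (hSC hwS) j)
  have e1 : vec (α * z - z * lam (w ^ j)) =
      (α : L2 G →L[ℂ] L2 G) (vec z) - rhoOp (w ^ j)⁻¹ (vec z) := by
    rw [vec_sub, vec_mul, vec_mul_lam]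
  have e2 : (α : L2 G →L[ℂ] L2 G) (rst (C : Set G)ᶜ (vec z)) -
      rhoOp (w ^ j)⁻¹ (rst (C : Set G)ᶜ (vec z)) =
      rst (C : Set G)ᶜ ((α : L2 G →L[ℂ] L2 G) (vec z) - rhoOp (w ^ j)⁻¹ (vec z)) := by
    have a1 := rst_comm hSC hα (vec z)
    have a2 := rst_rho hwC (vec z)
    rw [map_sub (rst (C : Set G)ᶜ), ← sub_rst, ← sub_rst, ← sub_rst, a1, a2, map_sub, map_sub]
  have e3 : ‖(α : L2 G →L[ℂ] L2 G) (rst (C : Set G)ᶜ (vec z)) -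
      rhoOp (w ^ j)⁻¹ (rst (C : Set G)ᶜ (vec z))‖ ≤ n2 (α * z - z * lam (w ^ j)) := by
    rw [e2]
    refine (norm_rst_le _ _).trans (le_of_eq ?_)
    rw [← e1]
    exact (norm2_eq _).symm
  have e5 : ‖rhoOp (w ^ j)⁻¹ (rst (C : Set G)ᶜ (vec z))‖ = ‖rst (C : Set G)ᶜ (vec z)‖ :=
    norm_perm _ _
  have e6 : ‖rst (C : Set G)ᶜ (vec z)‖ ≤ ‖vec z‖ := norm_rst_le _ _
  have e7 : ‖rst (C : Set G)ᶜ (vec z)‖ ^ 2 =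
      ‖⟪rhoOp (w ^ j)⁻¹ (rst (C : Set G)ᶜ (vec z)),
        rhoOp (w ^ j)⁻¹ (rst (C : Set G)ᶜ (vec z))⟫_ℂ‖ := by
    rw [inner_self_eq_norm_sq_to_K, norm_pow, e5]
    simp
  have e8 : ⟪rhoOp (w ^ j)⁻¹ (rst (C : Set G)ᶜ (vec z)),
        rhoOp (w ^ j)⁻¹ (rst (C : Set G)ᶜ (vec z))⟫_ℂ =
      ⟪rhoOp (w ^ j)⁻¹ (rst (C : Set G)ᶜ (vec z)),
        (α : L2 G →L[ℂ] L2 G) (rst (C : Set G)ᶜ (vec z))⟫_ℂ -
      ⟪rhoOp (w ^ j)⁻¹ (rst (C : Set G)ᶜ (vec z)),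
        (α : L2 G →L[ℂ] L2 G) (rst (C : Set G)ᶜ (vec z)) -
          rhoOp (w ^ j)⁻¹ (rst (C : Set G)ᶜ (vec z))⟫_ℂ := by
    rw [← inner_sub_right, sub_sub_cancel]
  rw [e7, e8]
  refine (norm_sub_le _ _).trans (add_le_add h1 ((norm_inner_le_norm _ _).trans ?_))
  rw [e5]
  exact mul_le_mul e6 e3 (norm_nonneg _) (norm_nonneg _)

end MPc72427
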