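import Pool.Agent.Work.MP_c72427_an.U.P
import Pool.Agent.Work.MP_c72427_an.U.GapC
import Pool.Agent.Work.MP_c72427_an.U.Est
import Pool.Agent.Work.MP_c72427_an.U.NormE
import Pool.Agent.Work.MP_c72427_an.U.FinExh
import Pool.Agent.Work.MP_c72427_an.U.FactC

set_option autoImplicit false

/-!
# MP_c72427_an, module PC

The invariant fails for the ultrapowers of the second factor.

PROOF. `M = grpTr GC`. Given `v₁, v₂` choose bounded families `V₁, V₂`, `δ` from `CtblyIncomplete.exists_small`, and `n i` with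
`‖rst (SubC (n i))ᶜ (vec (V_j i))‖ < δ i` (`tendsto_exhaust`, `subC_mono`, `subC_exh`). Take `s₁ = cls (lam (tC (n i) 0))`,
`s₂ = cls (lam (tC (n i) (single 0 1)))`. Suppose `z` is as in `PP`: `star z * z = 1`, `z C z* ⊆ C` and `w ∈ C`; show `z w = w z`.
`z = cls Z`, `‖Z i‖ ≤ K`. For each `i` `norm_rst_compl_sq_le (SubS (n i)) (SubC (n i)) (subS_le _) (wC (n i + 1)) (wC_mem _)
(conj_notMem _) (Z i) (K ^ 2) (δ i > 0)` gives `j i`. Let `u = cls (lam (wC (n i + 1) ^ j i))`. `u ∈ C`: it commutes exactly with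
`s₁, s₂` (`tC_mem`, `subS_comm`, `lam_mul`), and with `v_j` by `est_lam` (`subS_comm`): `≤ 2 δ i`. So `z u z* ∈ C`; it commutes with
`s₁, s₂`, so by `gapC` `r i = ‖rst (SubS (n i))ᶜ (vec (Z i * lam (..) * star (Z i)))‖ → 0`. Let `α i` be the conditional expectation
(`exists_exp`) of `Z i * lam (..) * star (Z i)` onto `SubS (n i)`, `nop (α i) ≤ K²`. Then
`n2 (α i * Z i - Z i * lam ..) ≤ n2 ((α i - Z i lam (Z i)*) Z i) + n2 (Z i lam ((Z i)* Z i - 1)) ≤ K r i + K n2 ((Z i)* Z i - 1) → 0`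
(`star z * z = 1`). So `‖rst (SubC (n i))ᶜ (vec (Z i))‖² ≤ δ i + ‖vec (Z i)‖ * (..) → 0` (`‖vec (Z i)‖ ≤ K`, it is
`‖Z i (e 1)‖`), hence `‖rst (SubC (n i))ᶜ (vec (Z i))‖ → 0`. For `w = cls W ∈ C`, `gapC` gives
`‖rst (SubS (n i))ᶜ (vec (W i))‖ → 0`. By `est_SC` (`S = SubS (n i)`, `C = SubC (n i)`, `subS_comm`) `n2 (Z i W i - W i Z i) → 0`, so
`z w = w z` (`cls_comm_iff`). Contradiction.
-/

namespace MPc72427

open Filter Topology
open scoped InnerProductSpace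

universe v

private theorem n2_sub_comm (a b : (grpTr GC).El) : n2 (a - b) = n2 (b - a) := by
  have := (grpTr GC).norm2_neg (a - b)
  rw [neg_sub] at this
  exact this.symm

private theorem norm_vec_le (a : (grpTr GC).El) : ‖vec a‖ ≤ nop a := by
  have h := (a : L2 GC →L[ℂ] L2 GC).le_opNorm (e 1)
  rw [norm_e, mul_one] at h
  exact h

theorem not_PP_gamma {I : Type v} (U : Ultrafilter I) (hU : CtblyIncomplete U) :
    ¬ PP ((grpTr GC).Ult U) := by
  rintro ⟨v₁, v₂, h⟩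
  obtain ⟨δ, hδ, hδ0⟩ := hU.exists_small
  obtain ⟨V₁, rfl⟩ := (grpTr GC).cls_surjective U v₁
  obtain ⟨V₂, rfl⟩ := (grpTr GC).cls_surjective U v₂
  have hn : ∀ i, ∃ n, ‖rst (SubC n : Set GC)ᶜ (vec (V₁.1 i))‖ < δ i ∧
      ‖rst (SubC n : Set GC)ᶜ (vec (V₂.1 i))‖ < δ i := by
    intro i
    have h1 := tendsto_exhaust (fun n => (SubC n : Set GC)) (fun m n h => subC_mono h)
      (fun x => subC_exh x) (vec (V₁.1 i))
    have h2 := tendsto_exhaust (fun n => (SubC n : Set GC)) (fun m n h => subC_mono h)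
      (fun x => subC_exh x) (vec (V₂.1 i))
    exact ((h1.eventually_lt_const (hδ i)).and (h2.eventually_lt_const (hδ i))).exists
  choose n hn1 hn2 using hn
  let A₁ : (grpTr GC).bdd I := (grpTr GC).fam (fun i => lam (tC (n i) 0))
    ⟨1, fun _ => opNorm_lam_le _⟩
  let A₂ : (grpTr GC).bdd I := (grpTr GC).fam (fun i => lam (tC (n i) (Finsupp.single 0 1)))
    ⟨1, fun _ => opNorm_lam_le _⟩
  obtain ⟨z, hz1, hz2, w, hw, hzw⟩ := h ((grpTr GC).cls U A₁) ((grpTr GC).cls U A₂)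
  obtain ⟨Z, rfl⟩ := (grpTr GC).cls_surjective U z
  obtain ⟨W, rfl⟩ := (grpTr GC).cls_surjective U w
  have gap : ∀ X : (grpTr GC).bdd I,
      (grpTr GC).cls U A₁ * (grpTr GC).cls U X = (grpTr GC).cls U X * (grpTr GC).cls U A₁ →
      (grpTr GC).cls U A₂ * (grpTr GC).cls U X = (grpTr GC).cls U X * (grpTr GC).cls U A₂ →
      Tendsto (fun i => ‖rst (SubS (n i) : Set GC)ᶜ (vec (X.1 i))‖) U (𝓝 0) := by
    intro X h1 h2
    rw [TracialVNA.cls_comm_iff] at h1 h2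
    refine squeeze_zero (fun i => norm_nonneg _) (fun i => gapC (n i) (X.1 i)) ?_
    have h3 := (h1.max h2).const_mul 10
    rw [max_self, mul_zero] at h3
    exact h3
  obtain ⟨K, hK⟩ := Z.2
  have hK0 : ∀ _ : I, 0 ≤ K := fun i => ((grpTr GC).opNorm_nonneg _).trans (hK i)
  have hj : ∀ i, ∃ j : ℕ, ∀ α : (grpTr GC).El, Supp (SubS (n i) : Set GC) α → nop α ≤ K * K →
      ‖rst (SubC (n i) : Set GC)ᶜ (vec (Z.1 i))‖ ^ 2 ≤
        δ i + ‖vec (Z.1 i)‖ * n2 (α * Z.1 i - Z.1 i * lam (wC (n i + 1) ^ j)) := by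
    intro i
    obtain ⟨j₀, h0⟩ := norm_rst_compl_sq_le (SubS (n i)) (SubC (n i)) (subS_le _) (wC (n i + 1))
      (wC_mem _) (conj_notMem _) (Z.1 i) (K * K) (hδ i)
    exact ⟨j₀, h0 j₀ le_rfl⟩
  choose j hj using hj
  let L : (grpTr GC).bdd I := (grpTr GC).fam (fun i => lam (wC (n i + 1) ^ j i))
    ⟨1, fun _ => opNorm_lam_le _⟩
  have hmem : ∀ i, wC (n i + 1) ^ j i ∈ SubS (n i) := fun i => pow_mem (wC_mem _) _
  have hV : ∀ V : (grpTr GC).bdd I, (∀ i, ‖rst (SubC (n i) : Set GC)ᶜ (vec (V.1 i))‖ < δ i) →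
      (grpTr GC).cls U V * (grpTr GC).cls U L = (grpTr GC).cls U L * (grpTr GC).cls U V := by
    intro V hV
    rw [TracialVNA.cls_comm_iff]
    have h1 : Tendsto (fun i => 2 * δ i) U (𝓝 0) := by simpa using hδ0.const_mul 2
    refine squeeze_zero (fun i => (grpTr GC).norm2_nonneg _) (fun i => ?_) h1
    have h2 := est_lam (C := SubC (n i)) (s := wC (n i + 1) ^ j i)
      (subS_comm (n i) _ (hmem i)) (V.1 i)
    rw [n2_sub_comm] at h2
    exact h2.trans (mul_le_mul_of_nonneg_left (hV i).le (by norm_num))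
  have hA : ∀ (t : ℕ →₀ ℤ) (A : (grpTr GC).bdd I), (∀ i, A.1 i = lam (tC (n i) t)) →
      (grpTr GC).cls U A * (grpTr GC).cls U L = (grpTr GC).cls U L * (grpTr GC).cls U A := by
    intro t A hA
    rw [← TracialVNA.cls_mul, ← TracialVNA.cls_mul]
    congr 1
    refine Subtype.ext (funext fun i => ?_)
    change A.1 i * lam (wC (n i + 1) ^ j i) = lam (wC (n i + 1) ^ j i) * A.1 i
    rw [hA, ← lam_mul, ← lam_mul, subS_comm (n i) _ (hmem i) _ (tC_mem (n i) t)]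
  have hc := hz2 ((grpTr GC).cls U L) ⟨hV V₁ hn1, hV V₂ hn2, hA 0 A₁ fun i => rfl,
    hA (Finsupp.single 0 1) A₂ fun i => rfl⟩
  have hr := gap (Z * L * star Z) hc.2.2.1 hc.2.2.2
  have hm : Tendsto (fun i => (grpTr GC).norm2 (star (Z.1 i) * Z.1 i - 1)) U (𝓝 0) := by
    rw [← TracialVNA.cls_star, ← TracialVNA.cls_mul, ← TracialVNA.cls_one,
      TracialVNA.cls_eq_cls] at hz1
    exact hz1
  have hq : ∀ i, ‖rst (SubC (n i) : Set GC)ᶜ (vec (Z.1 i))‖ ^ 2 ≤
      δ i + K * (‖rst (SubS (n i) : Set GC)ᶜ (vec ((Z * L * star Z).1 i))‖ * K +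
        K * (grpTr GC).norm2 (star (Z.1 i) * Z.1 i - 1)) := by
    intro i
    set Y : (grpTr GC).El := (Z * L * star Z).1 i with hY
    have hY' : Y = Z.1 i * lam (wC (n i + 1) ^ j i) * star (Z.1 i) := rfl
    obtain ⟨α, hα1, hα2⟩ := exists_condExp (SubS (n i)) Y
    have hZL : nop (Z.1 i * lam (wC (n i + 1) ^ j i)) ≤ K := by
      refine ((grpTr GC).opNorm_mul_le _ _).trans ?_
      calc (grpTr GC).opNorm (Z.1 i) * (grpTr GC).opNorm (lam (wC (n i + 1) ^ j i))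
          ≤ K * 1 := mul_le_mul (hK i) (opNorm_lam_le _) ((grpTr GC).opNorm_nonneg _) (hK0 i)
        _ = K := mul_one K
    have hYK : nop Y ≤ K * K := by
      rw [hY']
      refine ((grpTr GC).opNorm_mul_le _ _).trans ?_
      refine mul_le_mul hZL ?_ ((grpTr GC).opNorm_nonneg _) (hK0 i)
      rw [(grpTr GC).opNorm_star]
      exact hK i
    have hs : Supp (SubS (n i) : Set GC) α := by
      rw [Supp, hα1, rst_rst_self]
    refine (hj i α hs (hα2.trans hYK)).trans (add_le_add le_rfl ?_)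
    refine mul_le_mul ((norm_vec_le _).trans (hK i)) ?_ ((grpTr GC).norm2_nonneg _) (hK0 i)
    have e1 : α * Z.1 i - Z.1 i * lam (wC (n i + 1) ^ j i) = (α - Y) * Z.1 i +
        Z.1 i * lam (wC (n i + 1) ^ j i) * (star (Z.1 i) * Z.1 i - 1) := by
      rw [hY']
      noncomm_ring
    rw [e1]
    refine ((grpTr GC).norm2_add_le _ _).trans (add_le_add ?_ ?_)
    · refine ((grpTr GC).norm2_mul_le' _ _).trans ?_
      have e2 : (grpTr GC).norm2 (α - Y) = ‖rst (SubS (n i) : Set GC)ᶜ (vec Y)‖ := by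
        rw [norm2_eq, vec_sub, hα1, ← sub_rst, norm_sub_rev]
      rw [e2]
      exact mul_le_mul_of_nonneg_left (hK i) (norm_nonneg _)
    · refine ((grpTr GC).norm2_mul_le _ _).trans ?_
      exact mul_le_mul_of_nonneg_right hZL ((grpTr GC).norm2_nonneg _)
  have hq2 : Tendsto (fun i => ‖rst (SubC (n i) : Set GC)ᶜ (vec (Z.1 i))‖ ^ 2) U (𝓝 0) := by
    refine squeeze_zero (fun i => by positivity) hq ?_
    have h1 := hδ0.add (((hr.mul_const K).add (hm.const_mul K)).const_mul K)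
    simpa using h1
  have hq3 : Tendsto (fun i => ‖rst (SubC (n i) : Set GC)ᶜ (vec (Z.1 i))‖) U (𝓝 0) := by
    have h1 := hq2.sqrt
    rw [Real.sqrt_zero] at h1
    refine h1.congr fun i => ?_
    exact Real.sqrt_sq (norm_nonneg _)
  have hW := gap W hw.2.2.1 hw.2.2.2
  refine hzw ((grpTr GC).cls_comm_iff.2 ?_)
  obtain ⟨D, hD⟩ := W.2
  have h1 : Tendsto (fun i => 2 * D * ‖rst (SubC (n i) : Set GC)ᶜ (vec (Z.1 i))‖ +
      2 * K * ‖rst (SubS (n i) : Set GC)ᶜ (vec (W.1 i))‖) U (𝓝 0) := by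
    simpa using (hq3.const_mul (2 * D)).add (hW.const_mul (2 * K))
  refine squeeze_zero (fun i => (grpTr GC).norm2_nonneg _) (fun i => ?_) h1
  refine (est_SC (subS_comm (n i)) (Z.1 i) (W.1 i)).trans (add_le_add ?_ ?_)
  · exact mul_le_mul_of_nonneg_right (mul_le_mul_of_nonneg_left (hD i) (by norm_num))
      (norm_nonneg _)
  · exact mul_le_mul_of_nonneg_right (mul_le_mul_of_nonneg_left (hK i) (by norm_num))
      (norm_nonneg _)

end MPc72427
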