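import Pool.Agent.Work.MP_c72427_an.U.P

set_option autoImplicit false

/-!
# MP_c72427_an, module PInv

The two invariants are invariant under star isomorphisms.

PROOF. Transport along `Φ` and `Φ.symm` (`map_mul`, `map_star`, `map_one`, `Φ.apply_symm_apply`, injectivity). For `Sep` the scalars are
preserved: `Φ (c • 1) = c • 1`.
-/

namespace MPc72427

open Filter Topology
open scoped InnerProductSpace

theorem PP_of_starAlgEquiv {A B : Type*} [Ring A] [StarRing A] [Algebra ℂ A] [Ring B] [StarRing B]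
    [Algebra ℂ B] (Φ : A ≃⋆ₐ[ℂ] B) (h : PP A) : PP B := by
  obtain ⟨v₁, v₂, hv⟩ := h
  refine ⟨Φ v₁, Φ v₂, fun s₁ s₂ => ?_⟩
  obtain ⟨z, hz, hC, w, hw, hne⟩ := hv (Φ.symm s₁) (Φ.symm s₂)
  have key : ∀ w : A, Cm v₁ v₂ (Φ.symm s₁) (Φ.symm s₂) w ↔ Cm (Φ v₁) (Φ v₂) s₁ s₂ (Φ w) := by
    intro w
    have h1 : ∀ x y : A, x * y = y * x ↔ Φ x * Φ y = Φ y * Φ x := by
      intro x y
      rw [← map_mul, ← map_mul]
      exact ⟨fun h => by rw [h], fun h => EquivLike.injective Φ h⟩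
    unfold Cm
    rw [h1 v₁ w, h1 v₂ w, h1 (Φ.symm s₁) w, h1 (Φ.symm s₂) w, Φ.apply_symm_apply,
      Φ.apply_symm_apply]
  refine ⟨Φ z, ?_, fun w' hw' => ?_, Φ w, (key w).1 hw, fun h => hne ?_⟩
  · rw [← map_star, ← map_mul, hz, map_one]
  · have h2 := hC (Φ.symm w') ((key _).2 (by rwa [Φ.apply_symm_apply]))
    have h3 := (key _).1 h2
    rwa [map_mul, map_mul, map_star, Φ.apply_symm_apply] at h3
  · rw [← map_mul, ← map_mul] at h
    exact EquivLike.injective Φ h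

theorem Sep_of_starAlgEquiv {A B : Type*} [Ring A] [StarRing A] [Algebra ℂ A] [Ring B] [StarRing B]
    [Algebra ℂ B] (Φ : A ≃⋆ₐ[ℂ] B) (h : Sep A) : Sep B := by
  obtain ⟨a, ha⟩ := h
  refine ⟨fun n => Φ (a n), fun z hz => ?_⟩
  obtain ⟨c, hc⟩ := ha (Φ.symm z) fun n => by
    refine EquivLike.injective Φ ?_
    rw [map_mul, map_mul, Φ.apply_symm_apply]
    exact hz n
  refine ⟨c, ?_⟩
  have h1 := congrArg Φ hc
  rwa [Φ.apply_symm_apply, map_smul, map_one] at h1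

end MPc72427
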