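import Pool.Agent.Work.MP_c72427_an.U.P
import Pool.Agent.Work.MP_c72427_an.U.Const
import Pool.Agent.Work.MP_c72427_an.U.Est
import Pool.Agent.Work.MP_c72427_an.U.FinExh

set_option autoImplicit false

/-!
# MP_c72427_an, module SepA

The invariant `Sep` holds along the ultrafilters which are not countably incomplete and fails along the others.

PROOF. `sep_of_complete`: enumerate `G` (`exists_surjective_nat`), `a n = cls (constant lam (g n))`. If `z = cls Z` commutes with all
`a n`: by `eventually_const` `Z i = y` for almost all `i`, so `z = cls (constant y)` and `cls_comm_iff` gives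
`n2 (lam g * y - y * lam g) = 0` (a constant which tends to zero), `norm2_eq_zero`, so `y` commutes with all `lam g`, `y = c • 1` by
`hcen`, `z = c • 1`.
`not_sep_of_incomplete`: let `a n = cls (X n)`, `f` from `hU`. For each `i` choose `N i` with `‖rst (B (N i))ᶜ (vec (X k i))‖ <
1 / (f i + 1)` for all `k ≤ f i` (`tendsto_exhaust`, finitely many). `z = cls (lam (w (N i)))`. For fixed `k`, `f i ≥ k` for almost all
`i`, and `est_lam` gives `n2 (lam (w (N i)) * X k i - X k i * lam (w (N i))) ≤ 2 / (f i + 1) → 0`, so `z` commutes with `a k`. But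
`z ≠ c • 1`: `n2 (lam (w _) - c • 1) ≥ 1`, because the coordinate of `vec (lam w - c • 1) = e w - c • e 1` at `w ≠ 1` is `1` and
`‖f‖ ≥ |f g|` (`lp.norm_apply_le_norm`).
-/

namespace MPc72427

open Filter Topology
open scoped InnerProductSpace

universe v

theorem sep_of_complete {G : Type} [Group G] [Countable G] {I : Type v} {U : Ultrafilter I}
    (hcen : ∀ z : (grpTr G).El, (∀ g : G, lam g * z = z * lam g) →
      ∃ c : ℂ, z = c • (1 : (grpTr G).El))
    (hU : ¬ CtblyIncomplete U) : Sep ((grpTr G).Ult U) := by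
  obtain ⟨g, hg⟩ := exists_surjective_nat G
  set K : ℕ → (grpTr G).bdd I := fun n => (grpTr G).fam (fun _ => lam (g n)) ⟨1, fun _ =>
    opNorm_lam_le (g n)⟩ with hK
  refine ⟨fun n => (grpTr G).cls U (K n), ?_⟩
  intro z hz
  obtain ⟨Z, rfl⟩ := (grpTr G).cls_surjective U z
  obtain ⟨y, hy⟩ := eventually_const hU Z
  have hcomm : ∀ h : G, lam h * y = y * lam h := by
    intro h
    obtain ⟨n, rfl⟩ := hg h
    have h1 := ((grpTr G).cls_comm_iff (U := U)).1 (hz n)
    have h2 : Tendsto (fun i => (grpTr G).norm2 ((K n).1 i * Z.1 i - Z.1 i * (K n).1 i)) U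
        (𝓝 ((grpTr G).norm2 (lam (g n) * y - y * lam (g n)))) := by
      refine tendsto_const_nhds.congr' ?_
      filter_upwards [hy] with i hi
      rw [hi]
      rfl
    have h3 := tendsto_nhds_unique h2 h1
    exact sub_eq_zero.1 ((grpTr G).norm2_eq_zero h3)
  obtain ⟨c, hc⟩ := hcen y hcomm
  refine ⟨c, ?_⟩
  rw [← (grpTr G).cls_one U, ← (grpTr G).cls_smul U, (grpTr G).cls_eq_cls]
  refine tendsto_const_nhds.congr' ?_
  filter_upwards [hy] with i hi
  rw [hi, hc]
  change 0 = (grpTr G).norm2 (c • (1 : (grpTr G).El) - c • (1 : (grpTr G).El))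
  rw [sub_self, (grpTr G).norm2_zero]

theorem not_sep_of_incomplete {G : Type} [Group G] {I : Type v} {U : Ultrafilter I}
    (B : ℕ → Subgroup G) (hmono : Monotone B) (hexh : ∀ g, ∃ n, g ∈ B n)
    (w : ℕ → G) (hw1 : ∀ n, w n ≠ 1) (hw : ∀ n, ∀ g ∈ B n, w n * g = g * w n)
    (hU : CtblyIncomplete U) : ¬ Sep ((grpTr G).Ult U) := by
  rintro ⟨a, ha⟩
  have hX : ∀ n, ∃ x, (grpTr G).cls U x = a n := fun n => (grpTr G).cls_surjective U (a n)
  choose X hX using hX
  obtain ⟨f, hf⟩ := hU
  have hN : ∀ i : I, ∃ N : ℕ, ∀ k ∈ Finset.range (f i + 1),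
      ‖rst ((B N : Set G))ᶜ (vec ((X k).1 i))‖ < 1 / ((f i : ℝ) + 1) := by
    intro i
    have hpos : (0 : ℝ) < 1 / ((f i : ℝ) + 1) := by positivity
    have h1 : ∀ k ∈ Finset.range (f i + 1), ∀ᶠ n in atTop,
        ‖rst ((B n : Set G))ᶜ (vec ((X k).1 i))‖ < 1 / ((f i : ℝ) + 1) := by
      intro k _
      have h2 := tendsto_exhaust (fun n => (B n : Set G)) (fun m n h => hmono h) hexh
        (vec ((X k).1 i))
      exact h2.eventually (gt_mem_nhds hpos)
    exact ((Filter.eventually_all_finset _).2 h1).exists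
  choose N hN using hN
  set zf : (grpTr G).bdd I := (grpTr G).fam (fun i => lam (w (N i))) ⟨1, fun i =>
    opNorm_lam_le _⟩ with hzf
  have hz : ∀ n, a n * (grpTr G).cls U zf = (grpTr G).cls U zf * a n := by
    intro k
    rw [← hX k]
    refine Eq.symm (((grpTr G).cls_comm_iff (U := U)).2 ?_)
    have h0 : Tendsto (fun i => 2 * (1 / ((f i : ℝ) + 1))) U (𝓝 0) := by
      have := ((tendsto_one_div_add_atTop_nhds_zero_nat (𝕜 := ℝ)).comp hf).const_mul 2
      rw [mul_zero] at this
      exact this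
    refine squeeze_zero' (Eventually.of_forall fun i => (grpTr G).norm2_nonneg _) ?_ h0
    filter_upwards [hf.eventually (eventually_ge_atTop k)] with i hi
    have h1 := est_lam (C := B (N i)) (s := w (N i)) (fun c hc => hw (N i) c hc) ((X k).1 i)
    have h2 := hN i k (Finset.mem_range.2 (by omega))
    refine h1.trans ?_
    linarith
  obtain ⟨c, hc⟩ := ha _ hz
  rw [← (grpTr G).cls_one U, ← (grpTr G).cls_smul U, (grpTr G).cls_eq_cls] at hc
  have h1 : ∀ i, (1 : ℝ) ≤ (grpTr G).norm2 (zf.1 i - (c • (1 : (grpTr G).bdd I)).1 i) := by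
    intro i
    have h2 : zf.1 i - (c • (1 : (grpTr G).bdd I)).1 i =
        lam (w (N i)) - c • (1 : (grpTr G).El) := rfl
    rw [h2, norm2_eq, vec_sub, vec_smul, vec_one, vec_lam]
    have h3 := lp.norm_apply_le_norm (p := 2) (by norm_num)
      (e (w (N i)) - c • e (1 : G) : L2 G) (w (N i))
    refine le_trans (le_of_eq ?_) h3
    have h4 : (e (w (N i)) - c • e (1 : G) : L2 G) (w (N i)) = 1 := by
      have : (e (w (N i)) - c • e (1 : G) : L2 G) (w (N i)) =
          e (w (N i)) (w (N i)) - c • e (1 : G) (w (N i)) := rfl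
      rw [this, e_apply, e_apply, if_pos rfl, if_neg (hw1 _)]
      simp
    rw [h4]
    simp
  have h5 := ge_of_tendsto' hc h1
  linarith

end MPc72427
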