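import Pool.Agent.Work.MP_c72427_an.U.PB
import Pool.Agent.Work.MP_c72427_an.U.PC
import Pool.Agent.Work.MP_c72427_an.U.GamG
import Pool.Agent.Work.MP_c72427_an.U.CSC
import Pool.Agent.Work.MP_c72427_an.U.CenB
import Pool.Agent.Work.MP_c72427_an.U.CenC
import Pool.Agent.Work.MP_c72427_an.U.InfDim
import Pool.Agent.Work.MP_c72427_an.U.McD
import Pool.Agent.Work.MP_c72427_an.U.PInv
import Pool.Agent.Work.MP_c72427_an.U.SepA
import Pool.Agent.Work.MP_c72427_an.U.ConstIso
import Pool.Agent.Work.MP_c72427_an.U.Lift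

set_option autoImplicit false

/-!
Assembly.
-/

namespace MPc72427

open Filter Topology

universe u v

theorem subS_commutative : ∀ a ∈ SubS 0, ∀ b ∈ SubS 0, a * b = b * a :=
  fun a ha b hb => subS_comm 0 a ha b (subS_le 0 hb)

theorem csc_beta : (grpTr GB).CentralSequencesCommute :=
  csc_of LamB lamB_comm (aB 0) (aB 1) gapB

theorem csc_gamma : (grpTr GC).CentralSequencesCommute :=
  csc_of (SubS 0) subS_commutative (tC 0 0) (tC 0 (Finsupp.single 0 1)) (gapC 0)

theorem gamma_beta : (grpTr GB).HasGamma :=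
  hasGamma_of SubB subB_mono subB_exh wB wB_ne_one wB_comm

theorem gamma_gamma : (grpTr GC).HasGamma :=
  hasGamma_of SubC subC_mono subC_exh (fun n => wC (n + 1)) (fun n => wC_ne_one _)
    (fun n => subS_comm n _ (wC_mem n))

theorem factor_beta : (grpTr GB).IsII1Factor := by
  haveI := infinite_GB
  exact ⟨fun z hz => center_beta z fun g => (hz (lam g)).symm, not_finiteDimensional⟩

theorem factor_gamma : (grpTr GC).IsII1Factor := by
  haveI := infinite_GC
  exact ⟨fun z hz => center_gamma z fun g => (hz (lam g)).symm, not_finiteDimensional⟩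

theorem not_sep_beta {I : Type v} {U : Ultrafilter I} (hU : CtblyIncomplete U) :
    ¬ Sep ((grpTr GB).Ult U) :=
  not_sep_of_incomplete SubB subB_mono subB_exh wB wB_ne_one wB_comm hU

theorem not_sep_gamma {I : Type v} {U : Ultrafilter I} (hU : CtblyIncomplete U) :
    ¬ Sep ((grpTr GC).Ult U) :=
  not_sep_of_incomplete SubC subC_mono subC_exh (fun n => wC (n + 1)) (fun n => wC_ne_one _)
    (fun n => subS_comm n _ (wC_mem n)) hU

theorem sep_beta {I : Type v} {U : Ultrafilter I} (hU : ¬ CtblyIncomplete U) :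
    Sep ((grpTr GB).Ult U) := by
  haveI := countable_GB
  exact sep_of_complete center_beta hU

theorem sep_gamma {I : Type v} {U : Ultrafilter I} (hU : ¬ CtblyIncomplete U) :
    Sep ((grpTr GC).Ult U) := by
  haveI := countable_GC
  exact sep_of_complete center_gamma hU

/-- The ultrapowers are not isomorphic if one of the ultrafilters is countably incomplete. -/
theorem not_iso {I : Type u} {J : Type v} (U : Ultrafilter I) (V : Ultrafilter J)
    (h : CtblyIncomplete U ∨ CtblyIncomplete V) :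
    IsEmpty ((grpTr GB).Ult U ≃⋆ₐ[ℂ] (grpTr GC).Ult V) := by
  refine ⟨fun Φ => ?_⟩
  by_cases hU : CtblyIncomplete U
  · by_cases hV : CtblyIncomplete V
    · exact not_PP_gamma V hV (PP_of_starAlgEquiv Φ (PP_beta U hU))
    · exact not_sep_beta hU (Sep_of_starAlgEquiv Φ.symm (sep_gamma hV))
  · have hV : CtblyIncomplete V := h.resolve_left hU
    exact not_sep_gamma hV (Sep_of_starAlgEquiv Φ (sep_beta hU))

theorem hyper_incomplete : CtblyIncomplete (Filter.hyperfilter ℕ) :=
  ⟨id, by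
    rw [← Nat.cofinite_eq_atTop]
    exact Filter.hyperfilter_le_cofinite⟩

/-- No trace preserving isomorphism exists for any ultrafilters. -/
theorem not_iso' {I : Type u} {J : Type v} (U : Ultrafilter I) (V : Ultrafilter J)
    (Φ : (grpTr GB).Ult U ≃⋆ₐ[ℂ] (grpTr GC).Ult V) : ¬ TracePreserving Φ := by
  intro hΦ
  by_cases h : CtblyIncomplete U ∨ CtblyIncomplete V
  · exact (not_iso U V h).elim Φ
  · haveI := countable_GB
    haveI := countable_GC
    have h1 : ¬ CtblyIncomplete U := fun h' => h (Or.inl h')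
    have h2 : ¬ CtblyIncomplete V := fun h' => h (Or.inr h')
    obtain ⟨Ψ₁, hΨ₁⟩ := exists_constIso (G := GB) h1
    obtain ⟨Ψ₂, hΨ₂⟩ := exists_constIso (G := GC) h2
    let Θ : (grpTr GB).El ≃⋆ₐ[ℂ] (grpTr GC).El := (Ψ₁.trans Φ).trans Ψ₂.symm
    have hΘ : ∀ x, (grpTr GC).trace (Θ x) = (grpTr GB).trace x := by
      intro x
      obtain ⟨X, hX⟩ := (grpTr GB).cls_surjective U (Ψ₁ x)
      obtain ⟨Y, hY⟩ := (grpTr GC).cls_surjective V (Φ (Ψ₁ x))
      have e1 := hΨ₁ x X hX.symm
      have e2 : Φ ((grpTr GB).cls U X) = (grpTr GC).cls V Y := by rw [hX, hY]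
      have e3 := (hΦ X Y _ e2).1 e1
      have e4 : Ψ₂ (Θ x) = (grpTr GC).cls V Y := by
        change Ψ₂ (Ψ₂.symm (Φ (Ψ₁ x))) = _
        rw [StarAlgEquiv.apply_symm_apply, hY]
      exact tendsto_nhds_unique (hΨ₂ (Θ x) Y e4) e3
    obtain ⟨Λ⟩ := exists_lift (grpTr GB) (grpTr GC) Θ hΘ (Filter.hyperfilter ℕ)
    exact (not_iso (Filter.hyperfilter ℕ) (Filter.hyperfilter ℕ) (Or.inl hyper_incomplete)).elim Λ

end MPc72427
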