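import Pool.Agent.Work.MP_c72427_an.U.P

set_option autoImplicit false

/-!
# MP_c72427_an, module Lift

A trace preserving star isomorphism of two tracial von Neumann algebras induces a star isomorphism of their ultrapowers.

PROOF. `Φ` preserves the 2-norm (`trace (star (Φ x) * Φ x) = trace (Φ (star x * x))`). `Φ` preserves the operator norm: `M.El` is a
closed star subalgebra of `H →L[ℂ] H` (a commutant is closed: `M.toVonNeumannAlgebra.centralizer_centralizer'`, the carrier is a
centralizer, `Set.isClosed_centralizer` or similar), so it is a C*-algebra (`StarSubalgebra.cstarAlgebra S (h_closed := ..)`) and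
injective star homomorphisms between C*-algebras are isometric (`NonUnitalStarAlgHom.norm_map`, `StarAlgEquiv` version). Then
`x ↦ (i ↦ Φ (x i))` is a star isomorphism of the algebras of bounded families which respects the congruences in both directions; descend
to the quotients (`Quotient.lift` / choose representatives with `cls_surjective` and build the equivalence by hand).
-/

namespace MPc72427

open Filter Topology
open scoped InnerProductSpace

universe u u' v

theorem opNorm_map {H : Type u} [NormedAddCommGroup H] [InnerProductSpace ℂ H] [CompleteSpace H]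
    {H' : Type u'} [NormedAddCommGroup H'] [InnerProductSpace ℂ H'] [CompleteSpace H']
    (M : TracialVNA H) (M' : TracialVNA H') (Φ : M.El ≃⋆ₐ[ℂ] M'.El) (x : M.El) :
    M'.opNorm (Φ x) = M.opNorm x := by
  haveI h1 : IsClosed ((M.toStarSubalgebra : Set (H →L[ℂ] H))) := by
    have h := M.centralizer_centralizer'
    have h' : IsClosed (Set.centralizer (Set.centralizer (M.toStarSubalgebra.carrier))) :=
      Set.isClosed_centralizer _
    rw [h] at h'
    exact h'
  haveI h2 : IsClosed ((M'.toStarSubalgebra : Set (H' →L[ℂ] H'))) := by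
    have h := M'.centralizer_centralizer'
    have h' : IsClosed (Set.centralizer (Set.centralizer (M'.toStarSubalgebra.carrier))) :=
      Set.isClosed_centralizer _
    rw [h] at h'
    exact h'
  letI i1 : CStarAlgebra M.El := StarSubalgebra.cstarAlgebra M.toStarSubalgebra
  letI i2 : CStarAlgebra M'.El := StarSubalgebra.cstarAlgebra M'.toStarSubalgebra
  exact StarAlgEquiv.norm_map Φ x

private theorem norm2_map {H : Type u} [NormedAddCommGroup H] [InnerProductSpace ℂ H] [CompleteSpace H]
    {H' : Type u'} [NormedAddCommGroup H'] [InnerProductSpace ℂ H'] [CompleteSpace H']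
    (M : TracialVNA H) (M' : TracialVNA H') (Φ : M.El ≃⋆ₐ[ℂ] M'.El)
    (hΦ : ∀ x, M'.trace (Φ x) = M.trace x) (x : M.El) :
    M'.norm2 (Φ x) = M.norm2 x := by
  have h : Φ (star x * x) = star (Φ x) * Φ x := by rw [map_mul, map_star]
  rw [TracialVNA.norm2, TracialVNA.norm2, ← hΦ (star x * x), h]

/-- The map on bounded families. -/
private noncomputable def liftFam {H : Type u} [NormedAddCommGroup H] [InnerProductSpace ℂ H] [CompleteSpace H]
    {H' : Type u'} [NormedAddCommGroup H'] [InnerProductSpace ℂ H'] [CompleteSpace H']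
    (M : TracialVNA H) (M' : TracialVNA H') (Φ : M.El ≃⋆ₐ[ℂ] M'.El) {I : Type v}
    (x : M.bdd I) : M'.bdd I :=
  ⟨fun i => Φ (x.1 i), by
    obtain ⟨C, hC⟩ := x.2
    exact ⟨C, fun i => (opNorm_map M M' Φ _).le.trans (hC i)⟩⟩

/-- The map on the ultrapowers. -/
private noncomputable def liftUlt {H : Type u} [NormedAddCommGroup H] [InnerProductSpace ℂ H] [CompleteSpace H]
    {H' : Type u'} [NormedAddCommGroup H'] [InnerProductSpace ℂ H'] [CompleteSpace H']
    (M : TracialVNA H) (M' : TracialVNA H') (Φ : M.El ≃⋆ₐ[ℂ] M'.El)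
    (hΦ : ∀ x, M'.trace (Φ x) = M.trace x) {I : Type v} (U : Ultrafilter I) :
    M.Ult U → M'.Ult U :=
  fun q => Quotient.liftOn q (fun x => M'.cls U (liftFam M M' Φ x)) (by
    intro x y h
    rw [TracialVNA.cls_eq_cls]
    refine (show Tendsto (fun i => M.norm2 (x.1 i - y.1 i)) U (𝓝 0) from h).congr fun i => ?_
    have h1 := norm2_map M M' Φ hΦ (x.1 i - y.1 i)
    rw [map_sub] at h1
    exact h1.symm)

private theorem liftUlt_cls {H : Type u} [NormedAddCommGroup H] [InnerProductSpace ℂ H] [CompleteSpace H]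
    {H' : Type u'} [NormedAddCommGroup H'] [InnerProductSpace ℂ H'] [CompleteSpace H']
    (M : TracialVNA H) (M' : TracialVNA H') (Φ : M.El ≃⋆ₐ[ℂ] M'.El)
    (hΦ : ∀ x, M'.trace (Φ x) = M.trace x) {I : Type v} (U : Ultrafilter I) (x : M.bdd I) :
    liftUlt M M' Φ hΦ U (M.cls U x) = M'.cls U (liftFam M M' Φ x) := rfl

theorem exists_lift {H : Type u} [NormedAddCommGroup H] [InnerProductSpace ℂ H] [CompleteSpace H]
    {H' : Type u'} [NormedAddCommGroup H'] [InnerProductSpace ℂ H'] [CompleteSpace H']
    (M : TracialVNA H) (M' : TracialVNA H') (Φ : M.El ≃⋆ₐ[ℂ] M'.El)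
    (hΦ : ∀ x, M'.trace (Φ x) = M.trace x) {I : Type v} (U : Ultrafilter I) :
    Nonempty (M.Ult U ≃⋆ₐ[ℂ] M'.Ult U) := by
  have hΨ : ∀ y, M.trace (Φ.symm y) = M'.trace y := by
    intro y
    rw [← hΦ, StarAlgEquiv.apply_symm_apply]
  refine ⟨{ toFun := liftUlt M M' Φ hΦ U
            invFun := liftUlt M' M Φ.symm hΨ U
            left_inv := ?_
            right_inv := ?_
            map_mul' := ?_
            map_add' := ?_
            map_star' := ?_
            map_smul' := ?_ }⟩
  · intro q
    obtain ⟨x, rfl⟩ := M.cls_surjective U q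
    rw [liftUlt_cls, liftUlt_cls]
    congr 1
    refine Subtype.ext (funext fun i => ?_)
    exact StarAlgEquiv.symm_apply_apply Φ (x.1 i)
  · intro q
    obtain ⟨x, rfl⟩ := M'.cls_surjective U q
    rw [liftUlt_cls, liftUlt_cls]
    congr 1
    refine Subtype.ext (funext fun i => ?_)
    exact StarAlgEquiv.apply_symm_apply Φ (x.1 i)
  · intro q r
    obtain ⟨x, rfl⟩ := M.cls_surjective U q
    obtain ⟨y, rfl⟩ := M.cls_surjective U r
    rw [← M.cls_mul, liftUlt_cls, liftUlt_cls, liftUlt_cls, ← M'.cls_mul]
    congr 1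
    refine Subtype.ext (funext fun i => ?_)
    exact map_mul Φ (x.1 i) (y.1 i)
  · intro q r
    obtain ⟨x, rfl⟩ := M.cls_surjective U q
    obtain ⟨y, rfl⟩ := M.cls_surjective U r
    rw [← M.cls_add, liftUlt_cls, liftUlt_cls, liftUlt_cls, ← M'.cls_add]
    congr 1
    refine Subtype.ext (funext fun i => ?_)
    exact map_add Φ (x.1 i) (y.1 i)
  · intro q
    obtain ⟨x, rfl⟩ := M.cls_surjective U q
    change liftUlt M M' Φ hΦ U (star (M.cls U x)) = star (liftUlt M M' Φ hΦ U (M.cls U x))
    rw [← M.cls_star, liftUlt_cls, liftUlt_cls, ← M'.cls_star]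
    congr 1
    refine Subtype.ext (funext fun i => ?_)
    exact map_star Φ (x.1 i)
  · intro c q
    obtain ⟨x, rfl⟩ := M.cls_surjective U q
    change liftUlt M M' Φ hΦ U (c • (M.cls U x)) = c • (liftUlt M M' Φ hΦ U (M.cls U x))
    rw [← M.cls_smul, liftUlt_cls, liftUlt_cls, ← M'.cls_smul]
    congr 1
    refine Subtype.ext (funext fun i => ?_)
    exact map_smul Φ c (x.1 i)

end MPc72427
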