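import Pool.Agent.Work.MP_c72427_an.U.P
import Pool.Agent.Work.MP_c72427_an.U.Lift
import Pool.Agent.Work.MP_c72427_an.K.Cont

set_option autoImplicit false

/-!
# MP_c72427_an, module LiftF

Every star isomorphism of two group von Neumann algebras (no condition on the traces) induces a
star isomorphism of their ultrapowers: it is 2-norm continuous on bounded sets (`K.cont`).
-/

namespace MPc72427

open Filter Topology
open scoped InnerProductSpace

universe v

variable {G G' : Type} [Group G] [Group G']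

/-- the vector `e 1` is separating -/
theorem sep_vec (x : (grpTr G).El) (h : (x : L2 G →L[ℂ] L2 G) (e 1) = 0) : x = 0 := by
  apply vec_injective
  rw [vec, h]
  rfl

/-- The image of a bounded family. -/
noncomputable def mapFam (Θ : (grpTr G).El ≃⋆ₐ[ℂ] (grpTr G').El) {I : Type v} (x : (grpTr G).bdd I) :
    (grpTr G').bdd I :=
  ⟨fun i => Θ (x.1 i), by
    obtain ⟨C, hC⟩ := x.2
    exact ⟨C, fun i => (opNorm_map (grpTr G) (grpTr G') Θ _).trans_le (hC i)⟩⟩

theorem mapFam_rel (Θ : (grpTr G).El ≃⋆ₐ[ℂ] (grpTr G').El) {I : Type v} (U : Ultrafilter I)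
    (x y : (grpTr G).bdd I)
    (h : Tendsto (fun i => (grpTr G).norm2 (x.1 i - y.1 i)) U (𝓝 0)) :
    Tendsto (fun i => (grpTr G').norm2 ((mapFam Θ x).1 i - (mapFam Θ y).1 i)) U (𝓝 0) := by
  obtain ⟨C, hC⟩ := (x - y).2
  rw [Metric.tendsto_nhds] at h ⊢
  intro ε hε
  obtain ⟨δ, hδ, hc⟩ := K.cont (P := (grpTr G).toVonNeumannAlgebra)
    (N := (grpTr G').toVonNeumannAlgebra) Θ (e 1) (e 1) sep_vec C (half_pos hε)
  filter_upwards [h δ hδ] with i hi
  rw [Real.dist_eq, sub_zero, abs_of_nonneg ((grpTr G).norm2_nonneg _), norm2_eq] at hi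
  rw [Real.dist_eq, sub_zero, abs_of_nonneg ((grpTr G').norm2_nonneg _), norm2_eq]
  have h1 := hc (x.1 i - y.1 i) (hC i) hi.le
  have h2 : (mapFam Θ x).1 i - (mapFam Θ y).1 i = Θ (x.1 i - y.1 i) := (map_sub Θ _ _).symm
  rw [h2]
  exact lt_of_le_of_lt h1 (half_lt_self hε)

/-- The induced map of the ultrapowers. -/
noncomputable def mapUlt (Θ : (grpTr G).El ≃⋆ₐ[ℂ] (grpTr G').El) {I : Type v} (U : Ultrafilter I) :
    (grpTr G).Ult U → (grpTr G').Ult U :=
  Quotient.lift (fun x => (grpTr G').cls U (mapFam Θ x)) (fun x y h =>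
    ((grpTr G').cls_eq_cls U).2 (mapFam_rel Θ U x y h))

theorem mapUlt_cls (Θ : (grpTr G).El ≃⋆ₐ[ℂ] (grpTr G').El) {I : Type v} (U : Ultrafilter I)
    (x : (grpTr G).bdd I) :
    mapUlt Θ U ((grpTr G).cls U x) = (grpTr G').cls U (mapFam Θ x) := rfl

theorem mapFam_symm (Θ : (grpTr G).El ≃⋆ₐ[ℂ] (grpTr G').El) {I : Type v} (x : (grpTr G).bdd I) :
    mapFam Θ.symm (mapFam Θ x) = x := by
  apply Subtype.ext
  funext i
  exact Θ.symm_apply_apply _

theorem mapFam_symm' (Θ : (grpTr G).El ≃⋆ₐ[ℂ] (grpTr G').El) {I : Type v} (x : (grpTr G').bdd I) :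
    mapFam Θ (mapFam Θ.symm x) = x := by
  apply Subtype.ext
  funext i
  exact Θ.apply_symm_apply _

/-- Star isomorphic group algebras have star isomorphic ultrapowers. -/
theorem exists_lift_free (Θ : (grpTr G).El ≃⋆ₐ[ℂ] (grpTr G').El) {I : Type v}
    (U : Ultrafilter I) : Nonempty ((grpTr G).Ult U ≃⋆ₐ[ℂ] (grpTr G').Ult U) := by
  refine ⟨{ toFun := mapUlt Θ U, invFun := mapUlt Θ.symm U, left_inv := ?_, right_inv := ?_,
            map_mul' := ?_, map_add' := ?_, map_star' := ?_, map_smul' := ?_ }⟩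
  · intro x
    obtain ⟨x, rfl⟩ := (grpTr G).cls_surjective U x
    rw [mapUlt_cls, mapUlt_cls, mapFam_symm]
  · intro x
    obtain ⟨x, rfl⟩ := (grpTr G').cls_surjective U x
    rw [mapUlt_cls, mapUlt_cls, mapFam_symm']
  · intro x y
    obtain ⟨x, rfl⟩ := (grpTr G).cls_surjective U x
    obtain ⟨y, rfl⟩ := (grpTr G).cls_surjective U y
    rw [← (grpTr G).cls_mul, mapUlt_cls, mapUlt_cls, mapUlt_cls, ← (grpTr G').cls_mul]
    congr 1
    apply Subtype.ext
    funext i
    exact map_mul Θ _ _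
  · intro x y
    obtain ⟨x, rfl⟩ := (grpTr G).cls_surjective U x
    obtain ⟨y, rfl⟩ := (grpTr G).cls_surjective U y
    rw [← (grpTr G).cls_add, mapUlt_cls, mapUlt_cls, mapUlt_cls, ← (grpTr G').cls_add]
    congr 1
    apply Subtype.ext
    funext i
    exact map_add Θ _ _
  · intro x
    obtain ⟨x, rfl⟩ := (grpTr G).cls_surjective U x
    rw [← (grpTr G).cls_star, mapUlt_cls, mapUlt_cls, ← (grpTr G').cls_star]
    congr 1
    apply Subtype.ext
    funext i
    exact map_star Θ _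
  · intro c x
    obtain ⟨x, rfl⟩ := (grpTr G).cls_surjective U x
    rw [← (grpTr G).cls_smul, mapUlt_cls, mapUlt_cls, ← (grpTr G').cls_smul]
    congr 1
    apply Subtype.ext
    funext i
    exact map_smul Θ _ _

end MPc72427
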