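import Pool.Agent.Work.MP_c72427_an.U.Fin
import Pool.Agent.Work.MP_c72427_an.U.LiftF

set_option autoImplicit false

/-!
The ultrapowers of the two factors are never isomorphic, for arbitrary ultrafilters (also countably
complete or principal ones) and arbitrary star isomorphisms.
-/

namespace MPc72427

open Filter Topology

universe u v

theorem not_iso_all {I : Type u} {J : Type v} (U : Ultrafilter I) (V : Ultrafilter J) :
    IsEmpty ((grpTr GB).Ult U ≃⋆ₐ[ℂ] (grpTr GC).Ult V) := by
  refine ⟨fun Φ => ?_⟩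
  by_cases h : CtblyIncomplete U ∨ CtblyIncomplete V
  · exact (not_iso U V h).elim Φ
  · haveI := countable_GB
    haveI := countable_GC
    have h1 : ¬ CtblyIncomplete U := fun h' => h (Or.inl h')
    have h2 : ¬ CtblyIncomplete V := fun h' => h (Or.inr h')
    obtain ⟨Ψ₁, -⟩ := exists_constIso (G := GB) h1
    obtain ⟨Ψ₂, -⟩ := exists_constIso (G := GC) h2
    let Θ : (grpTr GB).El ≃⋆ₐ[ℂ] (grpTr GC).El := (Ψ₁.trans Φ).trans Ψ₂.symm
    obtain ⟨Λ⟩ := exists_lift_free Θ (Filter.hyperfilter ℕ)
    exact (not_iso (Filter.hyperfilter ℕ) (Filter.hyperfilter ℕ) (Or.inl hyper_incomplete)).elim Λ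

end MPc72427
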