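import Mathlib

set_option autoImplicit false

/-!
General definitions for `MP_c72427_an` (elementary equivalence of II_1 factors): von Neumann algebras
with a faithful normal tracial state, the 2-norm, II_1 factors, property Gamma, McDuff factors.
-/

namespace MPc72427

open Filter Topology
open scoped InnerProductSpace

universe u v

/-- A von Neumann algebra on the Hilbert space `H` with a faithful normal tracial state. -/
structure TracialVNA (H : Type u) [NormedAddCommGroup H] [InnerProductSpace ℂ H]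
    [CompleteSpace H] extends VonNeumannAlgebra H where
  /-- the trace -/
  trace : toStarSubalgebra →ₗ[ℂ] ℂ
  trace_one : trace 1 = 1
  trace_mul_comm : ∀ x y : toStarSubalgebra, trace (x * y) = trace (y * x)
  trace_faithful : ∀ x : toStarSubalgebra, trace (star x * x) = 0 → x = 0
  /-- normality: the trace is a sum of vector functionals (in particular it is positive) -/
  trace_normal : ∃ ξ : ℕ → H, Summable (fun n => ‖ξ n‖ ^ 2) ∧
    ∀ x : toStarSubalgebra, trace x = ∑' n, ⟪ξ n, (x : H →L[ℂ] H) (ξ n)⟫_ℂ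

variable {H : Type u} [NormedAddCommGroup H] [InnerProductSpace ℂ H] [CompleteSpace H]

/-- The algebra of the elements of `M`. -/
abbrev TracialVNA.El (M : TracialVNA H) : Type u := M.toStarSubalgebra

/-- The operator norm of an element. -/
noncomputable def TracialVNA.opNorm (M : TracialVNA H) (x : M.El) : ℝ := ‖(x : H →L[ℂ] H)‖

/-- The norm `‖x‖₂ = τ(x* x)^(1/2)`. -/
noncomputable def TracialVNA.norm2 (M : TracialVNA H) (x : M.El) : ℝ :=
  Real.sqrt (M.trace (star x * x)).re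

/-- `M` is a II_1 factor: its centre consists of the scalars and it is infinite dimensional
(the trace is part of the structure). -/
def TracialVNA.IsII1Factor (M : TracialVNA H) : Prop :=
  (∀ z : M.El, (∀ x : M.El, z * x = x * z) → ∃ c : ℂ, z = c • (1 : M.El)) ∧
    ¬ FiniteDimensional ℂ M.El

/-- Property Gamma. -/
def TracialVNA.HasGamma (M : TracialVNA H) : Prop :=
  ∀ F : Set M.El, F.Finite → ∀ ε : ℝ, 0 < ε → ∃ w : M.El, star w * w = 1 ∧ w * star w = 1 ∧
    M.trace w = 0 ∧ ∀ x ∈ F, M.norm2 (w * x - x * w) < ε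

/-- `M` is McDuff, `M ≅ M ⊗ R` with `R` the hyperfinite II_1 factor: `M` is generated, as a von
Neumann algebra, by two commuting unital subalgebras, one isomorphic to `M`, the other generated by
an infinite sequence of commuting copies of the algebra of 2 x 2 matrices, each generated by two
anticommuting self-adjoint unitaries `u n`, `v n` (in a II_1 factor such a sequence generates the
hyperfinite II_1 factor, and two commuting subfactors generate their tensor product). -/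
def TracialVNA.IsMcDuff (M : TracialVNA H) : Prop :=
  ∃ (A : StarSubalgebra ℂ M.El) (u v : ℕ → M.El),
    Nonempty (M.El ≃⋆ₐ[ℂ] A) ∧
    (∀ n, star (u n) = u n ∧ u n * u n = 1 ∧ star (v n) = v n ∧ v n * v n = 1 ∧
      u n * v n = - (v n * u n)) ∧
    (∀ m n, m ≠ n → u m * u n = u n * u m ∧ u m * v n = v n * u m ∧ v m * v n = v n * v m) ∧
    (∀ a ∈ A, ∀ n, a * u n = u n * a ∧ a * v n = v n * a) ∧
    Set.centralizer (Set.centralizer {y : H →L[ℂ] H |
      (∃ a ∈ A, y = (a : M.El)) ∨ (∃ n, y = (u n : M.El)) ∨ (∃ n, y = (v n : M.El))}) =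
      (M.toStarSubalgebra : Set (H →L[ℂ] H))

/-- Bounded central sequences commute asymptotically (by McDuff's theorem this is equivalent to not
being McDuff for a separable II_1 factor). -/
def TracialVNA.CentralSequencesCommute (M : TracialVNA H) : Prop :=
  ∀ x y : ℕ → M.El, (∃ C : ℝ, ∀ n, M.opNorm (x n) ≤ C ∧ M.opNorm (y n) ≤ C) →
    (∀ a : M.El, Tendsto (fun n => M.norm2 (x n * a - a * x n)) atTop (𝓝 0)) →
    (∀ a : M.El, Tendsto (fun n => M.norm2 (y n * a - a * y n)) atTop (𝓝 0)) →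
    Tendsto (fun n => M.norm2 (x n * y n - y n * x n)) atTop (𝓝 0)

/-! ### Properties of the 2-norm -/

namespace TracialVNA

variable (M : TracialVNA H)

theorem opNorm_nonneg (x : M.El) : 0 ≤ M.opNorm x := norm_nonneg _

theorem opNorm_mul_le (x y : M.El) : M.opNorm (x * y) ≤ M.opNorm x * M.opNorm y :=
  norm_mul_le (x : H →L[ℂ] H) (y : H →L[ℂ] H)

theorem opNorm_star (x : M.El) : M.opNorm (star x) = M.opNorm x :=
  norm_star (x : H →L[ℂ] H)

theorem opNorm_add_le (x y : M.El) : M.opNorm (x + y) ≤ M.opNorm x + M.opNorm y :=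
  norm_add_le (x : H →L[ℂ] H) (y : H →L[ℂ] H)

theorem opNorm_smul (c : ℂ) (x : M.El) : M.opNorm (c • x) = ‖c‖ * M.opNorm x :=
  norm_smul c (x : H →L[ℂ] H)

/-- A sequence of vectors which gives the trace. -/
theorem exists_vec : ∃ ξ : ℕ → H, Summable (fun n => ‖ξ n‖ ^ 2) ∧
    ∀ x : M.El, Summable (fun n => ‖(x : H →L[ℂ] H) (ξ n)‖ ^ 2) ∧
      M.norm2 x ^ 2 = ∑' n, ‖(x : H →L[ℂ] H) (ξ n)‖ ^ 2 := by
  obtain ⟨ξ, hs, h⟩ := M.trace_normal
  refine ⟨ξ, hs, fun x => ?_⟩
  have h1 : Summable (fun n => ‖(x : H →L[ℂ] H) (ξ n)‖ ^ 2) := by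
    refine Summable.of_nonneg_of_le (fun n => by positivity) (fun n => ?_)
      (hs.mul_left (‖(x : H →L[ℂ] H)‖ ^ 2))
    rw [← mul_pow]
    exact pow_le_pow_left₀ (norm_nonneg _) ((x : H →L[ℂ] H).le_opNorm _) 2
  refine ⟨h1, ?_⟩
  have h2 : M.trace (star x * x) = ((∑' n, ‖(x : H →L[ℂ] H) (ξ n)‖ ^ 2 : ℝ) : ℂ) := by
    rw [h, Complex.ofReal_tsum]
    congr 1
    ext n
    have : ((star x * x : M.El) : H →L[ℂ] H) (ξ n) =
        (ContinuousLinearMap.adjoint (x : H →L[ℂ] H)) ((x : H →L[ℂ] H) (ξ n)) := rfl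
    rw [this, ContinuousLinearMap.adjoint_inner_right, inner_self_eq_norm_sq_to_K]
    norm_cast
  rw [norm2, h2, Complex.ofReal_re, Real.sq_sqrt (tsum_nonneg fun n => by positivity)]

theorem norm2_nonneg (x : M.El) : 0 ≤ M.norm2 x := Real.sqrt_nonneg _

theorem norm2_add_le (x y : M.El) : M.norm2 (x + y) ≤ M.norm2 x + M.norm2 y := by
  obtain ⟨ξ, -, h⟩ := M.exists_vec
  have hx := h x
  have hy := h y
  have hxy := h (x + y)
  have e : ∀ z : M.El, (Memℓp (fun n => (z : H →L[ℂ] H) (ξ n)) 2) := by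
    intro z
    refine memℓp_gen ?_
    simpa using (h z).1
  have hn : ∀ z : M.El, M.norm2 z = ‖(⟨fun n => (z : H →L[ℂ] H) (ξ n), e z⟩ :
      lp (fun _ : ℕ => H) 2)‖ := by
    intro z
    have h3 := lp.norm_rpow_eq_tsum (p := 2) (by norm_num)
      (⟨fun n => (z : H →L[ℂ] H) (ξ n), e z⟩ : lp (fun _ : ℕ => H) 2)
    simp only [ENNReal.toReal_ofNat, Real.rpow_ofNat] at h3
    have h4 := (h z).2
    rw [← h3] at h4
    exact (sq_eq_sq₀ (M.norm2_nonneg z) (norm_nonneg _)).1 h4
  rw [hn, hn, hn]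
  exact norm_add_le (⟨fun n => (x : H →L[ℂ] H) (ξ n), e x⟩ : lp (fun _ : ℕ => H) 2)
    (⟨fun n => (y : H →L[ℂ] H) (ξ n), e y⟩ : lp (fun _ : ℕ => H) 2)

theorem norm2_smul (c : ℂ) (x : M.El) : M.norm2 (c • x) = ‖c‖ * M.norm2 x := by
  obtain ⟨ξ, -, h⟩ := M.exists_vec
  have h1 := (h (c • x)).2
  have h2 : ∀ n, ‖((c • x : M.El) : H →L[ℂ] H) (ξ n)‖ ^ 2 =
      ‖c‖ ^ 2 * ‖(x : H →L[ℂ] H) (ξ n)‖ ^ 2 := by
    intro n
    have : ((c • x : M.El) : H →L[ℂ] H) (ξ n) = c • (x : H →L[ℂ] H) (ξ n) := rfl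
    rw [this, norm_smul, mul_pow]
  rw [tsum_congr h2, tsum_mul_left, ← (h x).2, ← mul_pow] at h1
  exact (sq_eq_sq₀ (M.norm2_nonneg _) (mul_nonneg (norm_nonneg _) (M.norm2_nonneg _))).1 h1

theorem norm2_neg (x : M.El) : M.norm2 (-x) = M.norm2 x := by
  have := M.norm2_smul (-1) x
  simpa using this

theorem norm2_zero : M.norm2 (0 : M.El) = 0 := by
  have := M.norm2_smul 0 0
  simpa using this

theorem norm2_sub_le (x y : M.El) : M.norm2 (x - y) ≤ M.norm2 x + M.norm2 y := by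
  have := M.norm2_add_le x (-y)
  rwa [norm2_neg, ← sub_eq_add_neg] at this

theorem norm2_star (x : M.El) : M.norm2 (star x) = M.norm2 x := by
  rw [norm2, norm2, star_star, M.trace_mul_comm]

theorem norm2_mul_le (x y : M.El) : M.norm2 (x * y) ≤ M.opNorm x * M.norm2 y := by
  obtain ⟨ξ, -, h⟩ := M.exists_vec
  have h1 : M.norm2 (x * y) ^ 2 ≤ (M.opNorm x * M.norm2 y) ^ 2 := by
    rw [(h (x * y)).2, mul_pow, (h y).2, ← tsum_mul_left]
    refine Summable.tsum_le_tsum (fun n => ?_) (h (x * y)).1 ((h y).1.mul_left _)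
    rw [← mul_pow]
    exact pow_le_pow_left₀ (norm_nonneg _) ((x : H →L[ℂ] H).le_opNorm _) 2
  exact (sq_le_sq₀ (M.norm2_nonneg _) (mul_nonneg (M.opNorm_nonneg _) (M.norm2_nonneg _))).1 h1

theorem norm2_mul_le' (x y : M.El) : M.norm2 (x * y) ≤ M.norm2 x * M.opNorm y := by
  have h := M.norm2_mul_le (star y) (star x)
  rw [← star_mul, norm2_star, norm2_star, opNorm_star, mul_comm] at h
  exact h

theorem norm2_eq_zero {x : M.El} (h : M.norm2 x = 0) : x = 0 := by
  refine M.trace_faithful x ?_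
  obtain ⟨ξ, -, hξ⟩ := M.trace_normal
  have h2 : M.trace (star x * x) = ((∑' n, ‖(x : H →L[ℂ] H) (ξ n)‖ ^ 2 : ℝ) : ℂ) := by
    rw [hξ, Complex.ofReal_tsum]
    congr 1
    ext n
    have : ((star x * x : M.El) : H →L[ℂ] H) (ξ n) =
        (ContinuousLinearMap.adjoint (x : H →L[ℂ] H)) ((x : H →L[ℂ] H) (ξ n)) := rfl
    rw [this, ContinuousLinearMap.adjoint_inner_right, inner_self_eq_norm_sq_to_K]
    norm_cast
  rw [norm2, h2, Complex.ofReal_re, Real.sqrt_eq_zero (tsum_nonneg fun n => by positivity)] at h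
  rw [h2, h]
  simp

end TracialVNA

end MPc72427
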