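import Pool.Agent.Work.MP_c72427_an.U.Ult

set_option autoImplicit false

/-!
The group von Neumann algebra of a discrete group with its trace.
-/

namespace MPc72427

open Filter Topology
open scoped InnerProductSpace

/-- The Hilbert space of square summable complex functions on the set `X`. -/
abbrev L2 (X : Type) : Type := lp (fun _ : X => ℂ) 2

section Basic

variable {X Y : Type}

theorem L2.norm_sq (f : L2 X) : ‖f‖ ^ 2 = ∑' x, ‖f x‖ ^ 2 := by
  have h := lp.norm_rpow_eq_tsum (p := 2) (by norm_num) f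
  simpa using h

theorem L2.summable_sq (f : L2 X) : Summable fun x => ‖f x‖ ^ 2 := by
  have h := (memℓp_gen_iff (p := 2) (E := fun _ : X => ℂ) (by norm_num)).1 (lp.memℓp f)
  simpa using h

theorem L2.memℓp {f : X → ℂ} (h : Summable fun x => ‖f x‖ ^ 2) : Memℓp (E := fun _ : X => ℂ) f 2 := by
  refine memℓp_gen ?_
  simpa using h

/-- The isometry of `ℓ²(X)` onto `ℓ²(Y)` given by a bijection: `(perm σ f) y = f (σ⁻¹ y)`. -/
noncomputable def perm (σ : X ≃ Y) : L2 X →L[ℂ] L2 Y :=
  LinearMap.mkContinuous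
    { toFun := fun f => ⟨fun y => f (σ.symm y), L2.memℓp
        ((L2.summable_sq f).comp_injective σ.symm.injective)⟩
      map_add' := fun f g => rfl
      map_smul' := fun c f => rfl } 1 (by
    intro f
    rw [one_mul]
    refine le_of_eq ((sq_eq_sq₀ (norm_nonneg _) (norm_nonneg _)).1 ?_)
    rw [L2.norm_sq, L2.norm_sq]
    exact σ.symm.tsum_eq (fun x => ‖f x‖ ^ 2))

theorem perm_apply (σ : X ≃ Y) (f : L2 X) (y : Y) : perm σ f y = f (σ.symm y) := rfl

theorem norm_perm (σ : X ≃ Y) (f : L2 X) : ‖perm σ f‖ = ‖f‖ := by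
  refine (sq_eq_sq₀ (norm_nonneg _) (norm_nonneg _)).1 ?_
  rw [L2.norm_sq, L2.norm_sq]
  exact σ.symm.tsum_eq (fun x => ‖f x‖ ^ 2)

theorem inner_perm_left (σ : X ≃ Y) (f : L2 X) (g : L2 Y) :
    ⟪perm σ f, g⟫_ℂ = ⟪f, perm σ.symm g⟫_ℂ := by
  rw [lp.inner_eq_tsum, lp.inner_eq_tsum, ← σ.tsum_eq]
  congr 1
  ext x
  rw [perm_apply, perm_apply, σ.symm_apply_apply, σ.symm_symm]

theorem star_perm (σ : Equiv.Perm X) : star (perm σ) = perm σ⁻¹ := by
  rw [ContinuousLinearMap.star_eq_adjoint, eq_comm, ContinuousLinearMap.eq_adjoint_iff]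
  intro f g
  exact inner_perm_left σ.symm f g

theorem perm_mul (σ τ : Equiv.Perm X) : perm (σ * τ) = perm σ * perm τ := by
  ext f x
  rfl

theorem perm_one : perm (1 : Equiv.Perm X) = 1 := by
  ext f x
  rfl

open Classical in
/-- The restriction of square summable functions to a subset. -/
noncomputable def rst (S : Set X) : L2 X →L[ℂ] L2 X :=
  LinearMap.mkContinuous
    { toFun := fun f => ⟨fun x => if x ∈ S then f x else 0, L2.memℓp
        (Summable.of_nonneg_of_le (fun x => by positivity) (fun x => by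
          show ‖(if x ∈ S then f x else 0 : ℂ)‖ ^ 2 ≤ ‖f x‖ ^ 2
          split_ifs
          · exact le_rfl
          · simp) (L2.summable_sq f))⟩
      map_add' := fun f g => by
        ext x
        by_cases h : x ∈ S <;> simp [h]
      map_smul' := fun c f => by
        ext x
        by_cases h : x ∈ S <;> simp [h] } 1 (by
    intro f
    rw [one_mul]
    refine (sq_le_sq₀ (norm_nonneg _) (norm_nonneg _)).1 ?_
    rw [L2.norm_sq, L2.norm_sq]
    refine Summable.tsum_le_tsum (fun x => ?_) (L2.summable_sq _) (L2.summable_sq f)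
    show ‖(if x ∈ S then f x else 0 : ℂ)‖ ^ 2 ≤ ‖f x‖ ^ 2
    split_ifs
    · exact le_rfl
    · simp)

open Classical in
theorem rst_apply (S : Set X) (f : L2 X) (x : X) : rst S f x = if x ∈ S then f x else 0 := rfl

theorem rst_apply_of_mem {S : Set X} {x : X} (h : x ∈ S) (f : L2 X) : rst S f x = f x := by
  rw [rst_apply, if_pos h]

theorem rst_apply_of_notMem {S : Set X} {x : X} (h : x ∉ S) (f : L2 X) : rst S f x = 0 := by
  rw [rst_apply, if_neg h]

open Classical in
/-- The basis vector of a point. -/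
noncomputable def e (x : X) : L2 X := lp.single 2 x (1 : ℂ)

open Classical in
theorem e_apply (x y : X) : e x y = if y = x then 1 else 0 := by
  rw [e, lp.single_apply, Pi.single_apply]

theorem inner_e_left (x : X) (f : L2 X) : ⟪e x, f⟫_ℂ = f x := by
  classical
  rw [e, lp.inner_single_left]
  simp

theorem inner_e_right (x : X) (f : L2 X) : ⟪f, e x⟫_ℂ = star (f x) := by
  rw [← inner_conj_symm, inner_e_left]
  rfl

theorem norm_e (x : X) : ‖e x‖ = 1 := by
  classical
  rw [e, lp.norm_single (by norm_num)]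
  simp

theorem perm_e (σ : X ≃ Y) (x : X) : perm σ (e x) = e (σ x) := by
  classical
  ext y
  rw [perm_apply, e_apply, e_apply]
  simp [Equiv.symm_apply_eq]

theorem mul_app (S T : L2 X →L[ℂ] L2 X) (f : L2 X) : (S * T) f = S (T f) := rfl

/-- Operators which agree on the basis vectors are equal. -/
theorem ext_e {E : Type*} [NormedAddCommGroup E] [NormedSpace ℂ E] {S T : L2 X →L[ℂ] E}
    (h : ∀ x, S (e x) = T (e x)) : S = T := by
  classical
  ext f
  have hf := lp.hasSum_single (p := 2) (by norm_num) f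
  have h1 := hf.mapL S
  have h2 := hf.mapL T
  have h3 : (fun x => S (lp.single 2 x (f x))) = fun x => T (lp.single 2 x (f x)) := by
    ext x
    have : lp.single 2 x (f x) = f x • (e x : L2 X) := by
      rw [e, ← lp.single_smul, smul_eq_mul, mul_one]
    rw [this, map_smul, map_smul, h]
  rw [h3] at h1
  exact h1.unique h2

end Basic

section Group

variable {G : Type} [Group G]

/-- The left translation `(lamOp g f) x = f (g⁻¹ x)`. -/
noncomputable def lamOp (g : G) : L2 G →L[ℂ] L2 G := perm (Equiv.mulLeft g)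

/-- The right translation `(rhoOp g f) x = f (x g)`. -/
noncomputable def rhoOp (g : G) : L2 G →L[ℂ] L2 G := perm (Equiv.mulRight g⁻¹)

theorem lamOp_apply (g : G) (f : L2 G) (x : G) : lamOp g f x = f (g⁻¹ * x) := rfl

theorem rhoOp_apply (g : G) (f : L2 G) (x : G) : rhoOp g f x = f (x * g) := by
  rw [rhoOp, perm_apply]
  simp

theorem lamOp_e (g x : G) : lamOp g (e x) = e (g * x) := perm_e _ _

theorem rhoOp_e (g x : G) : rhoOp g (e x) = e (x * g⁻¹) := perm_e _ _

theorem star_lamOp (g : G) : star (lamOp g) = lamOp g⁻¹ := by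
  rw [lamOp, star_perm, lamOp]
  congr 1
  ext x
  simp

theorem star_rhoOp (g : G) : star (rhoOp g) = rhoOp g⁻¹ := by
  rw [rhoOp, star_perm, rhoOp]
  congr 1
  ext x
  simp

theorem lamOp_mul (g h : G) : lamOp (g * h) = lamOp g * lamOp h := by
  refine ext_e fun x => ?_
  rw [lamOp_e, mul_app, lamOp_e, lamOp_e, mul_assoc]

theorem rhoOp_mul (g h : G) : rhoOp (g * h) = rhoOp g * rhoOp h := by
  refine ext_e fun x => ?_
  rw [rhoOp_e, mul_app, rhoOp_e, rhoOp_e, mul_inv_rev, mul_assoc]

theorem lamOp_one : lamOp (1 : G) = 1 := by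
  refine ext_e fun x => ?_
  rw [lamOp_e, one_mul]
  rfl

theorem rhoOp_one : rhoOp (1 : G) = 1 := by
  refine ext_e fun x => ?_
  rw [rhoOp_e, inv_one, mul_one]
  rfl

theorem lam_rho_comm (g h : G) : lamOp g * rhoOp h = rhoOp h * lamOp g := by
  refine ext_e fun x => ?_
  rw [mul_app, mul_app, lamOp_e, rhoOp_e, lamOp_e,
    rhoOp_e, mul_assoc]

variable (G) in
/-- The von Neumann algebra of the group `G` on `ℓ²(G)`: the commutant of the right translations. -/
noncomputable def grpVN : VonNeumannAlgebra (L2 G) where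
  toStarSubalgebra := StarSubalgebra.centralizer ℂ (Set.range (rhoOp : G → L2 G →L[ℂ] L2 G))
  centralizer_centralizer' := by
    change Set.centralizer (Set.centralizer ((StarSubalgebra.centralizer ℂ
      (Set.range (rhoOp : G → L2 G →L[ℂ] L2 G)) : StarSubalgebra ℂ (L2 G →L[ℂ] L2 G)) :
        Set (L2 G →L[ℂ] L2 G))) = ((StarSubalgebra.centralizer ℂ
      (Set.range (rhoOp : G → L2 G →L[ℂ] L2 G)) : StarSubalgebra ℂ (L2 G →L[ℂ] L2 G)) :
        Set (L2 G →L[ℂ] L2 G))
    rw [StarSubalgebra.coe_centralizer, Set.centralizer_centralizer_centralizer]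

theorem mem_grpVN {x : L2 G →L[ℂ] L2 G} :
    x ∈ (grpVN G).toStarSubalgebra ↔ ∀ g : G, rhoOp g * x = x * rhoOp g := by
  change x ∈ StarSubalgebra.centralizer ℂ (Set.range (rhoOp : G → L2 G →L[ℂ] L2 G)) ↔ _
  rw [StarSubalgebra.mem_centralizer_iff]
  constructor
  · intro h g
    exact (h (rhoOp g) ⟨g, rfl⟩).1
  · rintro h _ ⟨g, rfl⟩
    refine ⟨h g, ?_⟩
    rw [star_rhoOp]
    exact h _

theorem lamOp_mem (g : G) : lamOp g ∈ (grpVN G).toStarSubalgebra :=
  mem_grpVN.2 fun h => (lam_rho_comm g h).symm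

/-- An element of the group algebra is determined by its value on `e 1`. -/
theorem apply_e {x : L2 G →L[ℂ] L2 G} (hx : x ∈ (grpVN G).toStarSubalgebra) (g : G) :
    x (e g) = rhoOp g⁻¹ (x (e 1)) := by
  have h := congrArg (fun T => T (e 1)) (mem_grpVN.1 hx g⁻¹)
  simp only [mul_app] at h
  rw [h, rhoOp_e, inv_inv, one_mul]

theorem eq_of_apply_one {x y : L2 G →L[ℂ] L2 G} (hx : x ∈ (grpVN G).toStarSubalgebra)
    (hy : y ∈ (grpVN G).toStarSubalgebra) (h : x (e 1) = y (e 1)) : x = y :=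
  ext_e fun g => by rw [apply_e hx, apply_e hy, h]

/-- The matrix entries. -/
theorem entry {x : L2 G →L[ℂ] L2 G} (hx : x ∈ (grpVN G).toStarSubalgebra) (g h : G) :
    x (e h) g = x (e 1) (g * h⁻¹) := by
  rw [apply_e hx, rhoOp_apply]

theorem star_apply_one {x : L2 G →L[ℂ] L2 G} (hx : x ∈ (grpVN G).toStarSubalgebra) (g : G) :
    (star x) (e 1) g = star (x (e 1) g⁻¹) := by
  rw [← inner_e_left, ContinuousLinearMap.star_eq_adjoint, ContinuousLinearMap.adjoint_inner_right,
    inner_e_right, entry hx, one_mul]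

theorem inner_apply_one {x y : L2 G →L[ℂ] L2 G} (hx : x ∈ (grpVN G).toStarSubalgebra)
    (_hy : y ∈ (grpVN G).toStarSubalgebra) :
    ⟪e (1 : G), (x * y) (e 1)⟫_ℂ = ∑' g : G, y (e 1) g * x (e 1) g⁻¹ := by
  rw [mul_app, ← ContinuousLinearMap.adjoint_inner_left,
    ← ContinuousLinearMap.star_eq_adjoint, lp.inner_eq_tsum]
  congr 1
  ext g
  rw [star_apply_one hx]
  change y (e 1) g * star (star (x (e 1) g⁻¹)) = _
  rw [star_star]

variable (G) in
/-- The von Neumann algebra of the group `G` with its canonical trace. -/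
noncomputable def grpTr : TracialVNA (L2 G) where
  toVonNeumannAlgebra := grpVN G
  trace :=
    { toFun := fun x => ⟪e (1 : G), (x : L2 G →L[ℂ] L2 G) (e 1)⟫_ℂ
      map_add' := fun x y => by
        change ⟪e (1 : G), (x : L2 G →L[ℂ] L2 G) (e 1) + (y : L2 G →L[ℂ] L2 G) (e 1)⟫_ℂ = _
        rw [inner_add_right]
      map_smul' := fun c x => by
        change ⟪e (1 : G), c • (x : L2 G →L[ℂ] L2 G) (e 1)⟫_ℂ = _
        rw [inner_smul_right]
        rfl }
  trace_one := by
    change ⟪e (1 : G), (e 1 : L2 G)⟫_ℂ = 1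
    rw [inner_e_left, e_apply, if_pos rfl]
  trace_mul_comm := by
    intro x y
    change ⟪e (1 : G), ((x : L2 G →L[ℂ] L2 G) * (y : L2 G →L[ℂ] L2 G)) (e 1)⟫_ℂ =
      ⟪e (1 : G), ((y : L2 G →L[ℂ] L2 G) * (x : L2 G →L[ℂ] L2 G)) (e 1)⟫_ℂ
    rw [inner_apply_one x.2 y.2, inner_apply_one y.2 x.2, ← (Equiv.inv G).tsum_eq]
    congr 1
    ext g
    simp [mul_comm]
  trace_faithful := by
    intro x hx
    change ⟪e (1 : G), ((star (x : L2 G →L[ℂ] L2 G)) * (x : L2 G →L[ℂ] L2 G)) (e 1)⟫_ℂ = 0 at hx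
    rw [mul_app, ContinuousLinearMap.star_eq_adjoint,
      ContinuousLinearMap.adjoint_inner_right, inner_self_eq_zero] at hx
    refine Subtype.ext (eq_of_apply_one x.2 (zero_mem _) ?_)
    rw [hx]
    rfl
  trace_normal := by
    refine ⟨fun n => if n = 0 then e 1 else 0, ?_, fun x => ?_⟩
    · refine summable_of_ne_finset_zero (s := {0}) fun n hn => ?_
      rw [Finset.mem_singleton] at hn
      simp [hn]
    · change ⟪e (1 : G), (x : L2 G →L[ℂ] L2 G) (e 1)⟫_ℂ = _
      rw [tsum_eq_single 0]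
      · simp
      · intro n hn
        simp [hn]

/-- The element of the group algebra given by an element of the group. -/
noncomputable def lam (g : G) : (grpTr G).El := ⟨lamOp g, lamOp_mem g⟩

/-- The vector `x (e 1)`, that is the sequence of the Fourier coefficients of `x`. -/
noncomputable def vec (x : (grpTr G).El) : L2 G := (x : L2 G →L[ℂ] L2 G) (e 1)

theorem norm2_eq (x : (grpTr G).El) : (grpTr G).norm2 x = ‖vec x‖ := by
  rw [TracialVNA.norm2]
  change Real.sqrt (⟪e (1 : G), ((star (x : L2 G →L[ℂ] L2 G)) * (x : L2 G →L[ℂ] L2 G)) (e 1)⟫_ℂ).re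
    = _
  rw [mul_app, ContinuousLinearMap.star_eq_adjoint,
    ContinuousLinearMap.adjoint_inner_right, inner_self_eq_norm_sq_to_K]
  have : ((‖(x : L2 G →L[ℂ] L2 G) (e 1)‖ : ℂ) ^ 2).re = ‖vec x‖ ^ 2 := by
    rw [← Complex.ofReal_pow, Complex.ofReal_re]
    rfl
  erw [this]
  exact Real.sqrt_sq (norm_nonneg _)

theorem trace_eq (x : (grpTr G).El) : (grpTr G).trace x = vec x 1 := inner_e_left _ _

end Group

end MPc72427
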