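import Pool.Agent.Work.MP_c72427_an.U.Rst

set_option autoImplicit false

/-!
The invariant `PP` of a star algebra which separates the ultrapowers of the two factors, and the
invariant `Sep` (existence of a countable set whose commutant consists of the scalars).
-/

namespace MPc72427

open Filter Topology

/-- `w` commutes with the four elements `v₁, v₂, s₁, s₂`. -/
def Cm {A : Type*} [Mul A] (v₁ v₂ s₁ s₂ w : A) : Prop :=
  v₁ * w = w * v₁ ∧ v₂ * w = w * v₂ ∧ s₁ * w = w * s₁ ∧ s₂ * w = w * s₂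

/-- The invariant: there are `v₁, v₂` such that for all `s₁, s₂`, with `C` the commutant of
`v₁, v₂, s₁, s₂`, there is an isometry `z` with `z C z* ⊆ C` which does not commute with `C`. -/
def PP (A : Type*) [Ring A] [StarRing A] : Prop :=
  ∃ v₁ v₂ : A, ∀ s₁ s₂ : A, ∃ z : A, star z * z = 1 ∧
    (∀ w, Cm v₁ v₂ s₁ s₂ w → Cm v₁ v₂ s₁ s₂ (z * w * star z)) ∧
    ∃ w, Cm v₁ v₂ s₁ s₂ w ∧ z * w ≠ w * z

/-- There is a sequence whose commutant consists of the scalars. -/
def Sep (A : Type*) [Ring A] [Algebra ℂ A] : Prop :=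
  ∃ a : ℕ → A, ∀ z : A, (∀ n, a n * z = z * a n) → ∃ c : ℂ, z = c • (1 : A)

/-- The 2-norm in the algebra of the group `G`. -/
noncomputable abbrev n2 {G : Type} [Group G] (x : (grpTr G).El) : ℝ := (grpTr G).norm2 x

/-- The operator norm in the algebra of the group `G`. -/
noncomputable abbrev nop {G : Type} [Group G] (x : (grpTr G).El) : ℝ := (grpTr G).opNorm x

universe u v

variable {H : Type u} [NormedAddCommGroup H] [InnerProductSpace ℂ H] [CompleteSpace H]

/-- A bounded family. -/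
def TracialVNA.fam (M : TracialVNA H) {I : Type v} (x : I → M.El)
    (h : ∃ C : ℝ, ∀ i, M.opNorm (x i) ≤ C) : M.bdd I := ⟨x, h⟩

theorem TracialVNA.cls_comm_iff (M : TracialVNA H) {I : Type v} {U : Ultrafilter I}
    {x y : M.bdd I} : M.cls U x * M.cls U y = M.cls U y * M.cls U x ↔
      Tendsto (fun i => M.norm2 (x.1 i * y.1 i - y.1 i * x.1 i)) U (𝓝 0) := by
  rw [← M.cls_mul, ← M.cls_mul, M.cls_eq_cls]
  rfl

/-- Small positive numbers tending to zero along a countably incomplete ultrafilter. -/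
theorem CtblyIncomplete.exists_small {I : Type v} {U : Ultrafilter I} (hU : CtblyIncomplete U) :
    ∃ δ : I → ℝ, (∀ i, 0 < δ i) ∧ Tendsto δ U (𝓝 0) := by
  obtain ⟨f, hf⟩ := hU
  refine ⟨fun i => 1 / ((f i : ℝ) + 1), fun i => by positivity, ?_⟩
  exact (tendsto_one_div_add_atTop_nhds_zero_nat (𝕜 := ℝ)).comp hf

end MPc72427
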