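import Pool.Agent.Work.MP_c72427_an.U.P
import Pool.Agent.Work.MP_c72427_an.U.EstB
import Pool.Agent.Work.MP_c72427_an.U.GapB
import Pool.Agent.Work.MP_c72427_an.U.Est
import Pool.Agent.Work.MP_c72427_an.U.FinExh
import Pool.Agent.Work.MP_c72427_an.U.FactB

set_option autoImplicit false

/-!
# MP_c72427_an, module PB

The invariant holds for the ultrapowers of the first factor.

PROOF. `M = grpTr GB`. `v₁ = cls (constant lam (aB 0))`, `v₂ = cls (constant lam (aB 1))`. Given `s₁, s₂`, choose bounded families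
`S₁, S₂` (`cls_surjective`), `δ` from `CtblyIncomplete.exists_small`; for each `i` by `tendsto_exhaust` (with `subB_mono`, `subB_exh`)
an `n i` with `‖rst (SubB (n i))ᶜ (vec (S_j i))‖ < δ i` for `j = 1, 2`. `z = cls (lam (aB (n i + 2)))`, `w = cls (lam (wB (n i)))`
(bounded by `opNorm_lam_le`). `star z * z = 1`: pointwise (`star_lam_mul_lam`).
(a) Let `x` commute with `v₁, v₂, s₁, s₂`, `x = cls X`, `‖X i‖ ≤ C`. By `cls_comm_iff` and `gapB` `‖rst LamBᶜ (vec (X i))‖ → 0`
(`norm2_neg` / `norm_sub_rev` for the order in the commutators). `z * x * star z = cls (lam a_i * X i * star (lam a_i))`. It commutes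
with `v₁, v₂` by `est_conj_lam` (`k = n i + 2`), and with `s_j` by `est_conj`: the three terms tend to zero (`nop (S_j i)` is bounded).
(b) `w` commutes with `v₁, v₂` exactly (`aB_comm`, `wB_mem`, `lam_mul`), and with `s_j` by `est_lam` (`wB_comm`): `≤ 2 δ i`.
`z * w ≠ w * z`: `n2 (lam a * lam w - lam w * lam a) = ‖e (a * w) - e (w * a)‖ = √2` (or just `≥ 1`) for all `i`, as `a w ≠ w a` by
`conj_wB` and `wB_injective`; a constant `≥ 1` does not tend to zero.
-/

namespace MPc72427

open Filter Topology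
open scoped InnerProductSpace

universe v

private theorem n2_sub_comm (a b : (grpTr GB).El) : n2 (a - b) = n2 (b - a) := by
  have := (grpTr GB).norm2_neg (a - b)
  rw [neg_sub] at this
  exact this.symm

private theorem one_le_norm_sub {X : Type} {x y : X} (h : x ≠ y) : 1 ≤ ‖(e x : L2 X) - e y‖ := by
  classical
  have h1 := lp.norm_apply_le_norm (p := 2) (by norm_num) ((e x : L2 X) - e y) x
  have h2 : ((e x : L2 X) - e y) x = 1 := by
    change (e x : L2 X) x - (e y : L2 X) x = 1
    rw [e_apply, e_apply, if_pos rfl, if_neg h, sub_zero]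
  rw [h2, norm_one] at h1
  exact h1

theorem PP_beta {I : Type v} (U : Ultrafilter I) (hU : CtblyIncomplete U) :
    PP ((grpTr GB).Ult U) := by
  obtain ⟨δ, hδ, hδ0⟩ := hU.exists_small
  let V₁ : (grpTr GB).bdd I := (grpTr GB).fam (fun _ => lam (aB 0)) ⟨1, fun _ => opNorm_lam_le _⟩
  let V₂ : (grpTr GB).bdd I := (grpTr GB).fam (fun _ => lam (aB 1)) ⟨1, fun _ => opNorm_lam_le _⟩
  refine ⟨(grpTr GB).cls U V₁, (grpTr GB).cls U V₂, fun s₁ s₂ => ?_⟩
  obtain ⟨S₁, rfl⟩ := (grpTr GB).cls_surjective U s₁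
  obtain ⟨S₂, rfl⟩ := (grpTr GB).cls_surjective U s₂
  have hn : ∀ i, ∃ n, ‖rst (SubB n : Set GB)ᶜ (vec (S₁.1 i))‖ < δ i ∧
      ‖rst (SubB n : Set GB)ᶜ (vec (S₂.1 i))‖ < δ i := by
    intro i
    have h1 := tendsto_exhaust (fun n => (SubB n : Set GB)) (fun m n h => subB_mono h)
      (fun x => subB_exh x) (vec (S₁.1 i))
    have h2 := tendsto_exhaust (fun n => (SubB n : Set GB)) (fun m n h => subB_mono h)
      (fun x => subB_exh x) (vec (S₂.1 i))
    exact ((h1.eventually_lt_const (hδ i)).and (h2.eventually_lt_const (hδ i))).exists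
  choose n hn1 hn2 using hn
  let Z : (grpTr GB).bdd I := (grpTr GB).fam (fun i => lam (aB (n i + 2)))
    ⟨1, fun _ => opNorm_lam_le _⟩
  let W : (grpTr GB).bdd I := (grpTr GB).fam (fun i => lam (wB (n i)))
    ⟨1, fun _ => opNorm_lam_le _⟩
  refine ⟨(grpTr GB).cls U Z, ?_, ?_, ?_⟩
  · rw [← TracialVNA.cls_star, ← TracialVNA.cls_mul, ← TracialVNA.cls_one]
    congr 1
    refine Subtype.ext (funext fun i => ?_)
    exact star_lam_mul_lam (aB (n i + 2))
  · rintro x ⟨hv1, hv2, hs1, hs2⟩
    obtain ⟨X, rfl⟩ := (grpTr GB).cls_surjective U x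
    rw [TracialVNA.cls_comm_iff] at hv1 hv2 hs1 hs2
    have hL : Tendsto (fun i => ‖rst (LamB : Set GB)ᶜ (vec (X.1 i))‖) U (𝓝 0) := by
      refine squeeze_zero (fun i => norm_nonneg _) (fun i => gapB (X.1 i)) ?_
      have h1 := (hv1.max hv2).const_mul 10
      rw [max_self, mul_zero] at h1
      exact h1
    have key : ∀ S : (grpTr GB).bdd I, (∀ i, ‖rst (SubB (n i) : Set GB)ᶜ (vec (S.1 i))‖ < δ i) →
        Tendsto (fun i => (grpTr GB).norm2 (S.1 i * X.1 i - X.1 i * S.1 i)) U (𝓝 0) →
        (grpTr GB).cls U S * ((grpTr GB).cls U Z * (grpTr GB).cls U X * star ((grpTr GB).cls U Z)) =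
          ((grpTr GB).cls U Z * (grpTr GB).cls U X * star ((grpTr GB).cls U Z)) *
            (grpTr GB).cls U S := by
      intro S hS hc
      rw [← TracialVNA.cls_star, ← TracialVNA.cls_mul, ← TracialVNA.cls_mul,
        TracialVNA.cls_comm_iff]
      obtain ⟨C, hC⟩ := S.2
      obtain ⟨D, hD⟩ := X.2
      have h1 : Tendsto (fun i => (grpTr GB).norm2 (S.1 i * X.1 i - X.1 i * S.1 i) +
          4 * C * ‖rst (LamB : Set GB)ᶜ (vec (X.1 i))‖ + 4 * D * δ i) U (𝓝 0) := by
        simpa using (hc.add (hL.const_mul (4 * C))).add (hδ0.const_mul (4 * D))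
      refine squeeze_zero (fun i => (grpTr GB).norm2_nonneg _) (fun i => ?_) h1
      have h2 := est_conj (n i) (X.1 i) (S.1 i)
      rw [n2_sub_comm, n2_sub_comm (X.1 i * S.1 i)] at h2
      refine h2.trans (add_le_add (add_le_add le_rfl ?_) ?_)
      · exact mul_le_mul_of_nonneg_right (mul_le_mul_of_nonneg_left (hC i) (by norm_num))
          (norm_nonneg _)
      · exact mul_le_mul (mul_le_mul_of_nonneg_left (hD i) (by norm_num)) (hS i).le
          (norm_nonneg _) (mul_nonneg (by norm_num) (((grpTr GB).opNorm_nonneg _).trans (hD i)))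
    have key2 : ∀ j, ∀ _ : j < 2, ∀ V : (grpTr GB).bdd I, (∀ i, V.1 i = lam (aB j)) →
        (grpTr GB).cls U V * ((grpTr GB).cls U Z * (grpTr GB).cls U X * star ((grpTr GB).cls U Z)) =
          ((grpTr GB).cls U Z * (grpTr GB).cls U X * star ((grpTr GB).cls U Z)) *
            (grpTr GB).cls U V := by
      intro j hj V hV
      rw [← TracialVNA.cls_star, ← TracialVNA.cls_mul, ← TracialVNA.cls_mul,
        TracialVNA.cls_comm_iff]
      have h1 : Tendsto (fun i => 2 * ‖rst (LamB : Set GB)ᶜ (vec (X.1 i))‖) U (𝓝 0) := by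
        simpa using hL.const_mul 2
      refine squeeze_zero (fun i => (grpTr GB).norm2_nonneg _) (fun i => ?_) h1
      rw [hV]
      exact est_conj_lam (n i + 2) hj (X.1 i)
    exact ⟨key2 0 (by norm_num) V₁ fun i => rfl, key2 1 (by norm_num) V₂ fun i => rfl,
      key S₁ hn1 hs1, key S₂ hn2 hs2⟩
  · refine ⟨(grpTr GB).cls U W, ⟨?_, ?_, ?_, ?_⟩, ?_⟩
    · rw [← TracialVNA.cls_mul, ← TracialVNA.cls_mul]
      congr 1
      refine Subtype.ext (funext fun i => ?_)
      change lam (aB 0) * lam (wB (n i)) = lam (wB (n i)) * lam (aB 0)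
      rw [← lam_mul, ← lam_mul, aB_comm (by norm_num) _ (wB_mem (n i))]
    · rw [← TracialVNA.cls_mul, ← TracialVNA.cls_mul]
      congr 1
      refine Subtype.ext (funext fun i => ?_)
      change lam (aB 1) * lam (wB (n i)) = lam (wB (n i)) * lam (aB 1)
      rw [← lam_mul, ← lam_mul, aB_comm (by norm_num) _ (wB_mem (n i))]
    · rw [TracialVNA.cls_comm_iff]
      have h1 : Tendsto (fun i => 2 * δ i) U (𝓝 0) := by simpa using hδ0.const_mul 2
      refine squeeze_zero (fun i => (grpTr GB).norm2_nonneg _) (fun i => ?_) h1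
      have h2 := est_lam (C := SubB (n i)) (s := wB (n i)) (wB_comm (n i)) (S₁.1 i)
      rw [n2_sub_comm] at h2
      exact h2.trans (mul_le_mul_of_nonneg_left (hn1 i).le (by norm_num))
    · rw [TracialVNA.cls_comm_iff]
      have h1 : Tendsto (fun i => 2 * δ i) U (𝓝 0) := by simpa using hδ0.const_mul 2
      refine squeeze_zero (fun i => (grpTr GB).norm2_nonneg _) (fun i => ?_) h1
      have h2 := est_lam (C := SubB (n i)) (s := wB (n i)) (wB_comm (n i)) (S₂.1 i)
      rw [n2_sub_comm] at h2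
      exact h2.trans (mul_le_mul_of_nonneg_left (hn2 i).le (by norm_num))
    · intro h
      rw [TracialVNA.cls_comm_iff] at h
      have h1 : ∀ i, 1 ≤ (grpTr GB).norm2 (Z.1 i * W.1 i - W.1 i * Z.1 i) := by
        intro i
        change 1 ≤ (grpTr GB).norm2 (lam (aB (n i + 2)) * lam (wB (n i)) -
          lam (wB (n i)) * lam (aB (n i + 2)))
        rw [norm2_eq, ← lam_mul, ← lam_mul, vec_sub, vec_lam, vec_lam]
        refine one_le_norm_sub fun h2 => ?_
        have h3 := conj_wB (n i)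
        rw [h2, mul_inv_cancel_right] at h3
        have h4 := wB_injective h3
        omega
      have h2 := ge_of_tendsto' h h1
      linarith

end MPc72427
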