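import Pool.Agent.Work.MP_c72427_an.U.Two

set_option autoImplicit false

/-!
Basic facts on the restriction operators `rst S` and the elements supported on a subgroup.
-/

namespace MPc72427

open Filter Topology
open scoped InnerProductSpace

variable {X Y : Type}

theorem norm_rst_sq (S : Set X) (f : L2 X) :
    ‖rst S f‖ ^ 2 = ∑' x, S.indicator (fun x => ‖f x‖ ^ 2) x := by
  classical
  rw [L2.norm_sq]
  congr 1
  ext x
  rw [rst_apply, Set.indicator_apply]
  split_ifs <;> simp

theorem norm_rst_le (S : Set X) (f : L2 X) : ‖rst S f‖ ≤ ‖f‖ := by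
  refine (sq_le_sq₀ (norm_nonneg _) (norm_nonneg _)).1 ?_
  rw [norm_rst_sq, L2.norm_sq]
  exact Summable.tsum_le_tsum (fun x => Set.indicator_le_self' (fun _ _ => by positivity) x)
    ((L2.summable_sq f).indicator S) (L2.summable_sq f)

theorem rst_add_compl (S : Set X) (f : L2 X) : rst S f + rst Sᶜ f = f := by
  ext x
  change rst S f x + rst Sᶜ f x = f x
  by_cases h : x ∈ S
  · rw [rst_apply_of_mem h, rst_apply_of_notMem (by simpa using h), add_zero]
  · rw [rst_apply_of_notMem h, rst_apply_of_mem (by simpa using h), zero_add]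

theorem sub_rst (S : Set X) (f : L2 X) : f - rst S f = rst Sᶜ f := by
  rw [sub_eq_iff_eq_add', rst_add_compl]

theorem norm_sq_eq (S : Set X) (f : L2 X) : ‖f‖ ^ 2 = ‖rst S f‖ ^ 2 + ‖rst Sᶜ f‖ ^ 2 := by
  rw [norm_rst_sq, norm_rst_sq, L2.norm_sq, ← Summable.tsum_add ((L2.summable_sq f).indicator S)
    ((L2.summable_sq f).indicator Sᶜ)]
  congr 1
  ext x
  rw [← Pi.add_apply, Set.indicator_self_add_compl]

theorem inner_rst_left (S : Set X) (f g : L2 X) : ⟪rst S f, g⟫_ℂ = ⟪f, rst S g⟫_ℂ := by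
  classical
  rw [lp.inner_eq_tsum, lp.inner_eq_tsum]
  congr 1
  ext x
  rw [rst_apply, rst_apply]
  split_ifs <;> simp

theorem rst_rst (S T : Set X) (f : L2 X) : rst S (rst T f) = rst (S ∩ T) f := by
  ext x
  by_cases h : x ∈ S <;> by_cases h' : x ∈ T <;> simp [rst_apply, h, h']

theorem rst_rst_self (S : Set X) (f : L2 X) : rst S (rst S f) = rst S f := by
  rw [rst_rst, Set.inter_self]

theorem rst_rst_compl (S : Set X) (f : L2 X) : rst S (rst Sᶜ f) = 0 := by
  rw [rst_rst, Set.inter_compl_self]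
  ext x
  exact rst_apply_of_notMem (Set.notMem_empty x) f

theorem inner_rst_compl (S : Set X) (f g : L2 X) : ⟪rst S f, rst Sᶜ g⟫_ℂ = 0 := by
  rw [inner_rst_left, rst_rst_compl, inner_zero_right]

theorem norm_rst_mono {S T : Set X} (h : S ⊆ T) (f : L2 X) : ‖rst S f‖ ≤ ‖rst T f‖ := by
  have : rst S f = rst S (rst T f) := by rw [rst_rst, Set.inter_eq_self_of_subset_left h]
  rw [this]
  exact norm_rst_le _ _

theorem rst_eq_self_iff {S : Set X} {f : L2 X} : rst S f = f ↔ rst Sᶜ f = 0 := by
  rw [← sub_rst, sub_eq_zero, eq_comm]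

theorem rst_perm (σ : X ≃ Y) (S : Set Y) (f : L2 X) : rst S (perm σ f) = perm σ (rst (σ ⁻¹' S) f) := by
  ext y
  rw [perm_apply]
  by_cases h : y ∈ S
  · rw [rst_apply_of_mem h, rst_apply_of_mem (by simpa using h), perm_apply]
  · rw [rst_apply_of_notMem h, rst_apply_of_notMem (by simpa using h)]

theorem norm_rst_perm (σ : X ≃ Y) (S : Set Y) (f : L2 X) :
    ‖rst S (perm σ f)‖ = ‖rst (σ ⁻¹' S) f‖ := by
  rw [rst_perm, norm_perm]

theorem rst_e_of_mem {S : Set X} {x : X} (h : x ∈ S) : rst S (e x) = e x := by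
  ext y
  by_cases hy : y ∈ S
  · rw [rst_apply_of_mem hy]
  · rw [rst_apply_of_notMem hy, e_apply, if_neg (by rintro rfl; exact hy h)]

theorem rst_e_of_notMem {S : Set X} {x : X} (h : x ∉ S) : rst S (e x) = 0 := by
  ext y
  by_cases hy : y ∈ S
  · rw [rst_apply_of_mem hy, e_apply, if_neg (by rintro rfl; exact h hy)]
    rfl
  · rw [rst_apply_of_notMem hy]
    rfl

section Group

variable {G : Type} [Group G]

/-- `x` is supported on the set `S`: its Fourier coefficients vanish outside `S`. -/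
def Supp (S : Set G) (x : (grpTr G).El) : Prop := rst S (vec x) = vec x

theorem supp_iff {S : Set G} {x : (grpTr G).El} : Supp S x ↔ ∀ g ∉ S, vec x g = 0 := by
  constructor
  · intro h g hg
    rw [← h, rst_apply_of_notMem hg]
  · intro h
    ext g
    by_cases hg : g ∈ S
    · rw [rst_apply_of_mem hg]
    · rw [rst_apply_of_notMem hg, h g hg]

theorem vec_add (x y : (grpTr G).El) : vec (x + y) = vec x + vec y := rfl

theorem vec_sub (x y : (grpTr G).El) : vec (x - y) = vec x - vec y := rfl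

theorem vec_mul (x y : (grpTr G).El) : vec (x * y) = (x : L2 G →L[ℂ] L2 G) (vec y) := rfl

theorem vec_smul (c : ℂ) (x : (grpTr G).El) : vec (c • x) = c • vec x := rfl

theorem vec_one : vec (1 : (grpTr G).El) = e 1 := rfl

theorem vec_lam (g : G) : vec (lam g) = e g := by
  change lamOp g (e 1) = e g
  rw [lamOp_e, mul_one]

theorem vec_injective {x y : (grpTr G).El} (h : vec x = vec y) : x = y :=
  Subtype.ext (eq_of_apply_one x.2 y.2 h)

theorem lam_mul (g h : G) : lam (g * h) = lam g * lam h := Subtype.ext (lamOp_mul g h)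

theorem lam_one : lam (1 : G) = 1 := Subtype.ext lamOp_one

theorem star_lam (g : G) : star (lam g) = lam g⁻¹ := Subtype.ext (star_lamOp g)

theorem star_lam_mul_lam (g : G) : star (lam g) * lam g = 1 := by
  rw [star_lam, ← lam_mul, inv_mul_cancel, lam_one]

theorem lam_mul_star_lam (g : G) : lam g * star (lam g) = 1 := by
  rw [star_lam, ← lam_mul, mul_inv_cancel, lam_one]

theorem opNorm_lam_le (g : G) : (grpTr G).opNorm (lam g) ≤ 1 := by
  refine ContinuousLinearMap.opNorm_le_bound _ zero_le_one fun f => ?_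
  rw [one_mul]
  exact le_of_eq (norm_perm _ f)

theorem supp_lam {S : Set G} {g : G} (h : g ∈ S) : Supp S (lam g) := by
  rw [Supp, vec_lam, rst_e_of_mem h]

theorem supp_mono {S T : Set G} (h : S ⊆ T) {x : (grpTr G).El} (hx : Supp S x) : Supp T x := by
  rw [supp_iff] at hx ⊢
  exact fun g hg => hx g fun hg' => hg (h hg')

/-- The Fourier coefficients of `x * lam g`. -/
theorem vec_mul_lam (x : (grpTr G).El) (g : G) : vec (x * lam g) = rhoOp g⁻¹ (vec x) := by
  rw [vec_mul, vec_lam, apply_e x.2]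
  rfl

theorem vec_lam_mul (x : (grpTr G).El) (g : G) : vec (lam g * x) = lamOp g (vec x) := rfl

end Group

end MPc72427
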