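import Pool.Agent.Work.MP_c72427_an.U.Grp
import Pool.Agent.Work.MP_c72427_an.S.Def

set_option autoImplicit false

/-!
The two groups.
-/

namespace MPc72427

theorem phiB_apply (g : FreeGroup ℕ) (x : Multiplicative (ℕ →₀ ℤ)) (i : ℕ) :
    Multiplicative.toAdd (phiB g x) i = Multiplicative.toAdd x ((piB g)⁻¹ i) := rfl

/-- The subgroup `⊕_ℕ ℤ` of `G_β`. -/
noncomputable def LamB : Subgroup GB where
  carrier := {g | g.right = 1}
  mul_mem' := by
    intro a b ha hb
    simp only [Set.mem_ofPred_eq] at ha hb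
    simp [ha, hb]
  one_mem' := rfl
  inv_mem' := by
    intro a ha
    simp only [Set.mem_ofPred_eq] at ha
    simp [ha]

/-- The subgroup of the elements of `G_β` which involve only the coordinates `< n`. -/
noncomputable def SubB (n : ℕ) : Subgroup GB where
  carrier := {g | (∀ i, n ≤ i → Multiplicative.toAdd g.left i = 0) ∧ ∀ i, n ≤ i → piB g.right i = i}
  mul_mem' := by
    intro a b ha hb
    refine ⟨fun i hi => ?_, fun i hi => ?_⟩
    · rw [SemidirectProduct.mul_left, toAdd_mul, Finsupp.add_apply, ha.1 i hi, zero_add, phiB_apply]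
      have : (piB a.right)⁻¹ i = i := by
        rw [Equiv.Perm.inv_eq_iff_eq, ha.2 i hi]
      rw [this, hb.1 i hi]
    · rw [SemidirectProduct.mul_right, map_mul, Equiv.Perm.mul_apply, hb.2 i hi, ha.2 i hi]
  one_mem' := by
    refine ⟨fun i _ => rfl, fun i _ => ?_⟩
    rw [SemidirectProduct.one_right, map_one]
    rfl
  inv_mem' := by
    intro a ha
    have h : ∀ i, n ≤ i → (piB a.right)⁻¹ i = i := by
      intro i hi
      rw [Equiv.Perm.inv_eq_iff_eq, ha.2 i hi]
    refine ⟨fun i hi => ?_, fun i hi => ?_⟩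
    · rw [SemidirectProduct.inv_left, phiB_apply, map_inv piB, inv_inv, ha.2 i hi, toAdd_inv,
        Finsupp.neg_apply, ha.1 i hi, neg_zero]
    · rw [SemidirectProduct.inv_right, map_inv, h i hi]

theorem tr_apply (n : ℕ) (u : ℕ →₀ ℤ) (i : ℕ) : tr n u i = if i ≤ n then u i else 0 := by
  classical
  change Finsupp.filter (fun i => i ≤ n) u i = _
  rw [Finsupp.filter_apply]

theorem psiC_of (u : Multiplicative (ℕ →₀ ℤ)) (ω : Om) :
    psiC u (FreeGroup.of ω) = FreeGroup.of (shiftC (Multiplicative.toAdd u) ω) := by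
  change FreeGroup.map (shiftC (Multiplicative.toAdd u)) (FreeGroup.of ω) = _
  rw [FreeGroup.map.of]

/-- The subgroup of the sequences which vanish at the coordinates `≤ n`, in `G_γ`. -/
noncomputable def SubS (n : ℕ) : Subgroup GC where
  carrier := {g | g.left = 1 ∧ tr n (Multiplicative.toAdd g.right) = 0}
  mul_mem' := by
    intro a b ha hb
    refine ⟨?_, ?_⟩
    · rw [SemidirectProduct.mul_left, ha.1, hb.1, map_one, one_mul]
    · rw [SemidirectProduct.mul_right, toAdd_mul, map_add, ha.2, hb.2, add_zero]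
  one_mem' := by
    refine ⟨rfl, ?_⟩
    rw [SemidirectProduct.one_right, toAdd_one, map_zero]
  inv_mem' := by
    intro a ha
    refine ⟨?_, ?_⟩
    · rw [SemidirectProduct.inv_left, ha.1, inv_one, map_one]
    · rw [SemidirectProduct.inv_right, toAdd_inv, map_neg, ha.2, neg_zero]

/-- The subgroup of the free group generated by the letters of level `≤ n`. -/
noncomputable def FreeC (n : ℕ) : Subgroup (FreeGroup Om) :=
  Subgroup.closure (FreeGroup.of '' {ω : Om | ω.1 ≤ n})

theorem psiC_mem_FreeC {n : ℕ} (u : Multiplicative (ℕ →₀ ℤ)) {f : FreeGroup Om} (hf : f ∈ FreeC n) :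
    psiC u f ∈ FreeC n := by
  have h : FreeC n ≤ (FreeC n).comap (psiC u).toMonoidHom := by
    rw [FreeC, Subgroup.closure_le]
    rintro _ ⟨ω, hω, rfl⟩
    change psiC u (FreeGroup.of ω) ∈ Subgroup.closure _
    rw [psiC_of]
    exact Subgroup.subset_closure ⟨shiftC (Multiplicative.toAdd u) ω, hω, rfl⟩
  exact h hf

/-- The subgroup of the elements of `G_γ` whose free part involves only letters of level `≤ n`. -/
noncomputable def SubC (n : ℕ) : Subgroup GC where
  carrier := {g | g.left ∈ FreeC n}
  mul_mem' := by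
    intro a b ha hb
    simp only [Set.mem_ofPred_eq] at ha hb ⊢
    rw [SemidirectProduct.mul_left]
    exact mul_mem ha (psiC_mem_FreeC _ hb)
  one_mem' := by
    simp only [Set.mem_ofPred_eq]
    rw [SemidirectProduct.one_left]
    exact one_mem _
  inv_mem' := by
    intro a ha
    simp only [Set.mem_ofPred_eq] at ha ⊢
    rw [SemidirectProduct.inv_left]
    exact psiC_mem_FreeC _ (inv_mem ha)

/-- The generator of `⊕_ℕ ℤ` with index `n`, in `G_β`. -/
noncomputable def wB (n : ℕ) : GB :=
  SemidirectProduct.inl (Multiplicative.ofAdd (Finsupp.single n (1 : ℤ)))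

/-- A letter of the free group, in `G_β`. -/
noncomputable def aB (k : ℕ) : GB := SemidirectProduct.inr (FreeGroup.of k)

/-- The generator of `⊕_ℕ ℤ` with index `n`, in `G_γ`. -/
noncomputable def wC (n : ℕ) : GC :=
  SemidirectProduct.inr (Multiplicative.ofAdd (Finsupp.single n (1 : ℤ)))

/-- A letter of the free group, in `G_γ`. -/
noncomputable def tC (n : ℕ) (x : ℕ →₀ ℤ) : GC := SemidirectProduct.inl (FreeGroup.of ((n, x) : Om))

end MPc72427
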