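import Pool.Agent.Work.MP_c72427_an.U.Gen

set_option autoImplicit false

/-!
The tracial ultrapower of a von Neumann algebra with a trace: bounded families modulo the families
whose 2-norms tend to zero along the ultrafilter.
-/

namespace MPc72427

open Filter Topology

universe u v

variable {H : Type u} [NormedAddCommGroup H] [InnerProductSpace ℂ H] [CompleteSpace H]

namespace TracialVNA

/-- The star algebra of the families `x : I → M` which are bounded in operator norm. -/
def bdd (M : TracialVNA H) (I : Type v) : StarSubalgebra ℂ (I → M.El) where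
  carrier := {x | ∃ C : ℝ, ∀ i, M.opNorm (x i) ≤ C}
  mul_mem' := by
    rintro x y ⟨C, hC⟩ ⟨D, hD⟩
    refine ⟨C * D, fun i => (M.opNorm_mul_le _ _).trans ?_⟩
    exact mul_le_mul (hC i) (hD i) (M.opNorm_nonneg _) ((M.opNorm_nonneg _).trans (hC i))
  add_mem' := by
    rintro x y ⟨C, hC⟩ ⟨D, hD⟩
    exact ⟨C + D, fun i => (M.opNorm_add_le _ _).trans (add_le_add (hC i) (hD i))⟩
  algebraMap_mem' := by
    intro r
    refine ⟨M.opNorm (algebraMap ℂ M.El r), fun i => le_of_eq ?_⟩
    rfl
  star_mem' := by
    rintro x ⟨C, hC⟩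
    exact ⟨C, fun i => (M.opNorm_star _).trans_le (hC i)⟩

variable (M : TracialVNA H) {I : Type v} (U : Ultrafilter I)

/-- The congruence defining the ultrapower: `‖x i - y i‖₂ → 0` along `U`. -/
def ultCon : RingCon (M.bdd I) where
  r x y := Tendsto (fun i => M.norm2 (x.1 i - y.1 i)) U (𝓝 0)
  iseqv := by
    refine ⟨fun x => ?_, fun {x y} h => ?_, fun {x y z} h h' => ?_⟩
    · simp [M.norm2_zero]
    · refine h.congr fun i => ?_
      rw [← M.norm2_neg, neg_sub]
    · refine squeeze_zero (fun i => M.norm2_nonneg _) (fun i => ?_) (by simpa using h.add h')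
      have := M.norm2_add_le (x.1 i - y.1 i) (y.1 i - z.1 i)
      rwa [sub_add_sub_cancel] at this
  add' := by
    intro x x' y y' h h'
    refine squeeze_zero (fun i => M.norm2_nonneg _) (fun i => ?_) (by simpa using h.add h')
    have := M.norm2_add_le (x.1 i - x'.1 i) (y.1 i - y'.1 i)
    rwa [sub_add_sub_comm] at this
  mul' := by
    rintro ⟨x, C, hC⟩ ⟨x', C', hC'⟩ ⟨y, D, hD⟩ ⟨y', D', hD'⟩ h h'
    have h1 : Tendsto (fun i => M.norm2 (x i - x' i) * D + C' * M.norm2 (y i - y' i)) U (𝓝 0) := by
      simpa using (h.mul_const D).add (h'.const_mul C')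
    refine squeeze_zero (fun i => M.norm2_nonneg _) (fun i => ?_) h1
    have e : x i * y i - x' i * y' i = (x i - x' i) * y i + x' i * (y i - y' i) := by noncomm_ring
    calc M.norm2 (x i * y i - x' i * y' i)
        = M.norm2 ((x i - x' i) * y i + x' i * (y i - y' i)) := by rw [e]
      _ ≤ M.norm2 ((x i - x' i) * y i) + M.norm2 (x' i * (y i - y' i)) := M.norm2_add_le _ _
      _ ≤ M.norm2 (x i - x' i) * D + C' * M.norm2 (y i - y' i) := by
        refine add_le_add ((M.norm2_mul_le' _ _).trans ?_) ((M.norm2_mul_le _ _).trans ?_)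
        · exact mul_le_mul_of_nonneg_left (hD i) (M.norm2_nonneg _)
        · exact mul_le_mul_of_nonneg_right (hC' i) (M.norm2_nonneg _)

/-- The tracial ultrapower of `M` along the ultrafilter `U`. -/
def Ult : Type (max u v) := (M.ultCon U).Quotient

noncomputable instance : Ring (M.Ult U) := inferInstanceAs (Ring (M.ultCon U).Quotient)

noncomputable instance : Algebra ℂ (M.Ult U) := inferInstanceAs (Algebra ℂ (M.ultCon U).Quotient)

/-- The class of a bounded family. -/
noncomputable def cls (x : M.bdd I) : M.Ult U := ((x : (M.ultCon U).Quotient) : M.Ult U)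

theorem cls_surjective : Function.Surjective (M.cls U) := by
  intro x
  induction x using Quotient.inductionOn with
  | h x => exact ⟨x, rfl⟩

theorem cls_eq_cls {x y : M.bdd I} :
    M.cls U x = M.cls U y ↔ Tendsto (fun i => M.norm2 (x.1 i - y.1 i)) U (𝓝 0) :=
  (M.ultCon U).eq

theorem cls_add (x y : M.bdd I) : M.cls U (x + y) = M.cls U x + M.cls U y := rfl

theorem cls_mul (x y : M.bdd I) : M.cls U (x * y) = M.cls U x * M.cls U y := rfl

theorem cls_smul (c : ℂ) (x : M.bdd I) : M.cls U (c • x) = c • M.cls U x := rfl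

theorem cls_one : M.cls U 1 = 1 := rfl

theorem cls_zero : M.cls U 0 = 0 := rfl

theorem cls_sub (x y : M.bdd I) : M.cls U (x - y) = M.cls U x - M.cls U y := rfl

noncomputable instance : Star (M.Ult U) where
  star := fun x => Quotient.liftOn x (fun x => M.cls U (star x)) (by
    intro x y h
    rw [cls_eq_cls]
    refine (show Tendsto (fun i => M.norm2 (x.1 i - y.1 i)) U (𝓝 0) from h).congr fun i => ?_
    rw [← M.norm2_star, star_sub]
    rfl)

theorem cls_star (x : M.bdd I) : M.cls U (star x) = star (M.cls U x) := rfl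

noncomputable instance : StarRing (M.Ult U) where
  star_involutive := by
    intro x
    obtain ⟨x, rfl⟩ := M.cls_surjective U x
    rw [← cls_star, ← cls_star, star_star]
  star_mul := by
    intro x y
    obtain ⟨x, rfl⟩ := M.cls_surjective U x
    obtain ⟨y, rfl⟩ := M.cls_surjective U y
    rw [← cls_mul, ← cls_star, star_mul, cls_mul, cls_star, cls_star]
  star_add := by
    intro x y
    obtain ⟨x, rfl⟩ := M.cls_surjective U x
    obtain ⟨y, rfl⟩ := M.cls_surjective U y
    rw [← cls_add, ← cls_star, star_add, cls_add, cls_star, cls_star]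

end TracialVNA

variable {H' : Type*} [NormedAddCommGroup H'] [InnerProductSpace ℂ H'] [CompleteSpace H']

/-- A star isomorphism of ultrapowers preserves the traces (the limits of the traces). -/
def TracePreserving {M : TracialVNA H} {M' : TracialVNA H'} {I J : Type*} {U : Ultrafilter I}
    {V : Ultrafilter J} (Φ : M.Ult U ≃⋆ₐ[ℂ] M'.Ult V) : Prop :=
  ∀ (x : M.bdd I) (y : M'.bdd J) (c : ℂ), Φ (M.cls U x) = M'.cls V y →
    (Tendsto (fun i => M.trace (x.1 i)) U (𝓝 c) ↔ Tendsto (fun j => M'.trace (y.1 j)) V (𝓝 c))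

/-- The ultrafilter is countably incomplete (every nonprincipal ultrafilter on `ℕ` is). -/
def CtblyIncomplete {I : Type*} (U : Ultrafilter I) : Prop :=
  ∃ f : I → ℕ, Tendsto f U atTop

end MPc72427
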